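import Pool.Agent.Lib.MP_bb37eb_nt.BR.Coords

/-! Algebraic independence of automorphisms, in the form needed for descent. -/

namespace BB37

/-- `K` infinite, `L / K` finite, `B γ` matrices over `L` with `B 1` invertible: some
`z : L` makes `∑ γ, γ z • B γ` invertible. Proof. Let `e` be a `K`-basis of `L` and
`Q ∈ L[T_i]` the polynomial `det (∑ γ, (∑ i, T_i γ (e i)) • B γ)` (a determinant of a matrix over
`MvPolynomial ι L`; evaluation commutes with `det` by `RingHom.map_det`). At the point `x` of
`field_coords_basis` its value is `det (B 1) ≠ 0`, so `Q ≠ 0`. As `K` is infinite, `Q` does not vanish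
on all `K`-rational points (`MvPolynomial.funext_set` or a similar statement), and for
`T_i = k_i ∈ K` one takes `z = ∑ k_i e_i`. -/
theorem aut_indep (K L : Type) [Field K] [Infinite K] [Field L] [Algebra K L]
    [FiniteDimensional K L] {m : Type} [Fintype m] [DecidableEq m]
    (B : (L ≃ₐ[K] L) → Matrix m m L) (h1 : IsUnit (B 1)) :
    ∃ z : L, IsUnit (∑ γ : L ≃ₐ[K] L, γ z • B γ) := by
  classical
  let e := Module.finBasis K L
  obtain ⟨x, hx⟩ := field_coords_basis K L e
  let M : Matrix m m (MvPolynomial (Fin (Module.finrank K L)) L) :=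
    ∑ γ : L ≃ₐ[K] L, (∑ i, MvPolynomial.X i * MvPolynomial.C (γ (e i))) •
      (B γ).map MvPolynomial.C
  have hev : ∀ y : Fin (Module.finrank K L) → L,
      MvPolynomial.eval y M.det = (∑ γ : L ≃ₐ[K] L, (∑ i, y i * γ (e i)) • B γ).det := by
    intro y
    rw [RingHom.map_det]
    congr 1
    ext a b
    simp only [M, RingHom.mapMatrix_apply, Matrix.map_apply, Matrix.sum_apply, Matrix.smul_apply,
      smul_eq_mul, map_sum, map_mul, MvPolynomial.eval_X, MvPolynomial.eval_C]
  by_contra hcon
  push Not at hcon
  have hzero : M.det = 0 := by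
    apply MvPolynomial.funext_set (fun _ => Set.range (algebraMap K L))
    · intro i
      exact Set.infinite_range_of_injective (algebraMap K L).injective
    · intro y hy
      rw [map_zero, hev]
      have hy' : ∀ i, ∃ k : K, algebraMap K L k = y i := fun i => hy i (Set.mem_univ _)
      choose k hk using hy'
      have hz := hcon (∑ i, k i • e i)
      rw [Matrix.isUnit_iff_isUnit_det, isUnit_iff_ne_zero, not_not] at hz
      rw [← hz]
      congr 1
      refine Finset.sum_congr rfl fun γ _ => ?_
      congr 1
      rw [map_sum]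
      refine Finset.sum_congr rfl fun i _ => ?_
      rw [map_smul, Algebra.smul_def, hk]
  have h2 := hev x
  rw [hzero, map_zero] at h2
  have h3 : (∑ γ : L ≃ₐ[K] L, (∑ i, x i * γ (e i)) • B γ) = B 1 := by
    simp only [hx, ite_smul, one_smul, zero_smul, Finset.sum_ite_eq', Finset.mem_univ, if_true]
  rw [h3] at h2
  rw [Matrix.isUnit_iff_isUnit_det, isUnit_iff_ne_zero] at h1
  exact h1 h2.symm

end BB37
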