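import Pool.Agent.Lib.MP_bb37eb_nt.BR.FibreCsa

/-! Base change of Azumaya algebras. -/

namespace BB37

open scoped TensorProduct
open MulOpposite

section

variable (R R' A : Type) [CommRing R] [CommRing R'] [Algebra R R'] [Ring A] [Algebra R A]

/-- the inclusion of the sandwich algebra -/
noncomputable def abInc : A ⊗[R] Aᵐᵒᵖ →ₗ[R] (R' ⊗[R] A) ⊗[R'] (R' ⊗[R] A)ᵐᵒᵖ :=
  TensorProduct.lift
    (LinearMap.mk₂ R (fun (a : A) (b : Aᵐᵒᵖ) =>
        (((1 : R') ⊗ₜ[R] a) ⊗ₜ[R'] op ((1 : R') ⊗ₜ[R] b.unop) :
          (R' ⊗[R] A) ⊗[R'] (R' ⊗[R] A)ᵐᵒᵖ))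
      (fun a a' b => by rw [TensorProduct.tmul_add, TensorProduct.add_tmul])
      (fun r a b => by
        rw [TensorProduct.tmul_smul, ← TensorProduct.smul_tmul'])
      (fun a b b' => by
        rw [unop_add, TensorProduct.tmul_add, op_add, TensorProduct.tmul_add])
      (fun r a b => by
        rw [unop_smul, TensorProduct.tmul_smul, op_smul, TensorProduct.tmul_smul]))

theorem abInc_tmul (a : A) (b : Aᵐᵒᵖ) : abInc R R' A (a ⊗ₜ b) =
    ((1 : R') ⊗ₜ[R] a) ⊗ₜ[R'] op ((1 : R') ⊗ₜ[R] b.unop) := rfl

/-- extension of scalars of the inclusion -/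
noncomputable def abA : R' ⊗[R] (A ⊗[R] Aᵐᵒᵖ) →ₗ[R'] (R' ⊗[R] A) ⊗[R'] (R' ⊗[R] A)ᵐᵒᵖ :=
  LinearMap.liftBaseChange R' (abInc R R' A)

theorem abA_surj : Function.Surjective (abA R R' A) := by
  intro t
  have : t ∈ LinearMap.range (abA R R' A) := by
    induction t using TensorProduct.induction_on with
    | zero => exact Submodule.zero_mem _
    | add x y hx hy => exact Submodule.add_mem _ hx hy
    | tmul x y =>
      obtain ⟨y, rfl⟩ := op_surjective y
      induction x using TensorProduct.induction_on with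
      | zero =>
        rw [TensorProduct.zero_tmul]
        exact Submodule.zero_mem _
      | add x x' hx hx' =>
        rw [TensorProduct.add_tmul]
        exact Submodule.add_mem _ hx hx'
      | tmul r a =>
        induction y using TensorProduct.induction_on with
        | zero =>
          rw [op_zero, TensorProduct.tmul_zero]
          exact Submodule.zero_mem _
        | add y y' hy hy' =>
          rw [op_add, TensorProduct.tmul_add]
          exact Submodule.add_mem _ hy hy'
        | tmul r' b =>
          refine ⟨(r * r') ⊗ₜ (a ⊗ₜ op b), ?_⟩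
          rw [abA, LinearMap.liftBaseChange_tmul, abInc_tmul, unop_op]
          have e1 : (r ⊗ₜ[R] a : R' ⊗[R] A) = r • ((1 : R') ⊗ₜ[R] a) := by
            rw [TensorProduct.smul_tmul', smul_eq_mul, mul_one]
          have e2 : (r' ⊗ₜ[R] b : R' ⊗[R] A) = r' • ((1 : R') ⊗ₜ[R] b) := by
            rw [TensorProduct.smul_tmul', smul_eq_mul, mul_one]
          rw [e1, e2, op_smul, TensorProduct.tmul_smul, ← TensorProduct.smul_tmul', smul_smul,
            mul_comm]
  exact this

/-- extension of scalars of endomorphisms -/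
noncomputable def abB : R' ⊗[R] Module.End R A →ₗ[R'] Module.End R' (R' ⊗[R] A) :=
  LinearMap.liftBaseChange R' (LinearMap.baseChangeHom R R' A A)

theorem abB_tmul (r : R') (f : Module.End R A) :
    abB R R' A (r ⊗ₜ f) = r • (f.baseChange R' : Module.End R' (R' ⊗[R] A)) := by
  rw [abB, LinearMap.liftBaseChange_tmul]
  rfl

theorem ab_comm (t : R' ⊗[R] (A ⊗[R] Aᵐᵒᵖ)) :
    AlgHom.mulLeftRight R' (R' ⊗[R] A) (abA R R' A t) =
      abB R R' A ((AlgHom.mulLeftRight R A).toLinearMap.baseChange R' t) := by
  induction t using TensorProduct.induction_on with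
  | zero => rw [map_zero, map_zero, map_zero, map_zero]
  | add x y hx hy => rw [map_add, map_add, map_add, map_add, hx, hy]
  | tmul r u =>
    rw [LinearMap.baseChange_tmul, abB_tmul, abA, LinearMap.liftBaseChange_tmul, map_smul]
    congr 1
    induction u using TensorProduct.induction_on with
    | zero =>
      rw [map_zero, map_zero, map_zero, LinearMap.baseChange_zero]
    | add x y hx hy => rw [map_add, map_add, map_add, LinearMap.baseChange_add, hx, hy]
    | tmul a b =>
      rw [abInc_tmul]
      refine LinearMap.ext fun z => ?_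
      induction z using TensorProduct.induction_on with
      | zero => rw [map_zero, map_zero]
      | add y z hy hz => rw [map_add, map_add, hy, hz]
      | tmul k x =>
        rw [AlgHom.mulLeftRight_apply, LinearMap.baseChange_tmul, AlgHom.toLinearMap_apply,
          AlgHom.mulLeftRight_apply, unop_op, Algebra.TensorProduct.tmul_mul_tmul,
          Algebra.TensorProduct.tmul_mul_tmul, one_mul, mul_one]

variable {R A} in
/-- a dual basis -/
theorem exists_dual_basis [Module.Finite R A] [Module.Projective R A] :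
    ∃ (n : ℕ) (φ : Fin n → A →ₗ[R] R) (b : Fin n → A), ∀ x, x = ∑ j, φ j x • b j := by
  obtain ⟨n, f, g, -, -, hfg⟩ := Module.Finite.exists_comp_eq_id_of_projective R A
  refine ⟨n, fun j => (LinearMap.proj j).comp g, fun j => f (Pi.single j 1), ?_⟩
  intro x
  have h1 : f (g x) = x := by
    have := LinearMap.congr_fun hfg x
    simpa using this
  have h2 : g x = ∑ j, (g x j) • (Pi.single j (1 : R) : Fin n → R) := by
    conv_lhs => rw [← Finset.univ_sum_single (g x)]
    refine Finset.sum_congr rfl fun j _ => ?_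
    rw [← Pi.single_smul, smul_eq_mul, mul_one]
  conv_lhs => rw [← h1, h2, map_sum]
  refine Finset.sum_congr rfl fun j _ => ?_
  rw [map_smul]
  rfl

variable {R A} in
/-- the extension of a linear form -/
noncomputable def formL (χ : A →ₗ[R] R) : R' ⊗[R] A →ₗ[R'] R' :=
  (TensorProduct.AlgebraTensorModule.rid R R' R').toLinearMap.comp (χ.baseChange R')

variable {R A} in
theorem formL_tmul (χ : A →ₗ[R] R) (k : R') (x : A) : formL R' χ (k ⊗ₜ x) = χ x • k := by
  show TensorProduct.AlgebraTensorModule.rid R R' R' (χ.baseChange R' (k ⊗ₜ x)) = _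
  rw [LinearMap.baseChange_tmul, TensorProduct.AlgebraTensorModule.rid_tmul]

variable {R A} in
theorem abB_inv {n : ℕ} {φ : Fin n → A →ₗ[R] R} {b : Fin n → A}
    (h : ∀ x, x = ∑ j, φ j x • b j) (s : R' ⊗[R] Module.End R A) :
    s = ∑ j, ∑ k, formL R' (φ k) (abB R R' A s (1 ⊗ₜ b j)) ⊗ₜ[R]
      ((φ j).smulRight (b k) : Module.End R A) := by
  induction s using TensorProduct.induction_on with
  | zero =>
    symm
    refine Finset.sum_eq_zero fun j _ => Finset.sum_eq_zero fun k _ => ?_
    rw [map_zero, LinearMap.zero_apply, map_zero, TensorProduct.zero_tmul]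
  | add x y hx hy =>
    conv_lhs => rw [hx, hy]
    rw [← Finset.sum_add_distrib]
    refine Finset.sum_congr rfl fun j _ => ?_
    rw [← Finset.sum_add_distrib]
    refine Finset.sum_congr rfl fun k _ => ?_
    rw [map_add, LinearMap.add_apply, map_add, TensorProduct.add_tmul]
  | tmul r f =>
    have e : f = ∑ j, ∑ k, φ k (f (b j)) • ((φ j).smulRight (b k) : Module.End R A) := by
      refine LinearMap.ext fun x => ?_
      rw [LinearMap.sum_apply]
      conv_lhs => rw [h x, map_sum]
      refine Finset.sum_congr rfl fun j _ => ?_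
      rw [map_smul, LinearMap.sum_apply]
      conv_lhs => rw [h (f (b j)), Finset.smul_sum]
      refine Finset.sum_congr rfl fun k _ => ?_
      rw [LinearMap.smul_apply, LinearMap.smulRight_apply, smul_smul, smul_smul, mul_comm]
    conv_lhs => rw [e, TensorProduct.tmul_sum]
    refine Finset.sum_congr rfl fun j _ => ?_
    rw [TensorProduct.tmul_sum]
    refine Finset.sum_congr rfl fun k _ => ?_
    rw [abB_tmul, LinearMap.smul_apply, LinearMap.baseChange_tmul, TensorProduct.smul_tmul',
      smul_eq_mul, mul_one, formL_tmul, TensorProduct.smul_tmul]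

theorem abB_injective [Module.Finite R A] [Module.Projective R A] :
    Function.Injective (abB R R' A) := by
  obtain ⟨n, φ, b, h⟩ := exists_dual_basis (R := R) (A := A)
  rw [injective_iff_map_eq_zero]
  intro s hs
  rw [abB_inv R' h s]
  refine Finset.sum_eq_zero fun j _ => Finset.sum_eq_zero fun k _ => ?_
  rw [hs, LinearMap.zero_apply, map_zero, TensorProduct.zero_tmul]

theorem abB_surjective [Module.Finite R A] [Module.Projective R A] :
    Function.Surjective (abB R R' A) := by
  obtain ⟨n, φ, b, h⟩ := exists_dual_basis (R := R) (A := A)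
  intro F
  refine ⟨∑ j, ∑ k, formL R' (φ k) (F (1 ⊗ₜ b j)) ⊗ₜ[R]
      ((φ j).smulRight (b k) : Module.End R A), ?_⟩
  have h' : ∀ y : R' ⊗[R] A, y = ∑ k, formL R' (φ k) y • ((1 : R') ⊗ₜ[R] b k) := by
    intro y
    induction y using TensorProduct.induction_on with
    | zero =>
      symm
      refine Finset.sum_eq_zero fun k _ => ?_
      rw [map_zero, zero_smul]
    | add y z hy hz =>
      conv_lhs => rw [hy, hz]
      rw [← Finset.sum_add_distrib]
      refine Finset.sum_congr rfl fun k _ => ?_
      rw [map_add, add_smul]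
    | tmul r x =>
      conv_lhs => rw [h x, TensorProduct.tmul_sum]
      refine Finset.sum_congr rfl fun k _ => ?_
      rw [formL_tmul, TensorProduct.tmul_smul, TensorProduct.smul_tmul', TensorProduct.smul_tmul',
        smul_eq_mul, mul_one]
  refine LinearMap.ext fun y => ?_
  rw [map_sum, LinearMap.sum_apply]
  conv_rhs => rw [h' y, map_sum]
  refine Finset.sum_congr rfl fun j _ => ?_
  rw [map_smul, map_sum, LinearMap.sum_apply]
  conv_rhs => rw [h' (F (1 ⊗ₜ b j)), Finset.smul_sum]
  refine Finset.sum_congr rfl fun k _ => ?_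
  rw [abB_tmul, LinearMap.smul_apply]
  generalize formL R' (φ k) (F (1 ⊗ₜ b j)) = r
  induction y using TensorProduct.induction_on with
  | zero => rw [map_zero, map_zero, smul_zero, zero_smul]
  | add y z hy hz => rw [map_add, map_add, smul_add, hy, hz, add_smul]
  | tmul k x =>
    rw [LinearMap.baseChange_tmul, LinearMap.smulRight_apply, formL_tmul, TensorProduct.tmul_smul,
      TensorProduct.smul_tmul', TensorProduct.smul_tmul', TensorProduct.smul_tmul',
      TensorProduct.smul_tmul', smul_eq_mul, smul_eq_mul, smul_eq_mul, mul_one, smul_mul_assoc,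
      mul_smul_comm, mul_comm r k]

/-- base change of an Azumaya algebra -/
theorem azumaya_baseChange [IsAzumaya R A] : IsAzumaya R' (R' ⊗[R] A) := by
  have hfin : Module.Finite R' (R' ⊗[R] A) := inferInstance
  have hproj : Module.Projective R' (R' ⊗[R] A) := inferInstance
  have hf : ∀ r : R, (∀ a : A, r • a = 0) → r = 0 := by
    intro r hr
    have e : algebraMap R A r = algebraMap R A 0 := by
      rw [map_zero, Algebra.algebraMap_eq_smul_one]
      exact hr 1
    exact FaithfulSMul.algebraMap_injective R A e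
  obtain ⟨n, φ, c, hc⟩ := exists_trace_one R A hf
  have hone : ∑ j, formL R' (φ j) (1 ⊗ₜ c j) = 1 := by
    have : ∀ j, formL R' (φ j) (1 ⊗ₜ c j) = algebraMap R R' (φ j (c j)) := by
      intro j
      rw [formL_tmul, Algebra.algebraMap_eq_smul_one]
    simp only [this]
    rw [← map_sum, hc, map_one]
  have hfaith : FaithfulSMul R' (R' ⊗[R] A) := by
    refine ⟨fun {r r'} h => ?_⟩
    have e : ∀ j, r * formL R' (φ j) (1 ⊗ₜ c j) = r' * formL R' (φ j) (1 ⊗ₜ c j) := by
      intro j
      rw [← smul_eq_mul, ← smul_eq_mul, ← map_smul, ← map_smul, h]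
    calc r = r * ∑ j, formL R' (φ j) (1 ⊗ₜ c j) := by rw [hone, mul_one]
      _ = r' * ∑ j, formL R' (φ j) (1 ⊗ₜ c j) := by
          rw [Finset.mul_sum, Finset.mul_sum]
          exact Finset.sum_congr rfl fun j _ => e j
      _ = r' := by rw [hone, mul_one]
  have hb := IsAzumaya.bij (R := R) (A := A)
  let e : A ⊗[R] Aᵐᵒᵖ ≃ₗ[R] Module.End R A :=
    LinearEquiv.ofBijective (AlgHom.mulLeftRight R A).toLinearMap hb
  have hbc : Function.Bijective ((AlgHom.mulLeftRight R A).toLinearMap.baseChange R') := by
    have : (AlgHom.mulLeftRight R A).toLinearMap.baseChange R' =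
        (e.baseChange R R' _ _ : R' ⊗[R] (A ⊗[R] Aᵐᵒᵖ) →ₗ[R'] R' ⊗[R] Module.End R A) := rfl
    rw [this]
    exact (e.baseChange R R' _ _).bijective
  refine { bij := ⟨?_, ?_⟩ }
  · rw [injective_iff_map_eq_zero]
    intro t ht
    obtain ⟨s, rfl⟩ := abA_surj R R' A t
    rw [ab_comm] at ht
    have h1 := (injective_iff_map_eq_zero _).1 (abB_injective R R' A) _ ht
    have h2 := (injective_iff_map_eq_zero _).1 hbc.1 _ h1
    rw [h2, map_zero]
  · intro F
    obtain ⟨s, hs⟩ := abB_surjective R R' A F
    obtain ⟨t, ht⟩ := hbc.2 s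
    exact ⟨abA R R' A t, by rw [ab_comm, ht, hs]⟩

end

/-- transitivity of fibres -/
noncomputable def fibreTrans' (R R' K A : Type) [CommRing R] [CommRing R'] [Field K] [Algebra R R']
    [Algebra R' K] [Algebra R K] [IsScalarTower R R' K] [Ring A] [Algebra R A] :
    K ⊗[R'] (R' ⊗[R] A) ≃ₐ[K] K ⊗[R] A :=
  AlgEquiv.symm <| AlgEquiv.ofLinearEquiv
    (TensorProduct.AlgebraTensorModule.cancelBaseChange R R' K K A).symm
    (by simp [Algebra.TensorProduct.one_def]) <|
      LinearMap.map_mul_of_map_mul_tmul (fun _ _ _ _ => by simp)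

end BB37
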