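import Pool.Agent.Lib.MP_bb37eb_nt.Core.HasClass

/-! Descent of the Azumaya property along a split extension. -/

namespace BB37

open scoped TensorProduct
open MulOpposite

section

variable {R S : Type} [CommRing R] [CommRing S] [Algebra R S] (π : S →ₗ[R] R) (A : Type) [Ring A]
  [Algebra R A]

/-- the map on the tensor product over `R` -/
private noncomputable def AzuDescent_g0 : (S ⊗[R] A) ⊗[R] (S ⊗[R] A) →ₗ[R] A ⊗[R] Aᵐᵒᵖ :=
  (TensorProduct.lid R (A ⊗[R] Aᵐᵒᵖ)).toLinearMap ∘ₗ
    (TensorProduct.map (π ∘ₗ LinearMap.mul' R S)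
      (LinearMap.lTensor A (opLinearEquiv R : A ≃ₗ[R] Aᵐᵒᵖ).toLinearMap)) ∘ₗ
    (TensorProduct.tensorTensorTensorComm R S A S A).toLinearMap

private theorem AzuDescent_g0_tmul (s s' : S) (a b : A) :
    AzuDescent_g0 π A ((s ⊗ₜ[R] a) ⊗ₜ[R] (s' ⊗ₜ[R] b)) = π (s * s') • (a ⊗ₜ op b) := by
  simp [AzuDescent_g0]

private theorem AzuDescent_g0_smul (r : S) (x y : S ⊗[R] A) :
    AzuDescent_g0 π A ((r • x) ⊗ₜ[R] y) = AzuDescent_g0 π A (x ⊗ₜ[R] (r • y)) := by
  induction x using TensorProduct.induction_on with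
  | zero => simp
  | add x₁ x₂ h₁ h₂ => rw [smul_add, TensorProduct.add_tmul, TensorProduct.add_tmul, map_add,
      map_add, h₁, h₂]
  | tmul s a =>
    induction y using TensorProduct.induction_on with
    | zero => simp
    | add y₁ y₂ h₁ h₂ => rw [smul_add, TensorProduct.tmul_add, TensorProduct.tmul_add, map_add,
        map_add, h₁, h₂]
    | tmul s' b =>
      rw [TensorProduct.smul_tmul', TensorProduct.smul_tmul', AzuDescent_g0_tmul,
        AzuDescent_g0_tmul, smul_eq_mul, smul_eq_mul]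
      congr 2
      ring

/-- the retraction of `a ⊗ b ↦ (1 ⊗ a) ⊗ (1 ⊗ b)`:
`(s ⊗ a) ⊗ (s' ⊗ b) ↦ π (s s') • (a ⊗ b)` (build it with `TensorProduct.lift`; the inner maps
are `R`-linear and the outer one has to be balanced over `S`) -/
theorem exists_azRet : ∃ f : (S ⊗[R] A) ⊗[S] (S ⊗[R] A)ᵐᵒᵖ →ₗ[R] A ⊗[R] Aᵐᵒᵖ,
    ∀ (s s' : S) (a b : A), f ((s ⊗ₜ a) ⊗ₜ op (s' ⊗ₜ b)) = π (s * s') • (a ⊗ₜ op b) := by
  let G : (S ⊗[R] A) →+ (S ⊗[R] A)ᵐᵒᵖ →+ A ⊗[R] Aᵐᵒᵖ :=
    { toFun := fun x =>
        { toFun := fun y => AzuDescent_g0 π A (x ⊗ₜ[R] unop y)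
          map_zero' := by simp
          map_add' := fun y z => by simp [TensorProduct.tmul_add] }
      map_zero' := by ext; simp
      map_add' := fun y z => by ext; simp [TensorProduct.add_tmul] }
  have hG : ∀ x y, G x y = AzuDescent_g0 π A (x ⊗ₜ[R] unop y) := fun x y => rfl
  let f := TensorProduct.liftAddHom (R := S) G (fun r m n => by
    rw [hG, hG, unop_smul]
    exact AzuDescent_g0_smul π A r m (unop n))
  have hf : ∀ x y, f (x ⊗ₜ[S] y) = AzuDescent_g0 π A (x ⊗ₜ[R] unop y) := fun x y => rfl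
  refine ⟨{ toFun := f, map_add' := f.map_add, map_smul' := ?_ }, ?_⟩
  · intro r t
    induction t using TensorProduct.induction_on with
    | zero => simp
    | add x₁ x₂ h₁ h₂ => rw [smul_add, map_add, h₁, h₂, map_add, smul_add]
    | tmul x y =>
      rw [TensorProduct.smul_tmul', hf, hf, ← TensorProduct.smul_tmul', map_smul]
      rfl
  · intro s s' a b
    exact AzuDescent_g0_tmul π A s s' a b

/-- the map `a ⊗ b ↦ (1 ⊗ a) ⊗ (1 ⊗ b)` -/
theorem exists_azInc : ∃ f : A ⊗[R] Aᵐᵒᵖ →ₗ[R] (S ⊗[R] A) ⊗[S] (S ⊗[R] A)ᵐᵒᵖ,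
    ∀ (a b : A), f (a ⊗ₜ op b) = ((1 : S) ⊗ₜ a) ⊗ₜ op ((1 : S) ⊗ₜ b) := by
  refine ⟨TensorProduct.lift (LinearMap.mk₂ R
    (fun (a : A) (b : Aᵐᵒᵖ) => (((1 : S) ⊗ₜ[R] a) ⊗ₜ[S] op ((1 : S) ⊗ₜ[R] unop b) :
      (S ⊗[R] A) ⊗[S] (S ⊗[R] A)ᵐᵒᵖ)) ?_ ?_ ?_ ?_), ?_⟩
  · intro a a' b
    rw [TensorProduct.tmul_add, TensorProduct.add_tmul]
  · intro r a b
    rw [TensorProduct.tmul_smul]
    exact (TensorProduct.smul_tmul' r _ _).symm
  · intro a b b'
    rw [unop_add, TensorProduct.tmul_add, op_add, TensorProduct.tmul_add]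
  · intro r a b
    rw [unop_smul, TensorProduct.tmul_smul]
    have h1 : (r • ((1 : S) ⊗ₜ[R] unop b : S ⊗[R] A)) =
        (algebraMap R S r) • ((1 : S) ⊗ₜ[R] unop b : S ⊗[R] A) := by
      rw [algebraMap_smul]
    have h2 : (r • ((1 : S) ⊗ₜ[R] a : S ⊗[R] A)) =
        (algebraMap R S r) • ((1 : S) ⊗ₜ[R] a : S ⊗[R] A) := by
      rw [algebraMap_smul]
    rw [h1, op_smul, ← TensorProduct.smul_tmul, ← h2]
    exact (TensorProduct.smul_tmul' r _ _).symm
  · intro a b
    simp

/-- Injectivity: if `t ∈ A ⊗ Aᵒᵖ` acts as zero on `A`, its image in the big algebra acts as zero on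
`1 ⊗ A`, hence on `S ⊗ A`, so it is zero and `t` is zero by the retraction. Surjectivity: for
`f : End R A` the endomorphism `f.baseChange S` is the action of some `t`; the retraction of `t`
acts as `f` (apply `π ⊗ id` to `1 ⊗ f x = ∑ s_j s'_j ⊗ a_j x b_j`). -/
theorem azumaya_of_base (hπ : π 1 = 1) [Module.Finite R A] [Module.Projective R A]
    [FaithfulSMul R A] (h : Function.Bijective (AlgHom.mulLeftRight S (S ⊗[R] A))) :
    IsAzumaya R A := by
  obtain ⟨ret, hret⟩ := exists_azRet (S := S) π A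
  obtain ⟨inc, hinc⟩ := exists_azInc (R := R) (S := S) A
  have hri : ∀ t, ret (inc t) = t := by
    intro t
    induction t using TensorProduct.induction_on with
    | zero => simp
    | add x₁ x₂ h₁ h₂ => rw [map_add, map_add, h₁, h₂]
    | tmul a b =>
      induction b using MulOpposite.rec' with
      | h b => rw [hinc, hret, mul_one, hπ, one_smul]
  have hcomp : ∀ (t : A ⊗[R] Aᵐᵒᵖ) (x : A),
      AlgHom.mulLeftRight S (S ⊗[R] A) (inc t) ((1 : S) ⊗ₜ x) =
        (1 : S) ⊗ₜ (AlgHom.mulLeftRight R A t x) := by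
    intro t x
    induction t using TensorProduct.induction_on with
    | zero => simp
    | add x₁ x₂ h₁ h₂ => rw [map_add, map_add, LinearMap.add_apply, h₁, h₂, map_add,
        LinearMap.add_apply, TensorProduct.tmul_add]
    | tmul a b =>
      induction b using MulOpposite.rec' with
      | h b =>
        rw [hinc, AlgHom.mulLeftRight_apply, AlgHom.mulLeftRight_apply, unop_op, unop_op,
          Algebra.TensorProduct.tmul_mul_tmul, Algebra.TensorProduct.tmul_mul_tmul, mul_one,
          mul_one]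
  let P : S ⊗[R] A →ₗ[R] A := (TensorProduct.lid R A).toLinearMap ∘ₗ LinearMap.rTensor A π
  have hP : ∀ (s : S) (a : A), P (s ⊗ₜ a) = π s • a := by
    intro s a
    simp [P]
  have hback : ∀ (T : (S ⊗[R] A) ⊗[S] (S ⊗[R] A)ᵐᵒᵖ) (x : A),
      P (AlgHom.mulLeftRight S (S ⊗[R] A) T ((1 : S) ⊗ₜ x)) =
        AlgHom.mulLeftRight R A (ret T) x := by
    intro T x
    induction T using TensorProduct.induction_on with
    | zero => simp
    | add x₁ x₂ h₁ h₂ => rw [map_add, map_add, LinearMap.add_apply, map_add, h₁, h₂, map_add,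
        LinearMap.add_apply]
    | tmul u v =>
      induction v using MulOpposite.rec' with
      | h v =>
        induction u using TensorProduct.induction_on with
        | zero => simp
        | add x₁ x₂ h₁ h₂ => rw [TensorProduct.add_tmul, map_add, map_add, LinearMap.add_apply,
            map_add, h₁, h₂, map_add, LinearMap.add_apply]
        | tmul s a =>
          induction v using TensorProduct.induction_on with
          | zero => simp
          | add x₁ x₂ h₁ h₂ => rw [op_add, TensorProduct.tmul_add, map_add, map_add,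
              LinearMap.add_apply, map_add, h₁, h₂, map_add, LinearMap.add_apply]
          | tmul s' b =>
            rw [hret, AlgHom.mulLeftRight_apply, unop_op, Algebra.TensorProduct.tmul_mul_tmul,
              Algebra.TensorProduct.tmul_mul_tmul, mul_one, hP, map_smul, LinearMap.smul_apply,
              AlgHom.mulLeftRight_apply, unop_op]
  refine { bij := ⟨?_, ?_⟩ }
  · rw [injective_iff_map_eq_zero]
    intro t ht
    have h0 : inc t = 0 := by
      apply h.1
      rw [map_zero]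
      apply LinearMap.ext
      intro y
      induction y using TensorProduct.induction_on with
      | zero => simp
      | add x₁ x₂ h₁ h₂ => rw [map_add, h₁, h₂, map_add]
      | tmul s x =>
        have : (s ⊗ₜ[R] x : S ⊗[R] A) = s • ((1 : S) ⊗ₜ[R] x) := by
          rw [TensorProduct.smul_tmul', smul_eq_mul, mul_one]
        rw [this, map_smul, hcomp, ht]
        simp
    rw [← hri t, h0, map_zero]
  · intro f
    obtain ⟨T, hT⟩ := h.2 (f.baseChange S)
    refine ⟨ret T, ?_⟩
    apply LinearMap.ext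
    intro x
    rw [← hback, hT, LinearMap.baseChange_tmul, hP, hπ, one_smul]

end

end BB37
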