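import Pool.Agent.Lib.MP_bb37eb_nt.BR.HasOf

/-! The class of a base change. -/

namespace BB37

open scoped TensorProduct

/-- `ρ' (t ⊗ a) = t • (ρ a).map (emb K K')` and `Φ' g = (Φ (resG K K' g)).map (emb K K')`;
`emb_resG`, `agree_res`, `exists_finite_image`, `Module.finrank_baseChange`. -/
theorem HasClass.baseChange (K : Type) [Field K] (K' : Type) [Field K'] [Algebra K K']
    {A : Type} [Ring A] [Algebra K A] {c : Z2 K} (hA : HasClass K A c) :
    HasClass K' (K' ⊗[K] A) (resZ K K' c) := by
  obtain ⟨n, ρ, Φ, hn, h1, h2, h3, h4, h5⟩ := hA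
  let e : Matrix (Fin n) (Fin n) (Kb K) →ₐ[K] Matrix (Fin n) (Fin n) (Kb K') :=
    (emb K K').mapMatrix
  have he : ∀ M : Matrix (Fin n) (Fin n) (Kb K), e M = M.map (emb K K') := fun _ => rfl
  -- compatibility of the embedding with the Galois action
  have hres : ∀ (g : GK K') (M : Matrix (Fin n) (Fin n) (Kb K)),
      (e M).map g = e (M.map (resG K K' g)) := by
    intro g M
    ext i j
    exact (emb_resG K K' g (M i j)).symm
  let ρ' : K' ⊗[K] A →ₐ[K'] Matrix (Fin n) (Fin n) (Kb K') :=
    Algebra.TensorProduct.lift (Algebra.ofId K' _) (e.comp ρ)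
      fun t a => Algebra.commutes (R := K') t _
  have hρ' : ∀ (t : K') (a : A), ρ' (t ⊗ₜ a) = t • e (ρ a) := by
    intro t a
    have h6 : ρ' (t ⊗ₜ a) = Algebra.ofId K' _ t * (e.comp ρ) a :=
      Algebra.TensorProduct.lift_tmul _ _ _ _ _
    rw [h6, Algebra.ofId_apply, Algebra.smul_def]
    rfl
  refine ⟨n, ρ', fun g => e (Φ (resG K K' g)), hn, ?_, ?_, ?_, ?_, ?_⟩
  · rw [Module.finrank_baseChange, h1]
  · obtain ⟨M, hM, h⟩ := h2
    obtain ⟨M', hM', h'⟩ := exists_finite_image K K' M
    exact ⟨M', hM', fun g g' hg => congrArg e (h _ _ (agree_res K K' h' hg))⟩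
  · intro g
    exact (h3 _).map e
  · intro g h
    change e (Φ (resG K K' g)) * (e (Φ (resG K K' h))).map g =
      (((resZ K K' c).1 (g, h) : (Kb K')ˣ) : Kb K') • e (Φ (resG K K' (g * h)))
    rw [hres, ← map_mul, h4, map_mul (resG K K')]
    ext i j
    change emb K K' (_ * _) = _ * emb K K' _
    rw [map_mul]
    rfl
  · intro g x
    have key : ∀ y : K' ⊗[K] A, e (Φ (resG K K' g)) * (ρ' y).map g =
        ρ' y * e (Φ (resG K K' g)) := by
      intro y
      induction y using TensorProduct.induction_on with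
      | zero =>
        rw [map_zero, zero_mul, Matrix.map_zero _ (map_zero g), mul_zero]
      | tmul t a =>
        rw [hρ']
        have h6 : (t • e (ρ a)).map g = t • (e (ρ a)).map g := by
          ext i j
          exact map_smul g t (e (ρ a) i j)
        rw [h6, hres, mul_smul_comm, ← map_mul, h5, map_mul, smul_mul_assoc]
      | add y z hy hz =>
        rw [map_add, Matrix.map_add _ (map_add g), mul_add, add_mul, hy, hz]
    exact key x

end BB37
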