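import Pool.Agent.Lib.MP_bb37eb_nt.Core.H2

/-! Galois coordinates. -/

namespace BB37

/-- functions of the form `γ ↦ ∑ x i * γ • y i` -/
private def CoordsNice {S Γ : Type} [CommRing S] [Group Γ] [MulSemiringAction Γ S]
    (f : Γ → S) : Prop :=
  ∃ (ι : Type) (_ : Fintype ι) (x y : ι → S), ∀ γ : Γ, ∑ i, x i * γ • y i = f γ

private lemma coordsNice_mul {S Γ : Type} [CommRing S] [Group Γ] [MulSemiringAction Γ S]
    {f g : Γ → S} (hf : CoordsNice f) (hg : CoordsNice g) :
    CoordsNice fun γ => f γ * g γ := by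
  obtain ⟨ι, _, x, y, h⟩ := hf
  obtain ⟨κ, _, x', y', h'⟩ := hg
  refine ⟨ι × κ, inferInstance, fun p => x p.1 * x' p.2, fun p => y p.1 * y' p.2, fun γ => ?_⟩
  show _ = f γ * g γ
  rw [← h γ, ← h' γ, Finset.sum_mul_sum, Fintype.sum_prod_type]
  refine Finset.sum_congr rfl fun i _ => Finset.sum_congr rfl fun j _ => ?_
  rw [smul_mul']
  ring

private lemma coordsNice_one {S Γ : Type} [CommRing S] [Group Γ] [MulSemiringAction Γ S] :
    CoordsNice fun _ : Γ => (1 : S) :=
  ⟨Unit, inferInstance, fun _ => 1, fun _ => 1, fun γ => by simp⟩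

private lemma coordsNice_sep {S Γ : Type} [CommRing S] [Group Γ] [MulSemiringAction Γ S]
    (σ : Γ) (h : Ideal.span (Set.range fun s : S => s - σ • s) = ⊤) :
    ∃ f : Γ → S, CoordsNice f ∧ f 1 = 1 ∧ f σ = 0 := by
  have h1 : (1 : S) ∈ Ideal.span (Set.range fun s : S => s - σ • s) := by
    rw [h]; trivial
  rw [Finsupp.mem_ideal_span_range_iff_exists_finsupp] at h1
  obtain ⟨c, hc⟩ := h1
  refine ⟨fun γ => ∑ s ∈ c.support, c s * (γ • s - σ • s), ?_, ?_, ?_⟩
  · refine ⟨Option c.support, inferInstance,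
      fun o => o.elim (-∑ s ∈ c.support, c s * σ • s) fun s => c s,
      fun o => o.elim 1 fun s => (s : S), fun γ => ?_⟩
    rw [Fintype.sum_option]
    simp only [Option.elim, smul_one, mul_one]
    rw [Finset.sum_coe_sort c.support (fun s => c s * γ • s)]
    simp only [mul_sub, Finset.sum_sub_distrib]
    ring
  · simpa [Finsupp.sum] using hc
  · simp

private lemma coordsNice_finset {S Γ : Type} [CommRing S] [Group Γ] [DecidableEq Γ]
    [MulSemiringAction Γ S]
    (h : ∀ σ : Γ, σ ≠ 1 → Ideal.span (Set.range fun s : S => s - σ • s) = ⊤) (T : Finset Γ)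
    (hT : 1 ∉ T) : ∃ f : Γ → S, CoordsNice f ∧ f 1 = 1 ∧ ∀ σ ∈ T, f σ = 0 := by
  induction T using Finset.induction_on with
  | empty => exact ⟨fun _ => 1, coordsNice_one, rfl, by simp⟩
  | insert a T ha ih =>
    rw [Finset.mem_insert, not_or] at hT
    obtain ⟨f, hf, hf1, hf0⟩ := ih hT.2
    obtain ⟨g, hg, hg1, hg0⟩ := coordsNice_sep a (h a (fun e => hT.1 e.symm))
    refine ⟨fun γ => f γ * g γ, coordsNice_mul hf hg, by simp [hf1, hg1], fun σ hσ => ?_⟩
    rw [Finset.mem_insert] at hσ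
    rcases hσ with rfl | hσ
    · simp [hg0]
    · simp [hf0 σ hσ]

/-- A finite group acting on a commutative ring such that for `σ ≠ 1` the elements `s - σ s`
generate the unit ideal: then there are Galois coordinates. Proof. Fix `σ ≠ 1`: there are
`a_j, s_j` with `∑ a_j (s_j - σ s_j) = 1`; with `x = (a_j ..., - ∑ a_j σ s_j)`, `y = (s_j ..., 1)`
the function `τ ↦ ∑ x_i τ y_i` is `1` at `τ = 1` and `0` at `τ = σ`. The set of functions
`Γ → S` of the form `τ ↦ ∑ x_i τ y_i` is closed under products (index set `Fin n × Fin m`), so the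
product over all `σ ≠ 1` has this form. -/
theorem coords_of_separate (S Γ : Type) [CommRing S] [Group Γ] [Fintype Γ] [DecidableEq Γ]
    [MulSemiringAction Γ S]
    (h : ∀ σ : Γ, σ ≠ 1 → Ideal.span (Set.range fun s : S => s - σ • s) = ⊤) :
    ∃ (n : ℕ) (x y : Fin n → S), ∀ γ : Γ, ∑ i, x i * γ • y i = if γ = 1 then 1 else 0 := by
  obtain ⟨f, ⟨ι, _, x, y, hxy⟩, hf1, hf0⟩ :=
    coordsNice_finset h (Finset.univ.erase 1) (Finset.notMem_erase 1 _)
  refine ⟨Fintype.card ι, fun i => x ((Fintype.equivFin ι).symm i),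
    fun i => y ((Fintype.equivFin ι).symm i), fun γ => ?_⟩
  rw [Equiv.sum_comp (Fintype.equivFin ι).symm (fun i => x i * γ • y i), hxy]
  split_ifs with hγ
  · rw [hγ, hf1]
  · exact hf0 γ (Finset.mem_erase.2 ⟨hγ, Finset.mem_univ _⟩)

/-- the case of a finite extension of fields -/
theorem field_coords (K L : Type) [Field K] [Field L] [Algebra K L] [FiniteDimensional K L]
    [DecidableEq (L ≃ₐ[K] L)] :
    ∃ (n : ℕ) (x y : Fin n → L), ∀ γ : L ≃ₐ[K] L, ∑ i, x i * γ (y i) = if γ = 1 then 1 else 0 := by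
  obtain ⟨n, x, y, h⟩ := coords_of_separate L (L ≃ₐ[K] L) (fun σ hσ => by
    have : ∃ s : L, s - σ • s ≠ 0 := by
      by_contra hcon
      push Not at hcon
      exact hσ (AlgEquiv.ext fun s => (sub_eq_zero.1 (hcon s)).symm)
    obtain ⟨s, hs⟩ := this
    exact Ideal.eq_top_of_isUnit_mem _ (Ideal.subset_span ⟨s, rfl⟩) (isUnit_iff_ne_zero.2 hs))
  exact ⟨n, x, y, h⟩

/-- a basis version: if `e` is a `K`-basis of `L` there are `x i` with
`∑ x i * γ (e i) = 1` if `γ = 1`, `0` otherwise (expand the `y i` of `field_coords` in the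
basis) -/
theorem field_coords_basis (K L : Type) [Field K] [Field L] [Algebra K L] [FiniteDimensional K L]
    [DecidableEq (L ≃ₐ[K] L)] {ι : Type} [Fintype ι] (e : Module.Basis ι K L) :
    ∃ x : ι → L, ∀ γ : L ≃ₐ[K] L, ∑ i, x i * γ (e i) = if γ = 1 then 1 else 0 := by
  obtain ⟨n, x, y, h⟩ := field_coords K L
  refine ⟨fun j => ∑ i, x i * algebraMap K L (e.repr (y i) j), fun γ => ?_⟩
  rw [← h γ]
  simp only [Finset.sum_mul]
  rw [Finset.sum_comm]
  refine Finset.sum_congr rfl fun i _ => ?_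
  conv_rhs => rw [← e.sum_repr (y i), map_sum, Finset.mul_sum]
  refine Finset.sum_congr rfl fun j _ => ?_
  rw [map_smul, Algebra.smul_def]
  ring

end BB37
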