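import Pool.Agent.Lib.MP_bb37eb_nt.Core.HasClass

/-! Smooth families of matrices over the algebraic closure. -/

namespace BB37

section

variable (K : Type) [Field K]

/-- finitely many matrices have their entries in a finite normal subextension -/
theorem exists_sub_mat {m ι : Type} [Finite m] [Finite ι] (x : ι → Matrix m m (Kb K)) :
    ∃ M : IntermediateField K (Kb K), FiniteDimensional K M ∧ Normal K M ∧
      ∀ t i j, x t i j ∈ M := by
  obtain ⟨M1, hM1, h2⟩ := exists_finite_sub (K := K)
    (Set.range fun p : ι × m × m => x p.1 p.2.1 p.2.2) (Set.finite_range _)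
  obtain ⟨M', h3, h4, h5⟩ := exists_normal K M1
  exact ⟨M', h4, h5, fun t i j => h3 (h2 ⟨(t, i, j), rfl⟩)⟩

/-- a smooth family of matrices has its entries in a finite normal subextension through which it
factors (as in `Smooth1.values`) -/
theorem smooth_mat {m : Type} [Finite m] {Φ : GK K → Matrix m m (Kb K)} (h : Smooth1 K Φ) :
    ∃ M : IntermediateField K (Kb K), FiniteDimensional K M ∧ Normal K M ∧
      (∀ g h, Agree K M g h → Φ g = Φ h) ∧ ∀ g i j, Φ g i j ∈ M := by
  obtain ⟨M, hM, hN, h1⟩ := h.normal
  have hfin : Finite (Set.range Φ) := h.finite_range.to_subtype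
  obtain ⟨M1, hM1, hN1, h2⟩ := exists_sub_mat K (fun t : Set.range Φ => (t : Matrix m m (Kb K)))
  obtain ⟨M', h3, h4, h5⟩ := exists_normal K (M ⊔ M1)
  refine ⟨M', h4, h5, fun g h hg => h1 g h fun x hx => hg x (h3 (le_sup_left (a := M) hx)), ?_⟩
  intro g i j
  exact h3 (le_sup_right (a := M) (h2 ⟨Φ g, g, rfl⟩ i j))

/-- entrywise Galois action and products -/
theorem map_gal_mul {m : Type} [Fintype m] (g : GK K) (x y : Matrix m m (Kb K)) :
    (x * y).map g = x.map g * y.map g := by
  ext i j
  simp only [Matrix.map_apply, Matrix.mul_apply, map_sum, map_mul]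

theorem map_gal_map {m : Type} (g h : GK K) (x : Matrix m m (Kb K)) :
    (x.map h).map g = x.map (g * h : GK K) := by
  ext i j
  simp only [Matrix.map_apply, AlgEquiv.mul_apply]

theorem map_gal_smul {m : Type} (g : GK K) (t : Kb K) (x : Matrix m m (Kb K)) :
    (t • x).map g = g t • x.map g := by
  ext i j
  simp only [Matrix.map_apply, Matrix.smul_apply, smul_eq_mul, map_mul]

theorem map_gal_isUnit {m : Type} [Fintype m] [DecidableEq m] (g : GK K) (x : Matrix m m (Kb K))
    (hx : IsUnit x) : IsUnit (x.map g) := by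
  have h : x.map g = (RingHom.mapMatrix (g : Kb K →+* Kb K) : Matrix m m (Kb K) →+* _) x := rfl
  rw [h]
  exact hx.map _

/-- an element fixed by the Galois group is rational (characteristic zero: `Kb K / K` is Galois) -/
theorem gal_fixed [CharZero K] (x : Kb K) (hx : ∀ g : GK K, g x = x) :
    ∃ t : K, x = algebraMap K (Kb K) t := by
  have h := (InfiniteGalois.mem_bot_iff_fixed (k := K) (K := Kb K) x).2 hx
  obtain ⟨t, ht⟩ := IntermediateField.mem_bot.1 h
  exact ⟨t, ht.symm⟩

end

end BB37
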