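import Pool.Agent.Lib.MP_bb37eb_nt.BR.Rep
import Pool.Agent.Lib.MP_bb37eb_nt.BR.MatLem

/-! The cocycle of a semilinear structure. -/

namespace BB37

/-- scalars are determined by their action on an invertible matrix -/
private theorem exCoc_cancel {L : Type} [Field L] {n : ℕ} (hn : 0 < n) {t t' : L}
    {Y : Matrix (Fin n) (Fin n) L} (hY : IsUnit Y) (h : t • Y = t' • Y) : t = t' := by
  obtain ⟨Z, hZ⟩ := hY.exists_right_inv
  have h1 : t • (1 : Matrix (Fin n) (Fin n) L) = t' • 1 := by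
    have := congrArg (fun X => X * Z) h
    simpa only [Matrix.smul_mul, hZ] using this
  have h2 := congrFun (congrFun h1 ⟨0, hn⟩) ⟨0, hn⟩
  simpa using h2

private theorem exCoc_scalar {K : Type} [Field K] {A : Type} [Ring A] [Algebra K A]
    [Algebra.IsCentral K A] [IsSimpleRing A] [FiniteDimensional K A] {n : ℕ}
    (ρ : A →ₐ[K] Matrix (Fin n) (Fin n) (Kb K)) (hn : 0 < n)
    (hd : Module.finrank K A = n ^ 2) (Φ : GK K → Matrix (Fin n) (Fin n) (Kb K))
    (h3 : ∀ g, IsUnit (Φ g)) (h5 : ∀ g a, Φ g * (ρ a).map g = ρ a * Φ g) (g h : GK K) :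
    ∃ t : (Kb K)ˣ, Φ g * (Φ h).map g = (t : Kb K) • Φ (g * h) := by
  obtain ⟨Z, hZ⟩ := (h3 (g * h)).exists_right_inv
  have hZ' : Z * Φ (g * h) = 1 := mul_eq_one_comm.1 hZ
  have hX : ∀ a, Φ g * (Φ h).map g * (ρ a).map (g * h : GK K) = ρ a * (Φ g * (Φ h).map g) := by
    intro a
    rw [← map_gal_map, mul_assoc, ← map_gal_mul, h5, map_gal_mul, ← mul_assoc, h5, mul_assoc]
  have hc : ∀ a, Φ g * (Φ h).map g * Z * ρ a = ρ a * (Φ g * (Φ h).map g * Z) := by
    intro a
    have e1 : Z * ρ a = (ρ a).map (g * h : GK K) * Z := by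
      have e2 : Z * ρ a = Z * ρ a * (Φ (g * h) * Z) := by rw [hZ, mul_one]
      rw [e2, mul_assoc Z, ← mul_assoc (ρ a), ← h5, mul_assoc (Φ (g * h)), ← mul_assoc Z, hZ',
        one_mul]
    rw [mul_assoc _ Z, e1, ← mul_assoc, hX, mul_assoc (ρ a)]
  obtain ⟨t, ht⟩ := rep_center ρ hn hd _ hc
  have h1 : Φ g * (Φ h).map g = t • Φ (g * h) := by
    have := congrArg (fun X => X * Φ (g * h)) ht
    simpa only [mul_assoc, hZ', mul_one, Matrix.smul_mul, one_mul] using this
  have h0 : t ≠ 0 := by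
    rintro rfl
    rw [zero_smul] at h1
    have hu : IsUnit (Φ g * (Φ h).map g) := (h3 g).mul (map_gal_isUnit K g _ (h3 h))
    rw [h1] at hu
    have : Nonempty (Fin n) := ⟨⟨0, hn⟩⟩
    exact not_isUnit_zero hu
  exact ⟨Units.mk0 t h0, h1⟩

/-- `Φ g * (Φ h).map g` and `Φ (g * h)` both carry `(ρ a).map (g * h)` to `ρ a`, so they differ by
a scalar (`rep_center` applied to `Φ g * (Φ h).map g * (Φ (g * h))⁻¹`), which is nonzero since both
are invertible and `0 < n`. The scalar function `c` is smooth (`smooth_mat`: take `M` normal with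
`Φ` factoring through `M` and with entries in `M`; then `(Φ h).map g` depends only on the
restrictions of `g` and `h` to `M`, and `g * h` restricted to `M` depends only on the restrictions
of `g`, `h`, see the proof of `B2_le_Z2`; a scalar `t` with `X = t • Y`, `Y` invertible, `0 < n`, is
determined by `X`, `Y`) and it is a cocycle by associativity: compute
`Φ g * (Φ h).map g * (Φ j).map (g * h)` in two ways (`IsMulCocycle₂` in Mathlib means
`f (g * h, j) * f (g, h) = g • (f (h, j)) * f (g, h * j)`). -/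
theorem exists_coc (K : Type) [Field K] {A : Type} [Ring A] [Algebra K A] [Algebra.IsCentral K A]
    [IsSimpleRing A] [FiniteDimensional K A] {n : ℕ} (ρ : A →ₐ[K] Matrix (Fin n) (Fin n) (Kb K))
    (hn : 0 < n) (hd : Module.finrank K A = n ^ 2) (Φ : GK K → Matrix (Fin n) (Fin n) (Kb K))
    (h2 : Smooth1 K Φ) (h3 : ∀ g, IsUnit (Φ g))
    (h5 : ∀ g a, Φ g * (ρ a).map g = ρ a * Φ g) :
    ∃ c : Z2 K, ∀ g h, Φ g * (Φ h).map g = (c.1 (g, h) : Kb K) • Φ (g * h) := by
  choose c hc using exCoc_scalar ρ hn hd Φ h3 h5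
  refine ⟨⟨fun p => c p.1 p.2, ?_, ?_⟩, fun g h => hc g h⟩
  · obtain ⟨M, hM, hN, h1, h4⟩ := smooth_mat K h2
    refine ⟨M, hM, fun g g' h h' hg hh => ?_⟩
    have e1 : Φ (g * h) = Φ (g' * h') := by
      apply h1
      intro x hx
      have e := hh x hx
      have e' := hg (h' x) (normal_stable M h' hx)
      rw [AlgEquiv.mul_apply, AlgEquiv.mul_apply, e, e']
    have e2 : (Φ h).map g = (Φ h').map g' := by
      ext i j
      rw [Matrix.map_apply, Matrix.map_apply, h1 h h' hh]
      exact hg _ (h4 h' i j)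
    have e3 := hc g h
    rw [h1 g g' hg, e2, hc g' h', e1] at e3
    exact Units.ext (exCoc_cancel hn (h3 (g' * h')) e3).symm
  · intro g h j
    have e1 : Φ g * (Φ h).map g * (Φ j).map (g * h : GK K) =
        ((c (g * h) j * c g h : (Kb K)ˣ) : Kb K) • Φ (g * h * j) := by
      rw [hc g h, Matrix.smul_mul, hc (g * h) j, smul_smul, Units.val_mul, mul_comm]
    have e2 : Φ g * (Φ h).map g * (Φ j).map (g * h : GK K) =
        ((g • c h j * c g (h * j) : (Kb K)ˣ) : Kb K) • Φ (g * h * j) := by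
      rw [← map_gal_map, mul_assoc, ← map_gal_mul, hc h j, map_gal_smul, Matrix.mul_smul,
        hc g (h * j), smul_smul, Units.val_mul, ← mul_assoc g h j, AlgEquiv.smul_units_def]
      rfl
    rw [e1] at e2
    exact Units.ext (exCoc_cancel hn (h3 (g * h * j)) e2)

end BB37
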