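import Pool.Agent.Lib.MP_bb37eb_nt.BR.Rep
import Pool.Agent.Lib.MP_bb37eb_nt.BR.MatLem

/-! The semilinear structure of a representation. -/

namespace BB37

/-- For `g` let `ρg a = (ρ a).map g`; it is a representation (an algebra homomorphism over `K`),
conjugate to `ρ` by `rep_conj`. Choose `Φ g` as a function of the map `ρg` only (for example
`if h : ∃ u, IsUnit u ∧ ∀ a, u * f a = ρ a * u then h.choose else 1` with `f = fun a => (ρ a).map g`);
`ρg` depends only on the restriction of `g` to the field generated by the entries of the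
`ρ (a i)`, `a` a basis of `A` (`exists_sub_mat`), so `Φ` is smooth. -/
theorem exists_phi (K : Type) [Field K] {A : Type} [Ring A] [Algebra K A] [Algebra.IsCentral K A]
    [IsSimpleRing A] [FiniteDimensional K A] {n : ℕ} (ρ : A →ₐ[K] Matrix (Fin n) (Fin n) (Kb K))
    (hn : 0 < n) (hd : Module.finrank K A = n ^ 2) :
    ∃ Φ : GK K → Matrix (Fin n) (Fin n) (Kb K),
      Smooth1 K Φ ∧ (∀ g, IsUnit (Φ g)) ∧ ∀ g a, Φ g * (ρ a).map g = ρ a * Φ g := by
  classical
  let P : (A → Matrix (Fin n) (Fin n) (Kb K)) → Prop := fun f =>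
    ∃ u : Matrix (Fin n) (Fin n) (Kb K), IsUnit u ∧ ∀ a, u * f a = ρ a * u
  let F : (A → Matrix (Fin n) (Fin n) (Kb K)) → Matrix (Fin n) (Fin n) (Kb K) :=
    fun f => if h : P f then h.choose else 1
  have hP : ∀ g : GK K, P (fun a => (ρ a).map g) := by
    intro g
    let ρg : A →ₐ[K] Matrix (Fin n) (Fin n) (Kb K) :=
      ((g : Kb K →ₐ[K] Kb K).mapMatrix).comp ρ
    obtain ⟨u, hu, h⟩ := rep_conj ρg ρ hn hd
    exact ⟨u, hu, fun a => h a⟩
  have hF : ∀ f, P f → IsUnit (F f) ∧ ∀ a, F f * f a = ρ a * F f := by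
    intro f hf
    have e : F f = hf.choose := dif_pos hf
    rw [e]
    exact hf.choose_spec
  refine ⟨fun g => F (fun a => (ρ a).map g), ?_, fun g => (hF _ (hP g)).1, fun g a =>
    (hF _ (hP g)).2 a⟩
  obtain ⟨M, hM, -, hx⟩ := exists_sub_mat K (fun i => ρ (Module.finBasis K A i))
  refine ⟨M, hM, fun g h hgh => ?_⟩
  have key : (fun a => (ρ a).map g) = fun a => (ρ a).map h := by
    funext a
    ext i j
    rw [Matrix.map_apply, Matrix.map_apply]
    apply hgh
    have e : ρ a = ∑ t, (Module.finBasis K A).repr a t • ρ (Module.finBasis K A t) := by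
      conv_lhs => rw [← (Module.finBasis K A).sum_repr a]
      rw [map_sum]
      simp only [map_smul]
    rw [e, Matrix.sum_apply]
    refine M.sum_mem fun t _ => ?_
    rw [Matrix.smul_apply]
    exact M.smul_mem (hx t i j)
  show F (fun a => (ρ a).map g) = F (fun a => (ρ a).map h)
  rw [key]

end BB37
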