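import Pool.Agent.Lib.MP_bb37eb_nt.BR.Rep

/-! Existence of a representation. -/

namespace BB37

open scoped TensorProduct

/-- existence of a representation of degree `n`, `n ^ 2 = dim A`: `Kbar ⊗ A` is simple
(`base_simple`) and isomorphic to a matrix algebra
(`IsSimpleRing.exists_algEquiv_matrix_of_isAlgClosed`) -/
theorem exists_rep (K : Type) [Field K] (A : Type) [Ring A] [Algebra K A] [Algebra.IsCentral K A]
    [IsSimpleRing A] [FiniteDimensional K A] :
    ∃ (n : ℕ) (_ : A →ₐ[K] Matrix (Fin n) (Fin n) (Kb K)), 0 < n ∧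
      Module.finrank K A = n ^ 2 := by
  have hs : IsSimpleRing (Kb K ⊗[K] A) := base_simple K (Kb K) A
  have : IsArtinianRing (Kb K ⊗[K] A) := IsArtinianRing.of_finite (Kb K) _
  obtain ⟨n, hn, ⟨e⟩⟩ := IsSimpleRing.exists_algEquiv_matrix_of_isAlgClosed (Kb K) (Kb K ⊗[K] A)
  refine ⟨n, ((e : Kb K ⊗[K] A →ₐ[Kb K] _).restrictScalars K).comp
    Algebra.TensorProduct.includeRight, Nat.pos_of_ne_zero hn.out, ?_⟩
  have h1 := e.toLinearEquiv.finrank_eq
  rw [Module.finrank_baseChange, Module.finrank_matrix] at h1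
  rw [h1]
  simp [Fintype.card_fin, pow_two]

end BB37
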