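import Pool.Agent.Lib.MP_bb37eb_nt.BR.ExRep
import Pool.Agent.Lib.MP_bb37eb_nt.BR.ExPhi
import Pool.Agent.Lib.MP_bb37eb_nt.BR.ExCoc

/-! Every central simple algebra has a class. -/

namespace BB37

theorem BR_exists_class (K : Type) [Field K] (A : Type) [Ring A] [Algebra K A]
    [Algebra.IsCentral K A] [IsSimpleRing A] [FiniteDimensional K A] :
    ∃ c : Z2 K, HasClass K A c := by
  obtain ⟨n, ρ, hn, hd⟩ := exists_rep K A
  obtain ⟨Φ, h2, h3, h5⟩ := exists_phi K ρ hn hd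
  obtain ⟨c, h4⟩ := exists_coc K ρ hn hd Φ h2 h3 h5
  exact ⟨c, n, ρ, Φ, hn, hd, h2, h3, h4, h5⟩

end BB37
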