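import Pool.Agent.Lib.MP_bb37eb_nt.Core.HasClass

/-! The fibre of an Azumaya algebra at a field-valued point. -/

namespace BB37

open scoped TensorProduct

/-- The trace ideal of a faithful finite projective module is everything. Proof: a dual basis
(`Module.Projective`: a section `s` of `Finsupp.linearCombination`, or
`Module.Finite.exists_fin` and a section of a surjection `Rⁿ → A`) `x = ∑ φ j x • a j` shows
`A = I A` with `I` the ideal generated by all `φ x`; `A` is finite, so some `r` with `r - 1 ∈ I` kills
`A` (`Submodule.exists_sub_one_mem_and_smul_eq_zero_of_fg_of_le_smul`) and `r = 0` as `A` is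
faithful, so `1 ∈ I`. -/
theorem exists_trace_one (R A : Type) [CommRing R] [AddCommGroup A] [Module R A]
    [Module.Finite R A] [Module.Projective R A] (hf : ∀ r : R, (∀ a : A, r • a = 0) → r = 0) :
    ∃ (n : ℕ) (φ : Fin n → A →ₗ[R] R) (b : Fin n → A), ∑ j, φ j (b j) = 1 := by
  classical
  obtain ⟨n, f, g, -, -, hfg⟩ := Module.Finite.exists_comp_eq_id_of_projective R A
  let φ : Fin n → (A →ₗ[R] R) := fun j => (LinearMap.proj j).comp g
  let a : Fin n → A := fun j => f (Pi.single j 1)
  have hdb : ∀ x : A, x = ∑ j, φ j x • a j := by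
    intro x
    have h1 : f (g x) = x := by
      have := LinearMap.congr_fun hfg x
      simpa using this
    have h2 : g x = ∑ j, (g x j) • (Pi.single j (1 : R) : Fin n → R) := by
      conv_lhs => rw [← Finset.univ_sum_single (g x)]
      refine Finset.sum_congr rfl fun j _ => ?_
      rw [← Pi.single_smul, smul_eq_mul, mul_one]
    conv_lhs => rw [← h1, h2, map_sum]
    refine Finset.sum_congr rfl fun j _ => ?_
    rw [map_smul]
    rfl
  let T : (Fin n → A) →ₗ[R] R := ∑ j, (φ j).comp (LinearMap.proj j)
  have hT : ∀ b, T b = ∑ j, φ j (b j) := by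
    intro b
    simp only [T, LinearMap.sum_apply, LinearMap.comp_apply, LinearMap.proj_apply]
  let I : Ideal R := LinearMap.range T
  have hmem : ∀ j x, φ j x ∈ I := by
    intro j x
    refine ⟨Pi.single j x, ?_⟩
    rw [hT, Finset.sum_eq_single j]
    · rw [Pi.single_eq_same]
    · intro k _ hk
      rw [Pi.single_eq_of_ne hk, map_zero]
    · intro h
      exact absurd (Finset.mem_univ j) h
  have hI : (⊤ : Submodule R A) ≤ I • (⊤ : Submodule R A) := by
    intro x _
    rw [hdb x]
    exact Submodule.sum_mem _ fun j _ => Submodule.smul_mem_smul (hmem j x) trivial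
  obtain ⟨r, hr1, hr2⟩ :=
    Submodule.exists_sub_one_mem_and_smul_eq_zero_of_fg_of_le_smul I ⊤ Module.Finite.fg_top hI
  have hr0 : r = 0 := hf r fun x => hr2 x trivial
  have h1 : (1 : R) ∈ I := by
    have := I.neg_mem hr1
    rw [hr0, zero_sub, neg_neg] at this
    exact this
  obtain ⟨b, hb⟩ := h1
  exact ⟨n, φ, b, by rw [← hT, hb]⟩

/-- Consequently the base change to a field is not zero: `∑ (φ j).baseChange (1 ⊗ b j) = 1`. -/
theorem nontrivial_fibre (R K A : Type) [CommRing R] [Field K] [Algebra R K] [AddCommGroup A]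
    [Module R A] [Module.Finite R A] [Module.Projective R A]
    (hf : ∀ r : R, (∀ a : A, r • a = 0) → r = 0) : Nontrivial (K ⊗[R] A) := by
  obtain ⟨n, φ, b, hb⟩ := exists_trace_one R A hf
  by_contra hne
  rw [not_nontrivial_iff_subsingleton] at hne
  have key : ∀ j, TensorProduct.AlgebraTensorModule.rid R K K
      ((φ j).baseChange K (1 ⊗ₜ[R] b j)) = 0 := by
    intro j
    have e : (1 ⊗ₜ[R] b j : K ⊗[R] A) = 0 := Subsingleton.elim _ _
    rw [e, map_zero, map_zero]
  have h2 : ∑ j, algebraMap R K (φ j (b j)) = 0 := by
    refine Finset.sum_eq_zero fun j _ => ?_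
    have := key j
    rw [LinearMap.baseChange_tmul, TensorProduct.AlgebraTensorModule.rid_tmul,
      Algebra.smul_def, mul_one] at this
    exact this
  rw [← map_sum, hb, map_one] at h2
  exact one_ne_zero h2

private theorem FibreCsa_base (R K A : Type) [CommRing R] [Field K] [Algebra R K] [Ring A]
    [Algebra R A] (t : A ⊗[R] Aᵐᵒᵖ) :
    ∃ u, AlgHom.mulLeftRight K (K ⊗[R] A) u = (AlgHom.mulLeftRight R A t).baseChange K := by
  induction t using TensorProduct.induction_on with
  | zero =>
    refine ⟨0, ?_⟩
    rw [map_zero, map_zero, LinearMap.baseChange_zero]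
  | add x y hx hy =>
    obtain ⟨u, hu⟩ := hx
    obtain ⟨v, hv⟩ := hy
    refine ⟨u + v, ?_⟩
    rw [map_add, map_add, LinearMap.baseChange_add, hu, hv]
  | tmul a b =>
    refine ⟨(1 ⊗ₜ[R] a) ⊗ₜ[K] MulOpposite.op (1 ⊗ₜ[R] b.unop), ?_⟩
    refine LinearMap.ext fun y => ?_
    induction y using TensorProduct.induction_on with
    | zero => rw [map_zero, map_zero]
    | add y z hy hz => rw [map_add, map_add, hy, hz]
    | tmul k x =>
      rw [AlgHom.mulLeftRight_apply, LinearMap.baseChange_tmul, AlgHom.mulLeftRight_apply,
        MulOpposite.unop_op, Algebra.TensorProduct.tmul_mul_tmul,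
        Algebra.TensorProduct.tmul_mul_tmul, one_mul, mul_one]

/-- The sandwich map of the fibre is surjective: with a dual basis `a j`, `φ j` of `A` the
endomorphism `x ↦ φ j x • a k` of `A` is the action of some `t j k ∈ A ⊗ Aᵒᵖ`, so its base change is
the action of the image of `t j k`, and every endomorphism of `K ⊗ A` is a `K`-combination of these
base changes. -/
theorem fibre_sandwich (R K A : Type) [CommRing R] [Field K] [Algebra R K] [Ring A] [Algebra R A]
    [IsAzumaya R A] : Function.Surjective (AlgHom.mulLeftRight K (K ⊗[R] A)) := by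
  classical
  have hbij := (IsAzumaya.bij (R := R) (A := A)).2
  obtain ⟨n, f, g, -, -, hfg⟩ := Module.Finite.exists_comp_eq_id_of_projective R A
  let S : Submodule K (Module.End K (K ⊗[R] A)) :=
    LinearMap.range (AlgHom.mulLeftRight K (K ⊗[R] A)).toLinearMap
  have hS : ∀ F : Module.End R A, (F.baseChange K : Module.End K (K ⊗[R] A)) ∈ S := by
    intro F
    obtain ⟨t, ht⟩ := hbij F
    obtain ⟨u, hu⟩ := FibreCsa_base R K A t
    rw [ht] at hu
    exact ⟨u, hu⟩
  let φ : Fin n → (A →ₗ[R] R) := fun j => (LinearMap.proj j).comp g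
  let b : Fin n → A := fun j => f (Pi.single j 1)
  have hdb : ∀ x : A, x = ∑ j, φ j x • b j := by
    intro x
    have h1 : f (g x) = x := by
      have := LinearMap.congr_fun hfg x
      simpa using this
    have h2 : g x = ∑ j, (g x j) • (Pi.single j (1 : R) : Fin n → R) := by
      conv_lhs => rw [← Finset.univ_sum_single (g x)]
      refine Finset.sum_congr rfl fun j _ => ?_
      rw [← Pi.single_smul, smul_eq_mul, mul_one]
    conv_lhs => rw [← h1, h2, map_sum]
    refine Finset.sum_congr rfl fun j _ => ?_
    rw [map_smul]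
    rfl
  let ψ : (A →ₗ[R] R) → (K ⊗[R] A →ₗ[K] K) := fun χ =>
    (TensorProduct.AlgebraTensorModule.rid R K K).toLinearMap.comp (χ.baseChange K)
  have hψ : ∀ χ k x, ψ χ (k ⊗ₜ x) = χ x • k := by
    intro χ k x
    show TensorProduct.AlgebraTensorModule.rid R K K (χ.baseChange K (k ⊗ₜ x)) = _
    rw [LinearMap.baseChange_tmul, TensorProduct.AlgebraTensorModule.rid_tmul]
  have hE : ∀ χ (y : K ⊗[R] A), ((ψ χ).smulRight y : Module.End K (K ⊗[R] A)) ∈ S := by
    intro χ y
    induction y using TensorProduct.induction_on with
    | zero =>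
      have e : ((ψ χ).smulRight 0 : Module.End K (K ⊗[R] A)) = 0 := by
        refine LinearMap.ext fun z => ?_
        rw [LinearMap.smulRight_apply, smul_zero, LinearMap.zero_apply]
      rw [e]
      exact S.zero_mem
    | add y z hy hz =>
      have e : ((ψ χ).smulRight (y + z) : Module.End K (K ⊗[R] A)) =
          (ψ χ).smulRight y + (ψ χ).smulRight z := by
        refine LinearMap.ext fun w => ?_
        rw [LinearMap.smulRight_apply, smul_add, LinearMap.add_apply, LinearMap.smulRight_apply,
          LinearMap.smulRight_apply]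
      rw [e]
      exact S.add_mem hy hz
    | tmul k c =>
      have e : ((ψ χ).smulRight (k ⊗ₜ c) : Module.End K (K ⊗[R] A)) =
          k • ((χ.smulRight c : Module.End R A).baseChange K) := by
        refine LinearMap.ext fun w => ?_
        induction w using TensorProduct.induction_on with
        | zero => rw [map_zero, map_zero]
        | add y z hy hz => rw [map_add, map_add, hy, hz]
        | tmul l x =>
          rw [LinearMap.smulRight_apply, hψ, LinearMap.smul_apply, LinearMap.baseChange_tmul,
            LinearMap.smulRight_apply, TensorProduct.smul_tmul', TensorProduct.smul_tmul',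
            TensorProduct.tmul_smul, TensorProduct.smul_tmul', smul_eq_mul, smul_eq_mul,
            smul_mul_assoc, mul_comm l k]
      rw [e]
      exact S.smul_mem _ (hS _)
  intro F
  have hF : F = ∑ j, ((ψ (φ j)).smulRight (F (1 ⊗ₜ b j)) : Module.End K (K ⊗[R] A)) := by
    refine LinearMap.ext fun w => ?_
    induction w using TensorProduct.induction_on with
    | zero => rw [map_zero, map_zero]
    | add y z hy hz => rw [map_add, map_add, hy, hz]
    | tmul k x =>
      have e1 : (k ⊗ₜ[R] x : K ⊗[R] A) = ∑ j, (φ j x • k) • ((1 : K) ⊗ₜ[R] b j) := by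
        conv_lhs => rw [hdb x, TensorProduct.tmul_sum]
        refine Finset.sum_congr rfl fun j _ => ?_
        rw [TensorProduct.tmul_smul, TensorProduct.smul_tmul', TensorProduct.smul_tmul',
          smul_eq_mul, mul_one]
      rw [LinearMap.sum_apply]
      conv_lhs => rw [e1, map_sum]
      refine Finset.sum_congr rfl fun j _ => ?_
      rw [map_smul, LinearMap.smulRight_apply, hψ]
  have : F ∈ S := by
    rw [hF]
    exact S.sum_mem fun j _ => hE _ _
  obtain ⟨u, hu⟩ := this
  exact ⟨u, hu⟩

/-- Over a field the surjectivity of the sandwich map implies central simple. Simple: an element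
`x ≠ 0` of a two-sided ideal is carried to any `y` by an endomorphism, and endomorphisms are given
by sandwiches `∑ a_j x b_j`, so `y` is in the ideal. Central: for `z` central and `f` an
endomorphism, `f z = (f 1) z`; for `f` a projection onto the line of `1` (`f 1 = 1`) this shows that
`z` is a multiple of `1`. -/
theorem csa_of_sandwich (K B : Type) [Field K] [Ring B] [Algebra K B] [Nontrivial B]
    (h : Function.Surjective (AlgHom.mulLeftRight K B)) :
    Algebra.IsCentral K B ∧ IsSimpleRing B := by
  classical
  have h1 : (1 : B) ≠ 0 := one_ne_zero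
  constructor
  · refine ⟨fun z hz => ?_⟩
    rw [Subalgebra.mem_center_iff] at hz
    have key : ∀ t : B ⊗[K] Bᵐᵒᵖ,
        AlgHom.mulLeftRight K B t z = AlgHom.mulLeftRight K B t 1 * z := by
      intro t
      induction t using TensorProduct.induction_on with
      | zero => rw [map_zero, LinearMap.zero_apply, LinearMap.zero_apply, zero_mul]
      | add x y hx hy =>
        rw [map_add, LinearMap.add_apply, LinearMap.add_apply, hx, hy, add_mul]
      | tmul a b =>
        rw [AlgHom.mulLeftRight_apply, AlgHom.mulLeftRight_apply, mul_one, mul_assoc, mul_assoc,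
          hz b.unop]
    have hinj : LinearMap.ker (LinearMap.toSpanSingleton K B 1) = ⊥ :=
      LinearMap.ker_toSpanSingleton K h1
    obtain ⟨g, hg⟩ := LinearMap.exists_leftInverse_of_injective _ hinj
    have hg1 : g 1 = 1 := by
      have := LinearMap.congr_fun hg 1
      simpa [LinearMap.toSpanSingleton_apply] using this
    obtain ⟨t, ht⟩ := h (g.smulRight (1 : B))
    have e := key t
    rw [ht, LinearMap.smulRight_apply, LinearMap.smulRight_apply, hg1, one_smul, one_mul] at e
    rw [Algebra.mem_bot]
    exact ⟨g z, by rw [Algebra.algebraMap_eq_smul_one]; exact e⟩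
  · refine IsSimpleRing.of_eq_bot_or_eq_top fun I => ?_
    by_cases hI : I = ⊥
    · exact Or.inl hI
    · right
      have hx : ∃ x ∈ I, x ≠ 0 := by
        by_contra hcon
        push Not at hcon
        apply hI
        refine eq_bot_iff.2 fun x hx => ?_
        rw [TwoSidedIdeal.mem_bot]
        exact hcon x hx
      obtain ⟨x, hxI, hx0⟩ := hx
      rw [← TwoSidedIdeal.one_mem_iff]
      have hinj : LinearMap.ker (LinearMap.toSpanSingleton K B x) = ⊥ :=
        LinearMap.ker_toSpanSingleton K hx0
      obtain ⟨g, hg⟩ := LinearMap.exists_leftInverse_of_injective _ hinj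
      have hg1 : g x = 1 := by
        have := LinearMap.congr_fun hg 1
        simpa [LinearMap.toSpanSingleton_apply] using this
      obtain ⟨t, ht⟩ := h (g.smulRight (1 : B))
      have key : ∀ t : B ⊗[K] Bᵐᵒᵖ, AlgHom.mulLeftRight K B t x ∈ I := by
        intro t
        induction t using TensorProduct.induction_on with
        | zero =>
          rw [map_zero, LinearMap.zero_apply]
          exact I.zero_mem
        | add y z hy hz =>
          rw [map_add, LinearMap.add_apply]
          exact I.add_mem hy hz
        | tmul a b =>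
          rw [AlgHom.mulLeftRight_apply]
          exact I.mul_mem_right _ _ (I.mul_mem_left _ _ hxI)
      have e := key t
      rw [ht, LinearMap.smulRight_apply, hg1, one_smul] at e
      exact e

theorem BR_fibre_csa (K : Type) [Field K] (R : Type) [CommRing R] [Algebra R K] (A : Type)
    [Ring A] [Algebra R A] [IsAzumaya R A] : Algebra.IsCentral K (K ⊗[R] A) ∧
      IsSimpleRing (K ⊗[R] A) ∧ FiniteDimensional K (K ⊗[R] A) := by
  have hn : Nontrivial (K ⊗[R] A) := by
    apply nontrivial_fibre R K A
    intro r hr
    have e : algebraMap R A r = algebraMap R A 0 := by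
      rw [map_zero, Algebra.algebraMap_eq_smul_one]
      exact hr 1
    exact FaithfulSMul.algebraMap_injective R A e
  obtain ⟨h1, h2⟩ := csa_of_sandwich K (K ⊗[R] A) (fibre_sandwich R K A)
  exact ⟨h1, h2, inferInstance⟩

/-- transitivity of fibres -/
noncomputable def fibreTrans (R K K' A : Type) [CommRing R] [Field K] [Field K'] [Algebra R K]
    [Algebra K K'] [Algebra R K'] [IsScalarTower R K K'] [Ring A] [Algebra R A] :
    K' ⊗[K] (K ⊗[R] A) ≃ₐ[K'] K' ⊗[R] A :=
  AlgEquiv.symm <| AlgEquiv.ofLinearEquiv
    (TensorProduct.AlgebraTensorModule.cancelBaseChange R K K' K' A).symm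
    (by simp [Algebra.TensorProduct.one_def]) <|
      LinearMap.map_mul_of_map_mul_tmul (fun _ _ _ _ => by simp)

theorem fibre_trans (R K K' A : Type) [CommRing R] [Field K] [Field K'] [Algebra R K]
    [Algebra K K'] [Algebra R K'] [IsScalarTower R K K'] [Ring A] [Algebra R A] :
    Nonempty (K' ⊗[K] (K ⊗[R] A) ≃ₐ[K'] K' ⊗[R] A) :=
  ⟨fibreTrans R K K' A⟩

end BB37
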