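import Pool.Agent.Lib.MP_bb37eb_nt.BR.Galois
import Pool.Agent.Lib.MP_bb37eb_nt.BR.Coords
import Pool.Agent.Lib.MP_bb37eb_nt.BR.FibreCsa
import Pool.Agent.Lib.MP_bb37eb_nt.BR.MatLem

/-! Every smooth cocycle is the class of a central simple algebra. -/

namespace BB37

open scoped TensorProduct

/-- equality of restrictions to a finite normal subextension is agreement -/
private theorem ExistsCsa_agree {K : Type} [Field K] (M : IntermediateField K (Kb K)) [Normal K M]
    {g h : GK K} (e : AlgEquiv.restrictNormalHom (F := K) (K₁ := Kb K) M g =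
      AlgEquiv.restrictNormalHom (F := K) (K₁ := Kb K) M h) : Agree K M g h := by
  intro x hx
  have e0 := congrArg (fun t : M ≃ₐ[K] M => ((t ⟨x, hx⟩ : M) : Kb K)) e
  have e1 := AlgEquiv.restrictNormal_commutes g M ⟨x, hx⟩
  have e2 := AlgEquiv.restrictNormal_commutes h M ⟨x, hx⟩
  exact e1.symm.trans (e0.trans e2)

/-- A smooth cocycle comes from a finite Galois extension: `M` finite normal such that `c` factors
through `M` and has values in `M` (the range of `c` is finite: factor through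
`AlgEquiv.restrictNormalHom` in both variables, as in `Smooth1.finite_range`, `Smooth1.values`). -/
theorem Z2_values (K : Type) [Field K] (c : Z2 K) :
    ∃ M : IntermediateField K (Kb K), FiniteDimensional K M ∧ Normal K M ∧
      (∀ g g' h h', Agree K M g g' → Agree K M h h' → c.1 (g, h) = c.1 (g', h')) ∧
      ∀ g h, (c.1 (g, h) : Kb K) ∈ M := by
  obtain ⟨M, hM, hN, h1⟩ := Smooth2.normal c.2.1
  classical
  let r : GK K →* (M ≃ₐ[K] M) := AlgEquiv.restrictNormalHom M
  let rr : GK K × GK K → (M ≃ₐ[K] M) × (M ≃ₐ[K] M) := fun p => (r p.1, r p.2)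
  have hfin : Finite (M ≃ₐ[K] M) := inferInstance
  have key : ∀ p q, rr p = rr q → c.1 p = c.1 q := by
    intro p q hpq
    exact h1 p.1 q.1 p.2 q.2 (ExistsCsa_agree M (congrArg Prod.fst hpq))
      (ExistsCsa_agree M (congrArg Prod.snd hpq))
  have hr : (Set.range c.1).Finite := by
    have : Set.range c.1 ⊆ Set.range (fun t : Set.range rr => c.1 t.2.choose) := by
      rintro _ ⟨g, rfl⟩
      refine ⟨⟨rr g, g, rfl⟩, ?_⟩
      apply key
      exact (⟨rr g, g, rfl⟩ : Set.range rr).2.choose_spec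
    exact (Set.finite_range _).subset this
  obtain ⟨M1, hM1, h2⟩ := exists_finite_sub (K := K)
    ((fun u : (Kb K)ˣ => (u : Kb K)) '' Set.range c.1) (hr.image _)
  obtain ⟨M', h3, h4, h5⟩ := exists_normal K (M ⊔ M1)
  refine ⟨M', h4, h5, fun g g' h h' hg hh => h1 g g' h h'
    (fun x hx => hg x (h3 (le_sup_left (a := M) hx)))
    fun x hx => hh x (h3 (le_sup_left (a := M) hx)), ?_⟩
  intro g h
  exact h3 (le_sup_right (a := M) (h2 ⟨c.1 (g, h), ⟨(g, h), rfl⟩, rfl⟩))

/-- Apply `BR_galois` with `R = K`, `S = M`, `Γ = M ≃ₐ[K] M` (`M` from `Z2_values`, Galois over `K`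
because the characteristic is zero, coordinates from `field_coords`), the cocycle `c` descended to
`Γ` and the field `K` itself, `s` the inclusion, `γ = AlgEquiv.restrictNormalHom`. The algebra is
`K ⊗[K] A`, central simple by `BR_fibre_csa`. -/
theorem BR_exists_csa (K : Type) [Field K] [CharZero K] (c : Z2 K) :
    ∃ A : CSA.{0, 0} K, HasClass K A c := by
  classical
  obtain ⟨M, hM, hN, h1, h2⟩ := Z2_values K c
  have : IsGalois K M := { __ := hN }
  let r : GK K →* (M ≃ₐ[K] M) := AlgEquiv.restrictNormalHom M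
  have hsurj : Function.Surjective r := AlgEquiv.restrictNormalHom_surjective (Kb K)
  choose σ hσ using hsurj
  have hne : ∀ g h, (c.1 (g, h) : Kb K) ≠ 0 := fun g h => (c.1 (g, h)).ne_zero
  let c0 : (M ≃ₐ[K] M) → (M ≃ₐ[K] M) → (M)ˣ := fun a b =>
    Units.mk0 ⟨(c.1 (σ a, σ b) : Kb K), h2 _ _⟩ fun e => hne (σ a) (σ b) (congrArg Subtype.val e)
  have hc0 : ∀ a b, ((c0 a b : M) : Kb K) = c.1 (σ a, σ b) := fun a b => rfl
  have hc1 : ∀ g h, ((c0 (r g) (r h) : M) : Kb K) = c.1 (g, h) := by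
    intro g h
    rw [hc0]
    exact congrArg Units.val (h1 _ _ _ _ (ExistsCsa_agree M (hσ (r g)))
      (ExistsCsa_agree M (hσ (r h))))
  have hact : ∀ (g : GK K) (x : M), g (x : Kb K) = ((r g x : M) : Kb K) := fun g x =>
    (AlgEquiv.restrictNormal_commutes g M x).symm
  have hcoc : ∀ a b d : M ≃ₐ[K] M,
      (c0 (a * b) d : M) * c0 a b = a • (c0 b d : M) * c0 a (b * d) := by
    intro a b d
    obtain ⟨g, rfl⟩ : ∃ g, r g = a := ⟨σ a, hσ a⟩
    obtain ⟨h, rfl⟩ : ∃ h, r h = b := ⟨σ b, hσ b⟩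
    obtain ⟨j, rfl⟩ : ∃ j, r j = d := ⟨σ d, hσ d⟩
    apply Subtype.ext
    have e := congrArg Units.val (c.2.2 g h j)
    rw [Units.val_mul, Units.val_mul, AlgEquiv.smul_units_def] at e
    have e' : (c.1 (g * h, j) : Kb K) * c.1 (g, h) = g (c.1 (h, j) : Kb K) * c.1 (g, h * j) := e
    rw [← hc1, ← hc1, ← hc1, ← hc1, map_mul, map_mul, hact] at e'
    exact e'
  obtain ⟨A, iR, iA, hAz, hcl⟩ := BR_galois K M (M ≃ₐ[K] M)
    (algebraMap K M).injective
    (fun s hs => by
      have := (IsGalois.mem_range_algebraMap_iff_fixed (F := K) (E := M) s).2 hs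
      exact this)
    (field_coords K M) c0 hcoc
  have hcls : HasClass K (K ⊗[K] A) c := by
    refine hcl K (algebraMap M (Kb K)) (fun x => rfl) r (fun g x => hact g x) c
      (fun g h => (hc1 g h).symm)
  obtain ⟨f1, f2, f3⟩ := BR_fibre_csa K K A
  exact ⟨{ __ := AlgCat.of K (K ⊗[K] A), isCentral := f1, isSimple := f2, fin_dim := f3 }, hcls⟩

end BB37
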