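import Pool.Agent.Lib.MP_bb37eb_nt.BR.Rep
import Pool.Agent.Lib.MP_bb37eb_nt.BR.MatLem

/-! The algebra is recovered from its semilinear structure. -/

namespace BB37

private theorem FixedRange_map_sum {K : Type} [Field K] {n : ℕ} {ι : Type} (s : Finset ι)
    (g : GK K) (t : ι → Kb K) (x : ι → Matrix (Fin n) (Fin n) (Kb K)) :
    (∑ i ∈ s, t i • x i).map g = ∑ i ∈ s, g (t i) • (x i).map g := by
  ext i j
  simp [Matrix.sum_apply, Matrix.map_apply]

/-- Write `y = ∑ t i • ρ (a i)` with a basis `a` of `A` (`rep_span`). Then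
`Φ g * y.map g = ∑ g (t i) • (ρ (a i) * Φ g)`, so the uniqueness in `rep_span` (after cancelling
`Φ g`) gives `g (t i) = t i` for all `g`, hence `t i` is rational (`gal_fixed`). -/
theorem fixed_range (K : Type) [Field K] [CharZero K] {A : Type} [Ring A] [Algebra K A]
    [Algebra.IsCentral K A] [IsSimpleRing A] [FiniteDimensional K A] {n : ℕ}
    (ρ : A →ₐ[K] Matrix (Fin n) (Fin n) (Kb K)) (hn : 0 < n) (hd : Module.finrank K A = n ^ 2)
    (Φ : GK K → Matrix (Fin n) (Fin n) (Kb K)) (h3 : ∀ g, IsUnit (Φ g))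
    (h5 : ∀ g a, Φ g * (ρ a).map g = ρ a * Φ g) (y : Matrix (Fin n) (Fin n) (Kb K))
    (hy : ∀ g, Φ g * y.map g = y * Φ g) : ∃ a, ρ a = y := by
  classical
  let a := Module.finBasis K A
  obtain ⟨t, ht, hu⟩ := rep_span ρ hn hd a y
  have key : ∀ g : GK K, (fun i => g (t i)) = t := by
    intro g
    apply hu
    have e1 : Φ g * y.map g = (∑ i, g (t i) • ρ (a i)) * Φ g := by
      have : y.map g = ∑ i, g (t i) • (ρ (a i)).map g := by
        conv_lhs => rw [ht]
        exact FixedRange_map_sum _ g t fun i => ρ (a i)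
      rw [this, Finset.mul_sum, Finset.sum_mul]
      refine Finset.sum_congr rfl fun i _ => ?_
      rw [Matrix.mul_smul, h5, Matrix.smul_mul]
    rw [hy] at e1
    exact (h3 g).mul_left_injective e1
  have hs : ∀ i, ∃ s : K, t i = algebraMap K (Kb K) s := fun i =>
    gal_fixed K (t i) fun g => congrFun (key g) i
  choose s hs using hs
  refine ⟨∑ i, s i • a i, ?_⟩
  rw [map_sum, ht]
  refine Finset.sum_congr rfl fun i _ => ?_
  rw [map_smul, hs i, algebraMap_smul]

end BB37
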