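import Pool.Agent.Lib.MP_bb37eb_nt.Core.HasClass

/-! Elementary constructions for `HasClass`. -/

namespace BB37

section

variable (K : Type) [Field K] {A : Type} [Ring A] [Algebra K A]

/-- the data may be indexed by any nonempty finite type: reindex by `Fintype.equivFin`
(`Matrix.reindexAlgEquiv`) -/
theorem hasClass_of (ι : Type) [Fintype ι] [DecidableEq ι] [Nonempty ι]
    (ρ : A →ₐ[K] Matrix ι ι (Kb K)) (Φ : GK K → Matrix ι ι (Kb K)) (c : Z2 K)
    (h1 : Module.finrank K A = Fintype.card ι ^ 2) (h2 : Smooth1 K Φ) (h3 : ∀ g, IsUnit (Φ g))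
    (h4 : ∀ g h, Φ g * (Φ h).map g = (c.1 (g, h) : Kb K) • Φ (g * h))
    (h5 : ∀ g a, Φ g * (ρ a).map g = ρ a * Φ g) : HasClass K A c := by
  let e : ι ≃ Fin (Fintype.card ι) := Fintype.equivFin ι
  let E : Matrix ι ι (Kb K) ≃ₐ[K] Matrix (Fin (Fintype.card ι)) (Fin (Fintype.card ι)) (Kb K) :=
    Matrix.reindexAlgEquiv K (Kb K) e
  have hmap : ∀ (M : Matrix ι ι (Kb K)) (g : GK K), (E M).map g = E (M.map g) := by
    intro M g
    rfl
  have hsmul : ∀ (x : Kb K) (M : Matrix ι ι (Kb K)), E (x • M) = x • E M := by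
    intro x M
    rfl
  refine ⟨Fintype.card ι, (E : _ →ₐ[K] _).comp ρ, fun g => E (Φ g), Fintype.card_pos, h1, ?_, ?_,
    ?_, ?_⟩
  · obtain ⟨M, hM, h⟩ := h2
    exact ⟨M, hM, fun g h' hg => congrArg E (h g h' hg)⟩
  · intro g
    exact (h3 g).map E
  · intro g h
    rw [hmap, ← map_mul, h4, hsmul]
  · intro g a
    change E (Φ g) * (E (ρ a)).map g = E (ρ a) * E (Φ g)
    rw [hmap, ← map_mul, h5, map_mul]

/-- isomorphic algebras have the same classes (compose `ρ` with the inverse) -/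
theorem HasClass.of_algEquiv {B : Type} [Ring B] [Algebra K B] (e : A ≃ₐ[K] B) {c : Z2 K}
    (h : HasClass K A c) : HasClass K B c := by
  obtain ⟨n, ρ, Φ, hn, h1, h2, h3, h4, h5⟩ := h
  refine ⟨n, ρ.comp (e.symm : B →ₐ[K] A), Φ, hn, ?_, h2, h3, h4, fun g b => h5 g (e.symm b)⟩
  rw [← h1]
  exact e.toLinearEquiv.finrank_eq.symm

/-- the class of the base field is trivial (`n = 1`, `Φ = 1`) -/
theorem hasClass_self : HasClass K K 1 := by
  refine ⟨1, Algebra.ofId K _, fun _ => 1, one_pos, by simp, ⟨⊥, inferInstance, fun _ _ _ => rfl⟩,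
    fun _ => isUnit_one, ?_, ?_⟩
  · intro g h
    rw [Matrix.map_one _ (map_zero g) (map_one g)]
    simp
  · intro g a
    rw [one_mul, mul_one, Algebra.ofId_apply, Matrix.algebraMap_eq_diagonal]
    rw [Matrix.diagonal_map (map_zero g)]
    congr 1
    funext i
    simp

/-- the class of a matrix algebra over `A` (`Matrix.compAlgEquiv` and block diagonal `Φ`, use
`hasClass_of` with `ι = Fin m × Fin n` and `ρ' M (i,k) (j,l) = ρ (M i j) k l`,
`Φ' g (i,k) (j,l) = if i = j then Φ g k l else 0`) -/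
theorem HasClass.matrix {m : ℕ} (hm : 0 < m) {c : Z2 K} (h : HasClass K A c) :
    HasClass K (Matrix (Fin m) (Fin m) A) c := by
  obtain ⟨n, ρ, Φ, hn, h1, h2, h3, h4, h5⟩ := h
  have : Nonempty (Fin m × Fin n) := ⟨⟨0, hm⟩, ⟨0, hn⟩⟩
  let C : Matrix (Fin m) (Fin m) (Matrix (Fin n) (Fin n) (Kb K)) ≃ₐ[K]
      Matrix (Fin m × Fin n) (Fin m × Fin n) (Kb K) :=
    Matrix.compAlgEquiv (Fin m) (Fin n) (Kb K) K
  let S : Matrix (Fin n) (Fin n) (Kb K) → Matrix (Fin m × Fin n) (Fin m × Fin n) (Kb K) :=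
    fun X => C (Matrix.diagonal fun _ => X)
  have Smul : ∀ X Y, S X * S Y = S (X * Y) := by
    intro X Y
    simp only [S]
    rw [← map_mul, Matrix.diagonal_mul_diagonal]
  have Smap : ∀ (X : Matrix (Fin n) (Fin n) (Kb K)) (g : GK K), (S X).map g = S (X.map g) := by
    intro X g
    simp only [S, C, Matrix.compAlgEquiv_apply]
    rw [← Matrix.comp_map_map]
    congr 1
    refine Matrix.diagonal_map ?_
    ext i j
    exact map_zero g
  have Ssmul : ∀ (x : Kb K) (X : Matrix (Fin n) (Fin n) (Kb K)), S (x • X) = x • S X := by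
    intro x X
    ext ⟨i, k⟩ ⟨j, l⟩
    simp only [S, C, Matrix.compAlgEquiv_apply, Matrix.comp_apply, Matrix.smul_apply,
      Matrix.diagonal_apply]
    split_ifs <;> simp
  refine hasClass_of K (Fin m × Fin n) ((C : _ →ₐ[K] _).comp ρ.mapMatrix) (fun g => S (Φ g)) c
    ?_ ?_ ?_ ?_ ?_
  · rw [Module.finrank_matrix, h1]
    simp only [Fintype.card_fin, Fintype.card_prod]
    ring
  · obtain ⟨M, hM, h⟩ := h2
    exact ⟨M, hM, fun g h' hg => congrArg S (h g h' hg)⟩
  · intro g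
    have hu := h3 g
    refine IsUnit.map C ?_
    obtain ⟨u, hu⟩ := hu
    refine ⟨⟨Matrix.diagonal fun _ => (u : Matrix (Fin n) (Fin n) (Kb K)),
      Matrix.diagonal fun _ => ((u⁻¹ : _ˣ) : Matrix (Fin n) (Fin n) (Kb K)), ?_, ?_⟩, ?_⟩
    · rw [Matrix.diagonal_mul_diagonal]
      simp
    · rw [Matrix.diagonal_mul_diagonal]
      simp
    · simp [hu]
  · intro g h
    rw [Smap, Smul, h4, Ssmul]
  · intro g M
    change C (Matrix.diagonal fun _ => Φ g) * C ((ρ.mapMatrix M).map fun X => X.map g) =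
      C (ρ.mapMatrix M) * C (Matrix.diagonal fun _ => Φ g)
    rw [← map_mul, ← map_mul]
    congr 1
    ext1 i j
    rw [Matrix.diagonal_mul, Matrix.mul_diagonal]
    exact h5 g (M i j)

/-- a cocycle cohomologous to a class of `A` is a class of `A`: multiply `Φ g` by the scalar `u g`
(`d = c * ∂ u`) -/
theorem HasClass.of_cls {c d : Z2 K} (h : HasClass K A c) (e : cls c = cls d) :
    HasClass K A d := by
  obtain ⟨n, ρ, Φ, hn, h1, h2, h3, h4, h5⟩ := h
  obtain ⟨u, hu, hcd⟩ := cls_eq_cls.1 e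
  refine ⟨n, ρ, fun g => ((u g)⁻¹ : (Kb K)ˣ).1 • Φ g, hn, h1, ?_, ?_, ?_, ?_⟩
  · obtain ⟨M, hM, h⟩ := h2
    obtain ⟨M', hM', h'⟩ := hu
    refine ⟨M ⊔ M', inferInstance, ?_⟩
    intro g g' hg
    have e1 := h g g' (fun x hx => hg x (le_sup_left (a := M) hx))
    have e2 := h' g g' (fun x hx => hg x (le_sup_right (a := M) hx))
    simp only [e1, e2]
  · intro g
    change IsUnit ((u g)⁻¹ • Φ g)
    exact (isUnit_smul_iff _ _).2 (h3 g)
  · intro g h
    have e1 : ((((u h)⁻¹ : (Kb K)ˣ).1 • Φ h).map g) = ((g • (u h)⁻¹ : (Kb K)ˣ)).1 • (Φ h).map g := by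
      ext i j
      simp only [Matrix.map_apply, Matrix.smul_apply, smul_eq_mul, map_mul]
      rw [AlgEquiv.smul_units_def]
      rfl
    have e2 : ((u g)⁻¹ * (g • (u h)⁻¹) * c.1 (g, h) : (Kb K)ˣ) = d.1 (g, h) * (u (g * h))⁻¹ := by
      have h6 := hcd g h
      simp only [Pi.div_apply] at h6
      have h7 : c.1 (g, h) = d.1 (g, h) * (g • u h * u g / u (g * h)) := by
        rw [← h6, mul_div_cancel]
      rw [h7, smul_inv', div_eq_mul_inv]
      generalize g • u h = a1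
      generalize u g = a2
      generalize (u (g * h))⁻¹ = a3
      generalize d.1 (g, h) = a4
      calc a2⁻¹ * a1⁻¹ * (a4 * (a1 * a2 * a3)) = a4 * a3 * (a1⁻¹ * a1) * (a2⁻¹ * a2) := by ac_rfl
        _ = a4 * a3 := by simp
    rw [e1, smul_mul_smul_comm, h4, smul_smul, smul_smul, ← Units.val_mul, ← Units.val_mul,
      ← Units.val_mul, e2]
  · intro g a
    rw [smul_mul_assoc, h5, mul_smul_comm]

/-- the opposite algebra has the inverse class: `ρ' (op a) = (ρ a)ᵀ`,
`Φ' g = ((Φ g)ᵀ)⁻¹` -/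
theorem HasClass.mop {c : Z2 K} (h : HasClass K A c) : HasClass K Aᵐᵒᵖ c⁻¹ := by
  obtain ⟨n, ρ, Φ, hn, h1, h2, h3, h4, h5⟩ := h
  have hdet : ∀ g, IsUnit (Φ g).transpose.det := by
    intro g
    rw [Matrix.det_transpose]
    exact (Matrix.isUnit_iff_isUnit_det _).1 (h3 g)
  refine ⟨n, ((Matrix.transposeAlgEquiv (Fin n) K (Kb K)).symm : _ →ₐ[K] _).comp (AlgHom.op ρ),
    fun g => ((Φ g).transpose)⁻¹, hn, ?_, ?_, ?_, ?_, ?_⟩
  · rw [← h1]
    exact (MulOpposite.opLinearEquiv K).finrank_eq.symm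
  · obtain ⟨M, hM, h⟩ := h2
    exact ⟨M, hM, fun g h' hg => by simp only [h g h' hg]⟩
  · intro g
    rw [Matrix.isUnit_nonsing_inv_iff, Matrix.isUnit_iff_isUnit_det]
    exact hdet g
  · intro g h
    have e0 : ∀ X : Matrix (Fin n) (Fin n) (Kb K), IsUnit X.det →
        (X⁻¹).map g = (X.map g)⁻¹ := by
      intro X hX
      refine (Matrix.inv_eq_left_inv ?_).symm
      have h6 : (X⁻¹ * X).map g = X⁻¹.map g * X.map g := Matrix.map_mul (f := (g : Kb K →+* Kb K))
      rw [← h6, Matrix.nonsing_inv_mul X hX]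
      exact Matrix.map_one _ (map_zero g) (map_one g)
    have e1 := congrArg Matrix.transpose (h4 g h)
    rw [Matrix.transpose_mul, Matrix.transpose_smul] at e1
    have e2 : ((c⁻¹ : Z2 K).1 (g, h) : Kb K) • ((Φ (g * h)).transpose)⁻¹ =
        (c.1 (g, h))⁻¹ • ((Φ (g * h)).transpose)⁻¹ := rfl
    rw [e0 _ (hdet h), ← Matrix.mul_inv_rev, Matrix.transpose_map, e1, e2]
    exact Matrix.inv_smul' _ (c.1 (g, h)) (hdet (g * h))
  · intro g a
    have e1 := congrArg Matrix.transpose (h5 g a.unop)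
    rw [Matrix.transpose_mul, Matrix.transpose_mul] at e1
    have e2 : (((Matrix.transposeAlgEquiv (Fin n) K (Kb K)).symm : _ →ₐ[K] _).comp (AlgHom.op ρ)) a
      = (ρ a.unop).transpose := rfl
    rw [e2, Matrix.transpose_map]
    calc ((Φ g).transpose)⁻¹ * ((ρ a.unop).map g).transpose
        = ((Φ g).transpose)⁻¹ * (((ρ a.unop).map g).transpose * (Φ g).transpose) *
            ((Φ g).transpose)⁻¹ := by
          rw [mul_assoc, mul_assoc, Matrix.mul_nonsing_inv _ (hdet g), mul_one]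
      _ = (ρ a.unop).transpose * ((Φ g).transpose)⁻¹ := by
          rw [e1, ← mul_assoc, Matrix.nonsing_inv_mul _ (hdet g), one_mul]

end

end BB37
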