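import Pool.Agent.Lib.MP_bb37eb_nt.BR.PairInv
import Pool.Agent.Lib.MP_bb37eb_nt.BR.FixedRange
import Pool.Agent.Lib.MP_bb37eb_nt.BR.HasOf

/-! Algebras of the same dimension and the same class are isomorphic. -/

namespace BB37

/-- By `HasClass.of_cls` one may assume `c = d`. The degrees agree. `pair_invertible` gives `x` with
`Φ g * x.map g = x * Ψ g`. Then for `b : B` the matrix `x * σ b * x⁻¹` is fixed in the sense of
`fixed_range` for `(ρ, Φ)`, so it is `ρ a` for a unique `a` (`ρ` is injective as `A` is simple); this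
defines an injective algebra homomorphism from `B` to `A`, bijective by dimension. -/
theorem HasClass.iso (K : Type) [Field K] [CharZero K] {A B : Type} [Ring A] [Algebra K A]
    [Algebra.IsCentral K A] [IsSimpleRing A] [FiniteDimensional K A] [Ring B] [Algebra K B]
    [Algebra.IsCentral K B] [IsSimpleRing B] [FiniteDimensional K B] {c d : Z2 K}
    (hA : HasClass K A c) (hB : HasClass K B d) (e : cls c = cls d)
    (hdim : Module.finrank K A = Module.finrank K B) : Nonempty (A ≃ₐ[K] B) := by
  obtain ⟨n, ρ, Φ, hn, h1, h2, h3, h4, h5⟩ := hA.of_cls K e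
  obtain ⟨m, σ, Ψ, hm, k1, k2, k3, k4, k5⟩ := hB
  have hnm : n = m := by
    have h : n ^ 2 = m ^ 2 := by rw [← h1, ← k1, hdim]
    exact Nat.pow_left_injective (n := 2) (by norm_num) h
  subst hnm
  obtain ⟨x, hx, hxg⟩ := pair_invertible K d Φ Ψ h2 k2 h3 k3 h4 k4
  obtain ⟨u, rfl⟩ := hx
  have hne : Nonempty (Fin n) := ⟨⟨0, hn⟩⟩
  -- the conjugated representation of `B`
  have hmul : ∀ X Y : Matrix (Fin n) (Fin n) (Kb K), ∀ g : GK K,
      (X * Y).map g = X.map g * Y.map g := fun X Y g =>
    Matrix.map_mul (f := (g : Kb K →+* Kb K))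
  have hone : ∀ g : GK K, (1 : Matrix (Fin n) (Fin n) (Kb K)).map g = 1 := fun g =>
    Matrix.map_one _ (map_zero g) (map_one g)
  have hinv : ∀ g : GK K, Ψ g * (u⁻¹.1).map g = u⁻¹.1 * Φ g := by
    intro g
    have e1 : (u.1).map g * (u⁻¹.1).map g = 1 := by
      rw [← hmul, Units.mul_inv, hone]
    calc Ψ g * (u⁻¹.1).map g = u⁻¹.1 * (u.1 * Ψ g) * (u⁻¹.1).map g := by
          rw [← mul_assoc u⁻¹.1, Units.inv_mul, one_mul]
      _ = u⁻¹.1 * (Φ g * ((u.1).map g * (u⁻¹.1).map g)) := by
          rw [← hxg]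
          simp only [mul_assoc]
      _ = u⁻¹.1 * Φ g := by rw [e1, mul_one]
  have hfix : ∀ b : B, ∃ a, ρ a = u.1 * σ b * u⁻¹.1 := by
    intro b
    refine fixed_range K ρ hn h1 Φ h3 h5 _ fun g => ?_
    calc Φ g * (u.1 * σ b * u⁻¹.1).map g
        = (Φ g * (u.1).map g) * ((σ b).map g * (u⁻¹.1).map g) := by
          rw [hmul, hmul]
          simp only [mul_assoc]
      _ = u.1 * (Ψ g * (σ b).map g) * (u⁻¹.1).map g := by
          rw [hxg]
          simp only [mul_assoc]
      _ = u.1 * σ b * (Ψ g * (u⁻¹.1).map g) := by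
          rw [k5]
          simp only [mul_assoc]
      _ = u.1 * σ b * u⁻¹.1 * Φ g := by
          rw [hinv]
          simp only [mul_assoc]
  have hρ : Function.Injective ρ := RingHom.injective ρ.toRingHom
  choose f hf using hfix
  let F : B →ₐ[K] A := AlgHom.ofLinearMap
    { toFun := f
      map_add' := fun a b => hρ (by rw [map_add, hf, hf, hf, map_add, mul_add, add_mul])
      map_smul' := fun t b => hρ (by
        rw [RingHom.id_apply, map_smul, hf, hf, map_smul, mul_smul_comm, smul_mul_assoc]) }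
    (hρ (by
      change ρ (f 1) = ρ 1
      rw [hf, map_one, map_one, mul_one, Units.mul_inv]))
    (fun a b => hρ (by
      change ρ (f (a * b)) = ρ (f a * f b)
      rw [map_mul, hf, hf, hf, map_mul]
      simp only [mul_assoc]
      rw [← mul_assoc u⁻¹.1 u.1, Units.inv_mul, one_mul]))
  have hB0 : Nontrivial B := inferInstance
  have hA0 : Nontrivial A := inferInstance
  have hF : Function.Injective F := RingHom.injective F.toRingHom
  have hF' : Function.Bijective F := ⟨hF,
    (LinearMap.injective_iff_surjective_of_finrank_eq_finrank (f := F.toLinearMap) hdim.symm).1 hF⟩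
  exact ⟨(AlgEquiv.ofBijective F hF').symm⟩

end BB37
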