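import Pool.Agent.Lib.MP_bb37eb_nt.BR.Rep
import Pool.Agent.Lib.MP_bb37eb_nt.BR.MatLem

/-! Uniqueness of the class. -/

namespace BB37

private lemma unique_smul_inj {L : Type} [Field L] {n : ℕ} (hn : 0 < n)
    {x : Matrix (Fin n) (Fin n) L} (hx : IsUnit x) {s t : L} (h : s • x = t • x) : s = t := by
  have hne : Nonempty (Fin n) := ⟨⟨0, hn⟩⟩
  exact smul_left_injective L hx.ne_zero h

/-- the comparison scalar -/
private lemma unique_scalar (K : Type) [Field K] {A : Type} [Ring A] [Algebra K A]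
    [Algebra.IsCentral K A] [IsSimpleRing A] [FiniteDimensional K A] {n : ℕ} (hn : 0 < n)
    (hd : Module.finrank K A = n ^ 2) (ρ ρ' : A →ₐ[K] Matrix (Fin n) (Fin n) (Kb K))
    (u : Matrix (Fin n) (Fin n) (Kb K)) (hu : IsUnit u) (huρ : ∀ a, u * ρ a = ρ' a * u)
    (g : GK K) (x x' : Matrix (Fin n) (Fin n) (Kb K)) (hx : IsUnit x) (hx' : IsUnit x')
    (h : ∀ a, x * (ρ a).map g = ρ a * x) (h' : ∀ a, x' * (ρ' a).map g = ρ' a * x') :
    ∃ t : (Kb K)ˣ, x' * u.map g = (t : Kb K) • (u * x) := by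
  have hne : Nonempty (Fin n) := ⟨⟨0, hn⟩⟩
  have hz : IsUnit (u * x) := hu.mul hx
  obtain ⟨z, hz⟩ := hz
  have hy1 : ∀ a, x' * u.map g * (ρ a).map g = ρ' a * (x' * u.map g) := fun a => by
    rw [mul_assoc, ← map_gal_mul, huρ, map_gal_mul, ← mul_assoc, h', mul_assoc]
  have hz1 : ∀ a, (z : Matrix (Fin n) (Fin n) (Kb K)) * (ρ a).map g = ρ' a * z := fun a => by
    rw [hz, mul_assoc, h, ← mul_assoc, huρ, mul_assoc]
  have hz2 : ∀ a, ((z⁻¹ : (Matrix (Fin n) (Fin n) (Kb K))ˣ) : Matrix (Fin n) (Fin n) (Kb K)) *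
      ρ' a = (ρ a).map g * (z⁻¹ : (Matrix (Fin n) (Fin n) (Kb K))ˣ) := fun a => by
    rw [Units.inv_mul_eq_iff_eq_mul, ← mul_assoc, hz1, mul_assoc, Units.mul_inv, mul_one]
  obtain ⟨t, ht⟩ := rep_center ρ' hn hd
    (x' * u.map g * (z⁻¹ : (Matrix (Fin n) (Fin n) (Kb K))ˣ)) (fun a => by
      rw [mul_assoc, hz2, ← mul_assoc, hy1, mul_assoc, mul_assoc])
  have ht2 : x' * u.map g = t • (u * x) := by
    rw [← hz, ← one_mul (z : Matrix (Fin n) (Fin n) (Kb K)), ← smul_mul_assoc, ← ht, mul_assoc,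
      Units.inv_mul, mul_one]
  have ht0 : t ≠ 0 := by
    rintro rfl
    rw [zero_smul] at ht2
    exact (hx'.mul (map_gal_isUnit K g u hu)).ne_zero ht2
  exact ⟨Units.mk0 t ht0, ht2⟩

/-- The class is unique up to smooth coboundaries. The degrees `n` agree (both squares are
`finrank K A`). `rep_conj` gives `u` with `u * ρ a = ρ' a * u`. The matrices `Φ' g * u.map g` and
`u * Φ g` both carry `(ρ a).map g` to `ρ' a`, so `Φ' g * u.map g = t g • (u * Φ g)` with a scalar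
`t g` (`rep_center` for `ρ'`), nonzero and smooth (`smooth_mat`, `exists_sub_mat` for `u`), and
`d = c * ∂ t`. -/
theorem HasClass.unique (K : Type) [Field K] {A : Type} [Ring A] [Algebra K A]
    [Algebra.IsCentral K A] [IsSimpleRing A] [FiniteDimensional K A] {c d : Z2 K}
    (hc : HasClass K A c) (hd : HasClass K A d) : cls c = cls d := by
  obtain ⟨n, ρ, Φ, hn, hdim, hsm, hun, hcoc, hρ⟩ := hc
  obtain ⟨n', ρ', Φ', hn', hdim', hsm', hun', hcoc', hρ'⟩ := hd
  have hnn : n' = n := by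
    have : n' ^ 2 = n ^ 2 := by rw [← hdim', hdim]
    exact Nat.pow_left_injective (by norm_num) this
  subst hnn
  obtain ⟨u, hu, huρ⟩ := rep_conj ρ ρ' hn hdim
  have ht : ∀ g : GK K, ∃ t : (Kb K)ˣ, Φ' g * u.map g = (t : Kb K) • (u * Φ g) := fun g =>
    unique_scalar K hn hdim ρ ρ' u hu huρ g (Φ g) (Φ' g) (hun g) (hun' g) (hρ g) (hρ' g)
  choose t ht using ht
  have hsmt : Smooth1 K t := by
    obtain ⟨M1, hM1, h1⟩ := hsm
    obtain ⟨M2, hM2, h2⟩ := hsm'
    obtain ⟨M3, hM3, _, h3⟩ := exists_sub_mat K (fun _ : Unit => u)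
    refine ⟨M1 ⊔ (M2 ⊔ M3), inferInstance, fun g h hgh => ?_⟩
    have e1 : Φ g = Φ h := h1 g h fun x hx => hgh x (le_sup_left (a := M1) hx)
    have e2 : Φ' g = Φ' h := h2 g h fun x hx =>
      hgh x (le_sup_right (a := M1) (le_sup_left (a := M2) hx))
    have e3 : u.map g = u.map h := by
      ext i j
      exact hgh _ (le_sup_right (a := M1) (le_sup_right (a := M2) (h3 () i j)))
    have e4 := ht g
    rw [e1, e2, e3, ht h] at e4
    exact (Units.ext (unique_smul_inj hn (hu.mul (hun h)) e4)).symm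
  have key : ∀ g h : GK K, d.1 (g, h) * t (g * h) = g • t h * t g * c.1 (g, h) := by
    intro g h
    apply Units.ext
    have e1 : Φ' g * (Φ' h).map g * u.map (g * h : GK K) =
        ((d.1 (g, h) : Kb K) * (t (g * h) : Kb K)) • (u * Φ (g * h)) := by
      rw [hcoc', smul_mul_assoc, ht, smul_smul]
    have e2 : Φ' g * (Φ' h).map g * u.map (g * h : GK K) =
        (g (t h : Kb K) * (t g : Kb K) * (c.1 (g, h) : Kb K)) • (u * Φ (g * h)) := by
      rw [← map_gal_map, mul_assoc, ← map_gal_mul, ht, map_gal_smul, map_gal_mul, mul_smul_comm,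
        ← mul_assoc, ht, smul_mul_assoc, mul_assoc, hcoc, mul_smul_comm, smul_smul, smul_smul,
        mul_assoc]
    have e3 := unique_smul_inj hn (hu.mul (hun (g * h))) (e1.symm.trans e2)
    simpa [AlgEquiv.smul_units_def] using e3
  rw [eq_comm, cls_eq_cls]
  refine ⟨t, hsmt, fun g h => ?_⟩
  have := key g h
  rw [Pi.div_apply, div_eq_div_iff_mul_eq_mul, this]

end BB37
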