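import Pool.Agent.Lib.MP_bb37eb_nt.BR.ExistsCsa
import Pool.Agent.Lib.MP_bb37eb_nt.BR.ExistsClass
import Pool.Agent.Lib.MP_bb37eb_nt.BR.Unique
import Pool.Agent.Lib.MP_bb37eb_nt.BR.Iso
import Pool.Agent.Lib.MP_bb37eb_nt.BR.BaseChange

/-! Brauer equivalence and the class. -/

namespace BB37

open scoped TensorProduct

section

variable (K : Type) [Field K] [CharZero K]

/-- From left to right `HasClass.matrix`, `HasClass.of_algEquiv`, `HasClass.unique`; from right to
left `HasClass.iso` for the matrix algebras of sizes `m'` over `A` and `m` over `B`, where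
`dim A = m ^ 2`, `dim B = m' ^ 2` (the degrees in `HasClass`). -/
theorem BR_equiv_iff (A B : CSA.{0, 0} K) (c d : Z2 K) (hA : HasClass K A c)
    (hB : HasClass K B d) : IsBrauerEquivalent A B ↔ cls c = cls d := by
  constructor
  · rintro ⟨n, m, hn, hm, ⟨e⟩⟩
    have : Nonempty (Fin m) := ⟨⟨0, Nat.pos_of_ne_zero hm⟩⟩
    have h1 : HasClass K (Matrix (Fin m) (Fin m) B) c :=
      HasClass.of_algEquiv K e (HasClass.matrix K (Nat.pos_of_ne_zero hn) hA)
    have h2 : HasClass K (Matrix (Fin m) (Fin m) B) d :=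
      HasClass.matrix K (Nat.pos_of_ne_zero hm) hB
    exact HasClass.unique K h1 h2
  · intro e
    have hA' := hA
    have hB' := hB
    obtain ⟨a, -, -, ha, hda, -⟩ := hA'
    obtain ⟨b, -, -, hb, hdb, -⟩ := hB'
    have : Nonempty (Fin a) := ⟨⟨0, ha⟩⟩
    have : Nonempty (Fin b) := ⟨⟨0, hb⟩⟩
    refine ⟨b, a, hb.ne', ha.ne', ?_⟩
    refine HasClass.iso K (HasClass.matrix K hb hA) (HasClass.matrix K ha hB) e ?_
    rw [Module.finrank_matrix, Module.finrank_matrix, hda, hdb]
    simp only [Fintype.card_fin]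
    ring

private theorem final_split_iff (A : Type) [Ring A] [Algebra K A] [Algebra.IsCentral K A]
    [IsSimpleRing A] [FiniteDimensional K A] (c : Z2 K) (hA : HasClass K A c) :
    cls c = 1 ↔ ∃ n : ℕ, n ≠ 0 ∧ Nonempty (A ≃ₐ[K] Matrix (Fin n) (Fin n) K) := by
  constructor
  · intro e
    have hA' := hA
    obtain ⟨a, -, -, ha, hda, -⟩ := hA'
    have : Nonempty (Fin a) := ⟨⟨0, ha⟩⟩
    refine ⟨a, ha.ne', ?_⟩
    refine HasClass.iso K hA (HasClass.matrix K ha (hasClass_self K)) (e.trans cls_one.symm) ?_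
    rw [Module.finrank_matrix, hda]
    simp only [Fintype.card_fin, Module.finrank_self]
    ring
  · rintro ⟨n, hn, ⟨e⟩⟩
    have : Nonempty (Fin n) := ⟨⟨0, Nat.pos_of_ne_zero hn⟩⟩
    have h1 : HasClass K (Matrix (Fin n) (Fin n) K) c := HasClass.of_algEquiv K e hA
    have h2 : HasClass K (Matrix (Fin n) (Fin n) K) 1 :=
      HasClass.matrix K (Nat.pos_of_ne_zero hn) (hasClass_self K)
    exact (HasClass.unique K h1 h2).trans cls_one

/-- `HasClass.iso` with the matrix algebra over `K` of the right size (`hasClass_self`,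
`HasClass.matrix`), and `HasClass.unique` -/
theorem BR_split_iff (A : CSA.{0, 0} K) (c : Z2 K) (hA : HasClass K A c) :
    cls c = 1 ↔ ∃ n : ℕ, n ≠ 0 ∧ Nonempty (A ≃ₐ[K] Matrix (Fin n) (Fin n) K) :=
  final_split_iff K A c hA

/-- the same without the bundled `CSA` -/
theorem split_iff (A : Type) [Ring A] [Algebra K A] [Algebra.IsCentral K A] [IsSimpleRing A]
    [FiniteDimensional K A] (c : Z2 K) (hA : HasClass K A c) :
    cls c = 1 ↔ ∃ n : ℕ, n ≠ 0 ∧ Nonempty (A ≃ₐ[K] Matrix (Fin n) (Fin n) K) :=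
  final_split_iff K A c hA

theorem BR_baseChange (K' : Type) [Field K'] [CharZero K'] [Algebra K K'] (A : CSA.{0, 0} K)
    (c : Z2 K) (hA : HasClass K A c) : HasClass K' (K' ⊗[K] A) (resZ K K' c) :=
  hA.baseChange K K'

/-- a division algebra whose matrix algebra is central is central -/
theorem Final_central (K : Type) [Field K] (D : Type) [DivisionRing D] [Algebra K D] {n : ℕ}
    (hn : n ≠ 0) (h : Algebra.IsCentral K (Matrix (Fin n) (Fin n) D)) : Algebra.IsCentral K D := by
  constructor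
  intro z hz
  have hz' : ∀ d : D, d * z = z * d := fun d => (Subalgebra.mem_center_iff.1 hz) d
  have : NeZero n := ⟨hn⟩
  have h1 : (Matrix.scalar (Fin n) z) ∈ Subalgebra.center K (Matrix (Fin n) (Fin n) D) := by
    rw [Subalgebra.mem_center_iff]
    intro M
    ext i j
    simp [Matrix.scalar_apply, Matrix.mul_diagonal, Matrix.diagonal_mul, hz']
  have h2 := h.out h1
  rw [Algebra.mem_bot] at h2 ⊢
  obtain ⟨t, ht⟩ := h2
  refine ⟨t, ?_⟩
  have h3 := congrFun (congrFun ht 0) 0
  simpa [Matrix.algebraMap_matrix_apply] using h3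

/-- every class in `H2` is the class of a division algebra: `BR_exists_csa`, Wedderburn
(`IsSimpleRing.exists_algEquiv_matrix_divisionRing_finite`), a class of the division algebra by
`BR_exists_class` and `HasClass.matrix`, `HasClass.unique`, `HasClass.of_cls` -/
theorem exists_division (x : H2 K) : ∃ (D : Type) (_ : DivisionRing D) (_ : Algebra K D)
    (_ : Algebra.IsCentral K D) (_ : FiniteDimensional K D) (c : Z2 K),
    cls c = x ∧ HasClass K D c := by
  obtain ⟨c, rfl⟩ := cls_surj x
  obtain ⟨A, hA⟩ := BR_exists_csa K c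
  have hart : IsArtinianRing A := IsArtinianRing.of_finite K A
  obtain ⟨n, hn, D, iD, iA, iF, ⟨e⟩⟩ :=
    IsSimpleRing.exists_algEquiv_matrix_divisionRing_finite K A
  have hn0 : n ≠ 0 := hn.out
  have hM : Algebra.IsCentral K (Matrix (Fin n) (Fin n) D) :=
    Algebra.IsCentral.of_algEquiv K A (Matrix (Fin n) (Fin n) D) e
  have hD : Algebra.IsCentral K D := Final_central K D hn0 hM
  obtain ⟨c', hc'⟩ := BR_exists_class K D
  have h1 := (HasClass.matrix K (Nat.pos_of_ne_zero hn0) hc').of_algEquiv K e.symm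
  exact ⟨D, iD, iA, hD, iF, c', (HasClass.unique K hA h1).symm, hc'⟩

/-- Brauer class of an algebra as an element of the Brauer group and the class in `H2`: an
injection of the Brauer group into `H2`, bijective in fact -/
theorem exists_brauer_H2 : ∃ f : BrauerGroup.{0, 0} K → H2 K, Function.Bijective f ∧
    ∀ (A : CSA.{0, 0} K) (c : Z2 K), HasClass K A c → f (Quotient.mk (Brauer.CSA_Setoid K) A) = cls c := by
  classical
  have hex : ∀ A : CSA.{0, 0} K, ∃ c : Z2 K, HasClass K A c := fun A => BR_exists_class K A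
  choose g hg using hex
  let f : BrauerGroup.{0, 0} K → H2 K :=
    Quotient.lift (fun A => cls (g A)) fun A B hAB =>
      (BR_equiv_iff K A B (g A) (g B) (hg A) (hg B)).1 hAB
  have hf : ∀ A : CSA.{0, 0} K, f (Quotient.mk (Brauer.CSA_Setoid K) A) = cls (g A) :=
    fun A => rfl
  refine ⟨f, ⟨?_, ?_⟩, ?_⟩
  · intro a b
    refine Quotient.inductionOn₂ a b fun A B => ?_
    intro h
    rw [hf, hf] at h
    exact Quotient.sound ((BR_equiv_iff K A B (g A) (g B) (hg A) (hg B)).2 h)
  · intro x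
    obtain ⟨c, rfl⟩ := cls_surj x
    obtain ⟨A, hA⟩ := BR_exists_csa K c
    refine ⟨Quotient.mk (Brauer.CSA_Setoid K) A, ?_⟩
    rw [hf]
    exact HasClass.unique K (hg A) hA
  · intro A c hA
    rw [hf]
    exact HasClass.unique K (hg A) hA

end

end BB37
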