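import Pool.Agent.Lib.MP_bb37eb_nt.Core.HasClass

/-! Galois extensions of commutative rings. -/

namespace BB37

/-- `S / R` is a Galois extension of rings with group `Γ` -/
structure GalRing (R S Γ : Type) [CommRing R] [CommRing S] [Algebra R S] [Group Γ] [Fintype Γ]
    [DecidableEq Γ] [MulSemiringAction Γ S] [SMulCommClass Γ R S] : Prop where
  inj : Function.Injective (algebraMap R S)
  inv : ∀ s : S, (∀ γ : Γ, γ • s = s) → ∃ r, algebraMap R S r = s
  coord : ∃ (n : ℕ) (x y : Fin n → S), ∀ γ : Γ, ∑ i, x i * γ • y i = if γ = 1 then 1 else 0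

section

variable {R S Γ : Type} [CommRing R] [CommRing S] [Algebra R S] [Group Γ] [Fintype Γ]
  [DecidableEq Γ] [MulSemiringAction Γ S] [SMulCommClass Γ R S]

/-- the trace (choose the value by `inv`, linear by `inj`) -/
theorem GalRing.exists_tr (h : GalRing R S Γ) :
    ∃ tr : S →ₗ[R] R, ∀ s, algebraMap R S (tr s) = ∑ γ : Γ, γ • s := by
  have h1 : ∀ s : S, ∃ r, algebraMap R S r = ∑ γ : Γ, γ • s := by
    intro s
    apply h.inv
    intro δ
    rw [Finset.smul_sum]
    exact Fintype.sum_equiv (Equiv.mulLeft δ) _ _ fun γ => by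
      rw [Equiv.coe_mulLeft, mul_smul]
  choose t ht using h1
  refine ⟨⟨⟨t, fun a b => h.inj ?_⟩, fun r a => h.inj ?_⟩, ht⟩
  · rw [map_add, ht, ht, ht, ← Finset.sum_add_distrib]
    exact Finset.sum_congr rfl fun γ _ => smul_add γ a b
  · rw [RingHom.id_apply, smul_eq_mul, map_mul, ht, ht, Finset.mul_sum]
    refine Finset.sum_congr rfl fun γ _ => ?_
    rw [smul_comm, Algebra.smul_def]

/-- `s = ∑ i, x i * Tr (y i * s)` -/
theorem GalRing.expand (n : ℕ) (x y : Fin n → S)
    (hxy : ∀ γ : Γ, ∑ i, x i * γ • y i = if γ = 1 then 1 else 0) (s : S) :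
    ∑ i, x i * ∑ γ : Γ, γ • (y i * s) = s := by
  have h1 : ∀ i, x i * ∑ γ : Γ, γ • (y i * s) = ∑ γ : Γ, x i * γ • y i * γ • s := by
    intro i
    rw [Finset.mul_sum]
    refine Finset.sum_congr rfl fun γ _ => ?_
    rw [smul_mul', mul_assoc]
  simp only [h1]
  rw [Finset.sum_comm]
  have h2 : ∀ γ : Γ, ∑ i, x i * γ • y i * γ • s = if γ = 1 then s else 0 := by
    intro γ
    rw [← Finset.sum_mul, hxy γ]
    split_ifs with h
    · rw [h, one_smul, one_mul]
    · rw [zero_mul]
  simp only [h2]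
  rw [Finset.sum_ite_eq' Finset.univ (1 : Γ) (fun _ => s)]
  simp

/-- the dual basis -/
private theorem GalRing.dual (h : GalRing R S Γ) (tr : S →ₗ[R] R)
    (htr : ∀ s, algebraMap R S (tr s) = ∑ γ : Γ, γ • s) :
    ∃ (n : ℕ) (x y : Fin n → S), ∀ s, ∑ i, tr (y i * s) • x i = s := by
  obtain ⟨n, x, y, hxy⟩ := h.coord
  refine ⟨n, x, y, fun s => ?_⟩
  have h1 := GalRing.expand n x y hxy s
  refine Eq.trans (Finset.sum_congr rfl fun i _ => ?_) h1
  rw [Algebra.smul_def, htr, mul_comm]

theorem GalRing.finite (h : GalRing R S Γ) : Module.Finite R S := by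
  obtain ⟨tr, htr⟩ := h.exists_tr
  obtain ⟨n, x, y, hxy⟩ := h.dual tr htr
  refine Module.Finite.of_surjective (Fintype.linearCombination R x) fun s => ?_
  refine ⟨fun i => tr (y i * s), ?_⟩
  rw [Fintype.linearCombination_apply]
  exact hxy s

/-- `Module.Projective.of_lifting_property` or the dual basis given by `expand` and `exists_tr`:
`s ↦ (tr (y i * s))` is a section of `(r i) ↦ ∑ r i • x i` -/
theorem GalRing.projective (h : GalRing R S Γ) : Module.Projective R S := by
  obtain ⟨tr, htr⟩ := h.exists_tr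
  obtain ⟨n, x, y, hxy⟩ := h.dual tr htr
  refine Module.Projective.of_split
    (LinearMap.pi fun i => tr.comp (LinearMap.mulLeft R (y i))) (Fintype.linearCombination R x) ?_
  ext s
  rw [LinearMap.comp_apply, Fintype.linearCombination_apply, LinearMap.id_apply]
  exact hxy s

/-- There is an element of trace one, hence an `R`-linear retraction `π s = tr (y * s)` of `R → S`:
the image `I` of the trace is an ideal of `R`, `S = I S` by `expand`, `S` is finite over `R`, so some
`r` with `r - 1 ∈ I` kills `S`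
(`Submodule.exists_sub_one_mem_and_smul_eq_zero_of_fg_of_le_smul`); `r = 0` by `inj`. -/
theorem GalRing.exists_retract (h : GalRing R S Γ) : ∃ π : S →ₗ[R] R, π 1 = 1 := by
  obtain ⟨tr, htr⟩ := h.exists_tr
  obtain ⟨n, x, y, hxy⟩ := h.dual tr htr
  have hfin := h.finite
  set I : Ideal R := LinearMap.range tr with hI
  have hle : (⊤ : Submodule R S) ≤ I • ⊤ := by
    intro s _
    rw [← hxy s]
    exact Submodule.sum_mem _ fun i _ =>
      Submodule.smul_mem_smul (LinearMap.mem_range_self tr _) Submodule.mem_top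
  obtain ⟨r, hr1, hr2⟩ := Submodule.exists_sub_one_mem_and_smul_eq_zero_of_fg_of_le_smul I
    (⊤ : Submodule R S) hfin.fg_top hle
  have hr3 := hr2 1 Submodule.mem_top
  rw [← Algebra.algebraMap_eq_smul_one] at hr3
  have hr0 : r = 0 := h.inj (by rw [hr3, map_zero])
  rw [hr0, zero_sub] at hr1
  have h1 : (1 : R) ∈ I := by
    have := I.neg_mem hr1
    rwa [neg_neg] at this
  obtain ⟨z, hz⟩ := h1
  refine ⟨tr.comp (LinearMap.mulLeft R z), ?_⟩
  rw [LinearMap.comp_apply, LinearMap.mulLeft_apply, mul_one]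
  exact hz

end

end BB37
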