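import Pool.Agent.Lib.MP_bb37eb_nt.BR.TwistBij
import Pool.Agent.Lib.MP_bb37eb_nt.BR.HasOf

/-! The fibres of the twisted algebra. -/

namespace BB37

open scoped TensorProduct

section

variable {R S Γ : Type} [CommRing R] [CommRing S] [Algebra R S] [Group Γ] [Fintype Γ]
  [DecidableEq Γ] [MulSemiringAction Γ S] [SMulCommClass Γ R S] {c : Γ → Γ → Sˣ}
  (h : GalRing R S Γ) (hc : IsCoc c) (K : Type) [Field K] [Algebra R K] (s : S →+* Kb K)
  (hs : ∀ r, s (algebraMap R S r) = algebraMap K (Kb K) (algebraMap R K r))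

include h hs in
/-- Regard `L = Kb K` as an `R`-algebra through `K` and as an `S`-algebra through `s`; by `hs` this is
a scalar tower. `L ⊗[K] (K ⊗[R] A) = L ⊗[R] A = L ⊗[S] (S ⊗[R] A)` is isomorphic to the matrices over
`L` (`Algebra.TensorProduct.cancelBaseChange`, `TensorProduct.AlgebraTensorModule.cancelBaseChange`,
`twL_bijective`), so the dimension is the square of the order of `Γ` (`Module.finrank_baseChange`). -/
theorem tw_finrank (hc : IsCoc c) :
    Module.finrank K (K ⊗[R] twAlg c R) = Fintype.card Γ ^ 2 := by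
  letI iS : Algebra S (Kb K) := s.toAlgebra
  haveI iT : IsScalarTower R S (Kb K) := IsScalarTower.of_algebraMap_eq fun r => by
    rw [IsScalarTower.algebraMap_apply R K (Kb K)]
    exact (hs r).symm
  haveI : Nontrivial S := s.domain_nontrivial
  have e1 : Kb K ⊗[K] (K ⊗[R] twAlg c R) ≃ₗ[Kb K] Kb K ⊗[R] twAlg c R :=
    TensorProduct.AlgebraTensorModule.cancelBaseChange R K (Kb K) (Kb K) (twAlg c R)
  have e2 : Kb K ⊗[S] (S ⊗[R] twAlg c R) ≃ₗ[Kb K] Kb K ⊗[R] twAlg c R :=
    TensorProduct.AlgebraTensorModule.cancelBaseChange R S (Kb K) (Kb K) (twAlg c R)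
  have e3 : (S ⊗[R] twAlg c R) ≃ₗ[S] Matrix Γ Γ S :=
    (AlgEquiv.ofBijective (twL (R := R) c) (twL_bijective h hc)).toLinearEquiv
  have e4 : Kb K ⊗[S] (S ⊗[R] twAlg c R) ≃ₗ[Kb K] Kb K ⊗[S] Matrix Γ Γ S :=
    e3.baseChange S (Kb K) _ _
  have h1 : Module.finrank (Kb K) (Kb K ⊗[K] (K ⊗[R] twAlg c R)) =
      Module.finrank K (K ⊗[R] twAlg c R) := Module.finrank_baseChange
  have h2 : Module.finrank (Kb K) (Kb K ⊗[S] Matrix Γ Γ S) =
      Module.finrank S (Matrix Γ Γ S) := Module.finrank_baseChange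
  rw [← h1, (e1.trans (e2.symm.trans e4)).finrank_eq, h2, Module.finrank_matrix,
    Module.finrank_self, mul_one, sq]

include h in
/-- If `g`, `g'` agree on the `s (y i)` then `γ g = γ g'`:
`∑ i, s (γ g' • x i) * s (γ g • y i)` is `s (γ g' • ∑ i, x i * (γ g'⁻¹ * γ g) • y i)`, which is
`1` if `γ g = γ g'` and `0` otherwise, and it equals `s (γ g' • ∑ i, x i * y i) = 1`.
(`exists_finite_sub` gives the finite extension.) -/
theorem tw_smooth (γ : GK K →* Γ) (hγ : ∀ g x, g (s x) = s (γ g • x)) :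
    Smooth1 K (fun g => γ g) := by
  obtain ⟨n, x, y, hxy⟩ := h.coord
  obtain ⟨M, hM, hsub⟩ := exists_finite_sub (K := K) (Set.range fun i => s (y i))
    (Set.finite_range _)
  refine ⟨M, hM, ?_⟩
  intro g g' hg
  by_contra hne
  have h0 := hxy ((γ g')⁻¹ * γ g)
  have hne' : (γ g')⁻¹ * γ g ≠ 1 := by
    intro e
    exact hne (inv_mul_eq_one.1 e).symm
  rw [if_neg hne'] at h0
  have h1 := hxy 1
  rw [if_pos rfl] at h1
  have e : ∀ i, s (γ g • y i) = s (γ g' • y i) := by
    intro i
    rw [← hγ, ← hγ]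
    exact hg _ (hsub ⟨i, rfl⟩)
  have k0 : ∑ i, s (γ g' • x i) * s (γ g • y i) = 0 := by
    have e0 := congrArg (fun t => s (γ g' • t)) h0
    simp only [Finset.smul_sum, smul_mul', smul_smul, mul_inv_cancel_left, smul_zero, map_sum,
      map_mul, map_zero] at e0
    exact e0
  have k1 : ∑ i, s (γ g' • x i) * s (γ g' • y i) = 1 := by
    have e0 := congrArg (fun t => s (γ g' • t)) h1
    simp only [Finset.smul_sum, smul_mul', smul_smul, mul_one, smul_one, map_sum,
      map_mul, map_one] at e0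
    exact e0
  simp only [e] at k0
  rw [k0] at k1
  exact zero_ne_one k1

private theorem twistFibre_map {γ : GK K →* Γ} (hγ : ∀ g x, g (s x) = s (γ g • x)) (g : GK K)
    (m : Matrix Γ Γ S) : (m.map s).map g = (actM (γ g) m).map s := by
  ext i j
  rw [Matrix.map_apply, Matrix.map_apply, Matrix.map_apply, actM_apply, hγ]

private theorem twistFibre_comm {a : Matrix Γ Γ S} (γ : Γ) (ha : twAct c γ a = a) :
    twP c γ * actM γ a = a * twP c γ := by
  have h1 := congrArg (fun t => t * twP c γ) ha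
  simp only [twAct] at h1
  rw [mul_assoc, twQ_mul_twP, mul_one] at h1
  exact h1

include h hc hs in
/-- `hasClass_of` with `ι = Γ`, `ρ (t ⊗ a) = t • a.map s` and `Φ g = (twP c (γ g)).map s`. -/
theorem tw_hasClass (γ : GK K →* Γ) (hγ : ∀ g x, g (s x) = s (γ g • x)) (c' : Z2 K)
    (hc' : ∀ g h, (c'.1 (g, h) : Kb K) = s (c (γ g) (γ h))) :
    HasClass K (K ⊗[R] twAlg c R) c' := by
  haveI : Nonempty Γ := ⟨1⟩
  let sA : S →ₐ[R] Kb K :=
    { s with
      commutes' := fun r => by
        rw [IsScalarTower.algebraMap_apply R K (Kb K)]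
        exact hs r }
  let ψ : twAlg c R →ₐ[R] Matrix Γ Γ (Kb K) := sA.mapMatrix.comp (twAlg c R).val
  have hψ : ∀ a : twAlg c R, ψ a = (a : Matrix Γ Γ S).map s := fun a => rfl
  let ρ : K ⊗[R] twAlg c R →ₐ[K] Matrix Γ Γ (Kb K) :=
    Algebra.TensorProduct.lift (Algebra.ofId K (Matrix Γ Γ (Kb K))) ψ
      fun x y => Algebra.commutes x (ψ y)
  have hρ : ∀ (t : K) (a : twAlg c R), ρ (t ⊗ₜ[R] a) = t • (a : Matrix Γ Γ S).map s := by
    intro t a
    rw [← hψ]
    simp only [ρ]
    rw [Algebra.TensorProduct.lift_tmul, Algebra.ofId_apply, Algebra.smul_def]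
  refine hasClass_of K Γ ρ (fun g => (twP c (γ g)).map s) c' (tw_finrank h K s hs hc) ?_ ?_ ?_ ?_
  · obtain ⟨M, hM, h1⟩ := tw_smooth h K s γ hγ
    exact ⟨M, hM, fun g g' hg => by
      have := h1 g g' hg
      simp only at this
      simp only [this]⟩
  · intro g
    have hu : IsUnit (twP c (γ g)) :=
      ⟨⟨twP c (γ g), twQ c (γ g), twP_mul_twQ c (γ g), twQ_mul_twP c (γ g)⟩, rfl⟩
    exact hu.map (RingHom.mapMatrix (m := Γ) s)
  · intro g g'
    rw [twistFibre_map K s hγ, hc', map_mul γ g g']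
    have e1 : (twP c (γ g)).map s * (actM (γ g) (twP c (γ g'))).map s =
        (twP c (γ g) * actM (γ g) (twP c (γ g'))).map s := by
      rw [Matrix.map_mul]
    rw [e1, twP_mul hc]
    ext i j
    rw [Matrix.map_apply, Matrix.smul_apply, Matrix.smul_apply, Matrix.map_apply, smul_eq_mul,
      smul_eq_mul, map_mul]
  · intro g a
    induction a using TensorProduct.induction_on with
    | zero =>
      rw [map_zero, zero_mul]
      have : (0 : Matrix Γ Γ (Kb K)).map g = 0 := by
        ext i j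
        simp
      rw [this, mul_zero]
    | tmul t a =>
      rw [hρ]
      have e1 : (t • (a : Matrix Γ Γ S).map s).map g =
          t • ((a : Matrix Γ Γ S).map s).map g := by
        ext i j
        rw [Matrix.map_apply, Matrix.smul_apply, Matrix.smul_apply, Matrix.map_apply,
          Algebra.smul_def, Algebra.smul_def, map_mul]
        rw [g.commutes, Matrix.map_apply, Matrix.map_apply]
      rw [e1, twistFibre_map K s hγ, mul_smul_comm, smul_mul_assoc]
      have e2 : (twP c (γ g)).map s * (actM (γ g) (a : Matrix Γ Γ S)).map s =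
          (twP c (γ g) * actM (γ g) (a : Matrix Γ Γ S)).map s := by
        rw [Matrix.map_mul]
      rw [e2, twistFibre_comm (γ g) (a.2 (γ g)), Matrix.map_mul]
    | add a b ha hb =>
      have e1 : (ρ (a + b)).map g = (ρ a).map g + (ρ b).map g := by
        rw [map_add]
        ext i j
        simp
      rw [e1, mul_add, ha, hb, map_add, add_mul]

end

end BB37
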