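import Pool.Agent.Lib.MP_bb37eb_nt.BR.TwistAzu
import Pool.Agent.Lib.MP_bb37eb_nt.BR.TwistFibre

/-! Twisted forms over a Galois extension of rings. -/

namespace BB37

open scoped TensorProduct

theorem BR_galois (R S Γ : Type) [CommRing R] [CommRing S] [Algebra R S] [Group Γ] [Fintype Γ]
    [DecidableEq Γ] [MulSemiringAction Γ S] [SMulCommClass Γ R S]
    (hinj : Function.Injective (algebraMap R S))
    (hinv : ∀ s : S, (∀ γ : Γ, γ • s = s) → ∃ r, algebraMap R S r = s)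
    (hcoord : ∃ (n : ℕ) (x y : Fin n → S), ∀ γ : Γ, ∑ i, x i * γ • y i = if γ = 1 then 1 else 0)
    (c : Γ → Γ → Sˣ)
    (hc : ∀ a b d : Γ, (c (a * b) d : S) * c a b = a • (c b d : S) * c a (b * d)) :
    ∃ (A : Type) (_ : Ring A) (_ : Algebra R A), IsAzumaya R A ∧
      ∀ (K : Type) [Field K] [CharZero K] [Algebra R K] (s : S →+* Kb K)
        (_ : ∀ r, s (algebraMap R S r) = algebraMap K (Kb K) (algebraMap R K r))
        (γ : GK K →* Γ) (_ : ∀ g x, g (s x) = s (γ g • x)) (c' : Z2 K)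
        (_ : ∀ g h, (c'.1 (g, h) : Kb K) = s (c (γ g) (γ h))),
        HasClass K (K ⊗[R] A) c' := by
  have h : GalRing R S Γ := ⟨hinj, hinv, hcoord⟩
  refine ⟨twAlg c R, inferInstance, inferInstance, twAlg_azumaya h hc, ?_⟩
  intro K _ _ _ s hs γ hγ c' hc'
  exact tw_hasClass h hc K s hs γ hγ c' hc'

end BB37
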