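import Pool.Agent.Lib.MP_bb37eb_nt.BR.AutIndep
import Pool.Agent.Lib.MP_bb37eb_nt.BR.MatLem

/-! Two semilinear structures with the same cocycle are conjugate. -/

namespace BB37

/-- a smooth family factors through a larger finite normal subextension over which its entries
are defined -/
private theorem pairInv_common (K : Type) [Field K] {m : Type} [Finite m]
    {Φ Ψ : GK K → Matrix m m (Kb K)} (h1 : Smooth1 K Φ) (h1' : Smooth1 K Ψ) :
    ∃ M : IntermediateField K (Kb K), FiniteDimensional K M ∧ Normal K M ∧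
      (∀ g h, Agree K M g h → Φ g = Φ h) ∧ (∀ g i j, Φ g i j ∈ M) ∧
      (∀ g h, Agree K M g h → Ψ g = Ψ h) ∧ ∀ g i j, Ψ g i j ∈ M := by
  obtain ⟨M1, f1, n1, a1, b1⟩ := smooth_mat K h1
  obtain ⟨M2, f2, n2, a2, b2⟩ := smooth_mat K h1'
  obtain ⟨M, l, f, n⟩ := exists_normal K (M1 ⊔ M2)
  have l1 : M1 ≤ M := le_sup_left.trans l
  have l2 : M2 ≤ M := le_sup_right.trans l
  exact ⟨M, f, n, fun g h e => a1 g h fun x hx => e x (l1 hx), fun g i j => l1 (b1 g i j),
    fun g h e => a2 g h fun x hx => e x (l2 hx), fun g i j => l2 (b2 g i j)⟩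

/-- equality of restrictions gives agreement on `M` -/
private theorem pairInv_agree {K : Type} [Field K] {M : IntermediateField K (Kb K)} [Normal K M]
    {g h : GK K} (e : (AlgEquiv.restrictNormalHom M : GK K →* (M ≃ₐ[K] M)) g =
      (AlgEquiv.restrictNormalHom M : GK K →* (M ≃ₐ[K] M)) h) : Agree K M g h := by
  intro x hx
  have e' := congrArg (fun t : M ≃ₐ[K] M => ((t ⟨x, hx⟩ : M) : Kb K)) e
  have e1 := AlgEquiv.restrictNormal_commutes g M ⟨x, hx⟩
  have e2 := AlgEquiv.restrictNormal_commutes h M ⟨x, hx⟩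
  exact e1.symm.trans (e'.trans e2)

/-- a matrix over `M` which becomes invertible over `Kb K` is invertible -/
private theorem pairInv_unit {K : Type} [Field K] (M : IntermediateField K (Kb K))
    {m : Type} [Fintype m] [DecidableEq m] (A : Matrix m m M)
    (h : IsUnit (A.map (algebraMap M (Kb K)))) : IsUnit A := by
  rw [Matrix.isUnit_iff_isUnit_det] at h ⊢
  have e : (A.map (algebraMap M (Kb K))).det = algebraMap M (Kb K) A.det :=
    ((algebraMap M (Kb K)).map_det A).symm
  rw [e, isUnit_iff_ne_zero] at h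
  rw [isUnit_iff_ne_zero]
  intro h0
  exact h (by rw [h0, map_zero])

/-- Two smooth families with the same cocycle: there is an invertible `x` with
`Φ g * x.map g = x * Ψ g` for all `g`. Proof. Let `M` be finite and normal over `K` such that `Φ`,
`Ψ` factor through `M` and have entries in `M` (`smooth_mat` twice, `exists_normal`). The group
acts on matrices by `g * x = Φ g * x.map g * (Ψ g)⁻¹` (an action since the two cocycles agree), and
for a matrix with entries in `M` the result has entries in `M` and depends on `g` restricted to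
`M` only. For `γ : M ≃ₐ[K] M` choose a lift `l γ : GK K` (`AlgEquiv.restrictNormalHom_surjective`) and
put `B γ = Φ (l γ) * (Ψ (l γ))⁻¹`, a matrix over `M`. By `aut_indep` there is `z : M` such that
`x = ∑ γ, (γ z) • B γ = ∑ γ, l γ * (z • 1)` is invertible. For `g : GK K` one has
`g * (l γ * (z • 1)) = (g * l γ) * (z • 1) = l (ḡ γ) * (z • 1)`, so `x` is fixed. -/
theorem pair_invertible (K : Type) [Field K] [CharZero K] {m : Type} [Fintype m] [DecidableEq m]
    (c : Z2 K) (Φ Ψ : GK K → Matrix m m (Kb K)) (h1 : Smooth1 K Φ) (h1' : Smooth1 K Ψ)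
    (h2 : ∀ g, IsUnit (Φ g)) (h2' : ∀ g, IsUnit (Ψ g))
    (h3 : ∀ g h, Φ g * (Φ h).map g = (c.1 (g, h) : Kb K) • Φ (g * h))
    (h3' : ∀ g h, Ψ g * (Ψ h).map g = (c.1 (g, h) : Kb K) • Ψ (g * h)) :
    ∃ x : Matrix m m (Kb K), IsUnit x ∧ ∀ g, Φ g * x.map g = x * Ψ g := by
  obtain ⟨M, hf, hn, a1, b1, a2, b2⟩ := pairInv_common K h1 h1'
  let r : GK K →* (M ≃ₐ[K] M) := AlgEquiv.restrictNormalHom M
  have hr : Function.Surjective r := AlgEquiv.restrictNormalHom_surjective (Kb K)
  choose l hl using hr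
  have hrc : ∀ (g : GK K) (z : M), ((r g z : M) : Kb K) = g (z : Kb K) := fun g z =>
    AlgEquiv.restrictNormal_commutes g M z
  -- the matrices over `M`
  let F : GK K → Matrix m m M := fun g => Matrix.of fun i j => ⟨Φ g i j, b1 g i j⟩
  let G : GK K → Matrix m m M := fun g => Matrix.of fun i j => ⟨Ψ g i j, b2 g i j⟩
  have hF : ∀ g, (F g).map (algebraMap M (Kb K)) = Φ g := fun g => rfl
  have hG : ∀ g, (G g).map (algebraMap M (Kb K)) = Ψ g := fun g => rfl
  have uF : ∀ g, IsUnit (F g) := fun g => pairInv_unit M (F g) (by rw [hF]; exact h2 g)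
  have uG : ∀ g, IsUnit (G g) := fun g => pairInv_unit M (G g) (by rw [hG]; exact h2' g)
  let B : (M ≃ₐ[K] M) → Matrix m m M := fun γ => F (l γ) * (G (l γ))⁻¹
  have hB : ∀ γ, B γ * G (l γ) = F (l γ) := by
    intro γ
    have hd : IsUnit (G (l γ)).det := (Matrix.isUnit_iff_isUnit_det _).1 (uG (l γ))
    change F (l γ) * (G (l γ))⁻¹ * G (l γ) = F (l γ)
    rw [Matrix.mul_assoc, Matrix.nonsing_inv_mul _ hd, Matrix.mul_one]
  have uB : IsUnit (B 1) := (uF _).mul (Matrix.isUnit_nonsing_inv_iff.2 (uG _))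
  have hinf : Infinite K := inferInstance
  obtain ⟨z, hz⟩ := aut_indep K M B uB
  let X : Matrix m m M := ∑ γ : M ≃ₐ[K] M, γ z • B γ
  let Bm : (M ≃ₐ[K] M) → Matrix m m (Kb K) := fun γ => (B γ).map (algebraMap M (Kb K))
  have hBm : ∀ g : GK K, Bm (r g) * Ψ g = Φ g := by
    intro g
    have e : Agree K M (l (r g)) g := pairInv_agree (hl (r g))
    have e1 := congrArg (fun A : Matrix m m M => A.map (algebraMap M (Kb K))) (hB (r g))
    simp only [Matrix.map_mul, hF, hG] at e1
    rw [a1 _ _ e, a2 _ _ e] at e1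
    exact e1
  have key : ∀ (g : GK K) (γ : M ≃ₐ[K] M), Φ g * (Bm γ).map g = Bm (r g * γ) * Ψ g := by
    intro g γ
    have e1 : Bm γ * Ψ (l γ) = Φ (l γ) := by
      have := hBm (l γ)
      rwa [hl] at this
    have e2 : (Bm γ).map g * (Ψ (l γ)).map g = (Φ (l γ)).map g := by
      rw [← map_gal_mul, e1]
    have e3 : r (g * l γ) = r g * γ := by rw [map_mul, hl]
    have e4 : Bm (r g * γ) * Ψ (g * l γ) = Φ (g * l γ) := by
      rw [← e3]
      exact hBm _
    have hu : IsUnit ((Ψ (l γ)).map g) := map_gal_isUnit K g _ (h2' (l γ))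
    apply hu.mul_right_cancel
    rw [Matrix.mul_assoc, e2, h3, Matrix.mul_assoc, h3', Matrix.mul_smul, e4]
  refine ⟨X.map (algebraMap M (Kb K)), ?_, ?_⟩
  · exact hz.map (RingHom.mapMatrix (algebraMap M (Kb K)))
  · intro g
    have hX : X.map (algebraMap M (Kb K)) = ∑ γ : M ≃ₐ[K] M, ((γ z : M) : Kb K) • Bm γ := by
      ext i j
      simp only [X, Bm, Matrix.map_apply, Matrix.sum_apply, Matrix.smul_apply, map_sum,
        smul_eq_mul, map_mul]
      rfl
    rw [hX]
    have hmap : (∑ γ : M ≃ₐ[K] M, ((γ z : M) : Kb K) • Bm γ).map g =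
        ∑ γ : M ≃ₐ[K] M, (((r g * γ) z : M) : Kb K) • (Bm γ).map g := by
      ext i j
      simp only [Matrix.map_apply, Matrix.sum_apply, Matrix.smul_apply, map_sum, smul_eq_mul,
        map_mul]
      refine Finset.sum_congr rfl fun γ _ => ?_
      rw [← hrc]
      rfl
    rw [hmap, Finset.mul_sum, Finset.sum_mul]
    refine Fintype.sum_equiv (Equiv.mulLeft (r g)) _ _ fun γ => ?_
    rw [Matrix.mul_smul, key, Equiv.coe_mulLeft, Matrix.smul_mul]

end BB37
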