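import Pool.Agent.Lib.MP_bb37eb_nt.BR.TensorSimple

/-! Representations of a central simple algebra of dimension `n ^ 2` on `L ^ n`. -/

namespace BB37

open scoped TensorProduct

section

variable {K : Type} [Field K] {L : Type} [Field L] [Algebra K L] {A : Type} [Ring A] [Algebra K A]
  {n : ℕ}

/-- the extension of scalars of a representation -/
noncomputable def repL (ρ : A →ₐ[K] Matrix (Fin n) (Fin n) L) :
    L ⊗[K] A →ₐ[L] Matrix (Fin n) (Fin n) L :=
  Algebra.TensorProduct.lift (Algebra.ofId L (Matrix (Fin n) (Fin n) L)) ρ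
    fun x y => Algebra.commutes x (ρ y)

theorem repL_tmul (ρ : A →ₐ[K] Matrix (Fin n) (Fin n) L) (t : L) (a : A) :
    repL ρ (t ⊗ₜ a) = t • ρ a := by
  rw [repL, Algebra.TensorProduct.lift_tmul, Algebra.ofId_apply, Algebra.smul_def]

variable [Algebra.IsCentral K A] [IsSimpleRing A] [FiniteDimensional K A]

/-- injective as `L ⊗ A` is simple (`base_simple`, `RingHom.injective`), then bijective since the
dimensions over `L` agree (`Module.finrank_baseChange`). -/
theorem repL_bijective (ρ : A →ₐ[K] Matrix (Fin n) (Fin n) L) (hn : 0 < n)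
    (hd : Module.finrank K A = n ^ 2) : Function.Bijective (repL ρ) := by
  have hne : Nonempty (Fin n) := ⟨⟨0, hn⟩⟩
  have hs : IsSimpleRing (L ⊗[K] A) := base_simple K L A
  have hinj : Function.Injective (repL ρ) := RingHom.injective (repL ρ).toRingHom
  have hfin : Module.finrank L (L ⊗[K] A) = Module.finrank L (Matrix (Fin n) (Fin n) L) := by
    rw [Module.finrank_baseChange, hd, Module.finrank_matrix, Module.finrank_self,
      Fintype.card_fin, mul_one, sq]
  refine ⟨hinj, ?_⟩
  exact (LinearMap.injective_iff_surjective_of_finrank_eq_finrank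
    (f := (repL ρ).toLinearMap) hfin).1 hinj

/-- the commutant of the representation consists of scalars: every matrix is an `L`-combination of
the `ρ a`, so `x` is central (`Matrix.subsemiringCenter_eq_scalar_map`, `Matrix.mem_center_iff`
and relatives, or `Algebra.IsCentral`). -/
theorem rep_center (ρ : A →ₐ[K] Matrix (Fin n) (Fin n) L) (hn : 0 < n)
    (hd : Module.finrank K A = n ^ 2) (x : Matrix (Fin n) (Fin n) L)
    (hx : ∀ a, x * ρ a = ρ a * x) : ∃ t : L, x = t • 1 := by
  have key : ∀ y : L ⊗[K] A, x * repL ρ y = repL ρ y * x := by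
    intro y
    induction y using TensorProduct.induction_on with
    | zero => rw [map_zero, mul_zero, zero_mul]
    | tmul t a => rw [repL_tmul, mul_smul_comm, smul_mul_assoc, hx]
    | add y z hy hz => rw [map_add, mul_add, add_mul, hy, hz]
  have hmem : x ∈ Set.range (Matrix.scalar (Fin n)) := by
    rw [Matrix.mem_range_scalar_iff_commute_single']
    intro i j
    obtain ⟨y, hy⟩ := (repL_bijective ρ hn hd).2 (Matrix.single i j 1)
    rw [← hy]
    exact (key y).symm
  obtain ⟨t, ht⟩ := hmem
  refine ⟨t, ?_⟩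
  rw [← ht, Matrix.smul_one_eq_diagonal]
  rfl

/-- two representations are conjugate: `repL ρ' ∘ (repL ρ)⁻¹` is an automorphism of the matrix
algebra, transported to `Module.End L (Fin n → L)` by `Matrix.toLinAlgEquiv'` it is inner by
`AlgEquiv.eq_linearEquivConjAlgEquiv`. -/
theorem rep_conj (ρ ρ' : A →ₐ[K] Matrix (Fin n) (Fin n) L) (hn : 0 < n)
    (hd : Module.finrank K A = n ^ 2) :
    ∃ u : Matrix (Fin n) (Fin n) L, IsUnit u ∧ ∀ a, u * ρ a = ρ' a * u := by
  let e : L ⊗[K] A ≃ₐ[L] Matrix (Fin n) (Fin n) L :=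
    AlgEquiv.ofBijective (repL ρ) (repL_bijective ρ hn hd)
  let e' : L ⊗[K] A ≃ₐ[L] Matrix (Fin n) (Fin n) L :=
    AlgEquiv.ofBijective (repL ρ') (repL_bijective ρ' hn hd)
  let m : Matrix (Fin n) (Fin n) L ≃ₐ[L] Module.End L (Fin n → L) := Matrix.toLinAlgEquiv'
  let g : Module.End L (Fin n → L) ≃ₐ[L] Module.End L (Fin n → L) :=
    m.symm.trans ((e.symm.trans e').trans m)
  obtain ⟨T, hT⟩ := g.eq_linearEquivConjAlgEquiv
  have he : ∀ a, e (1 ⊗ₜ a) = ρ a := fun a => by
    show repL ρ (1 ⊗ₜ a) = ρ a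
    rw [repL_tmul, one_smul]
  have he' : ∀ a, e' (1 ⊗ₜ a) = ρ' a := fun a => by
    show repL ρ' (1 ⊗ₜ a) = ρ' a
    rw [repL_tmul, one_smul]
  have hg : ∀ a, g (m (ρ a)) = m (ρ' a) := fun a => by
    show m (e' (e.symm (m.symm (m (ρ a))))) = m (ρ' a)
    rw [AlgEquiv.symm_apply_apply, ← he, AlgEquiv.symm_apply_apply, he']
  have hmul : (T.toLinearMap : Module.End L (Fin n → L)) * T.symm.toLinearMap = 1 := by
    refine LinearMap.ext fun v => ?_
    exact T.apply_symm_apply v
  have hmul' : (T.symm.toLinearMap : Module.End L (Fin n → L)) * T.toLinearMap = 1 := by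
    refine LinearMap.ext fun v => ?_
    exact T.symm_apply_apply v
  refine ⟨m.symm T.toLinearMap, ?_, fun a => ?_⟩
  · refine isUnit_iff_exists.2 ⟨m.symm T.symm.toLinearMap, ?_, ?_⟩
    · rw [← map_mul, hmul, map_one]
    · rw [← map_mul, hmul', map_one]
  · apply m.injective
    rw [map_mul, map_mul, AlgEquiv.apply_symm_apply, ← hg, hT]
    refine LinearMap.ext fun v => ?_
    simp only [Module.End.mul_apply, LinearEquiv.conjAlgEquiv_apply, LinearMap.comp_apply,
      LinearEquiv.coe_coe, LinearEquiv.symm_apply_apply]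

/-- linear independence over `L` of the images of a basis, and spanning -/
theorem rep_span (ρ : A →ₐ[K] Matrix (Fin n) (Fin n) L) (hn : 0 < n)
    (hd : Module.finrank K A = n ^ 2) {ι : Type} [Fintype ι] (a : Module.Basis ι K A)
    (x : Matrix (Fin n) (Fin n) L) : ∃! t : ι → L, x = ∑ i, t i • ρ (a i) := by
  let e : L ⊗[K] A ≃ₐ[L] Matrix (Fin n) (Fin n) L :=
    AlgEquiv.ofBijective (repL ρ) (repL_bijective ρ hn hd)
  let b : Module.Basis ι L (Matrix (Fin n) (Fin n) L) :=
    (Algebra.TensorProduct.basis L a).map e.toLinearEquiv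
  have hb : ∀ i, b i = ρ (a i) := fun i => by
    show e (Algebra.TensorProduct.basis L a i) = ρ (a i)
    rw [Algebra.TensorProduct.basis_apply]
    show repL ρ (1 ⊗ₜ a i) = ρ (a i)
    rw [repL_tmul, one_smul]
  refine ⟨b.equivFun x, ?_, fun t ht => ?_⟩
  · simp only [← hb]
    exact (b.sum_equivFun x).symm
  · simp only [← hb] at ht
    have h1 : x = b.equivFun.symm t := by rw [b.equivFun_symm_apply]; exact ht
    rw [h1, LinearEquiv.apply_symm_apply]

end

end BB37
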