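import Pool.Agent.Lib.MP_bb37eb_nt.Core.HasClass

/-! Base change of central simple algebras. -/

namespace BB37

open scoped TensorProduct

/-- left multiplication acts on the coordinates -/
theorem TensorSimple_left (K : Type) [Field K] (A B : Type) [Ring A] [Algebra K A] [Ring B]
    [Algebra K B] {κ : Type} [DecidableEq κ] (β : Module.Basis κ K B) (a : A) (u : A ⊗[K] B) (i : κ) :
    TensorProduct.equivFinsuppOfBasisRight β ((a ⊗ₜ[K] 1) * u) i =
      a * TensorProduct.equivFinsuppOfBasisRight β u i := by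
  induction u using TensorProduct.induction_on with
  | zero => simp
  | tmul x y =>
    rw [Algebra.TensorProduct.tmul_mul_tmul, one_mul,
      TensorProduct.equivFinsuppOfBasisRight_apply_tmul_apply,
      TensorProduct.equivFinsuppOfBasisRight_apply_tmul_apply, mul_smul_comm]
  | add x y hx hy => rw [mul_add, map_add, map_add, Finsupp.add_apply, Finsupp.add_apply, hx, hy,
      mul_add]

theorem TensorSimple_right (K : Type) [Field K] (A B : Type) [Ring A] [Algebra K A] [Ring B]
    [Algebra K B] {κ : Type} [DecidableEq κ] (β : Module.Basis κ K B) (a : A) (u : A ⊗[K] B) (i : κ) :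
    TensorProduct.equivFinsuppOfBasisRight β (u * (a ⊗ₜ[K] 1)) i =
      TensorProduct.equivFinsuppOfBasisRight β u i * a := by
  induction u using TensorProduct.induction_on with
  | zero => simp
  | tmul x y =>
    rw [Algebra.TensorProduct.tmul_mul_tmul, mul_one,
      TensorProduct.equivFinsuppOfBasisRight_apply_tmul_apply,
      TensorProduct.equivFinsuppOfBasisRight_apply_tmul_apply, smul_mul_assoc]
  | add x y hx hy => rw [add_mul, map_add, map_add, Finsupp.add_apply, Finsupp.add_apply, hx, hy,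
      add_mul]

/-- an element which commutes with `A ⊗ 1` is of the form `1 ⊗ b` -/
theorem TensorSimple_comm (K : Type) [Field K] (A B : Type) [Ring A] [Algebra K A]
    [Algebra.IsCentral K A] [Ring B] [Algebra K B] (v : A ⊗[K] B)
    (h : ∀ a : A, (a ⊗ₜ[K] 1) * v = v * (a ⊗ₜ[K] 1)) : ∃ b : B, v = 1 ⊗ₜ[K] b := by
  have h1 : v ∈ Subalgebra.centralizer K
      ((Algebra.TensorProduct.includeLeft : A →ₐ[K] A ⊗[K] B).range : Set (A ⊗[K] B)) := by
    rw [Subalgebra.mem_centralizer_iff]
    rintro _ ⟨a, rfl⟩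
    exact h a
  rw [Subalgebra.centralizer_coe_range_includeLeft_eq_center_tensorProduct] at h1
  have key : ∀ w : Subalgebra.center K A ⊗[K] B, ∃ b : B,
      Algebra.TensorProduct.map (Subalgebra.center K A).val (AlgHom.id K B) w = 1 ⊗ₜ[K] b := by
    intro w
    induction w using TensorProduct.induction_on with
    | zero => exact ⟨0, by simp⟩
    | tmul x y =>
      have hx := Algebra.IsCentral.out (K := K) (D := A) x.2
      obtain ⟨k, hk⟩ := Algebra.mem_bot.1 hx
      refine ⟨k • y, ?_⟩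
      show (x : A) ⊗ₜ[K] y = _
      rw [← hk, Algebra.algebraMap_eq_smul_one, TensorProduct.smul_tmul]
    | add x y hx hy =>
      obtain ⟨b, hb⟩ := hx
      obtain ⟨c, hc⟩ := hy
      exact ⟨b + c, by rw [map_add, hb, hc, TensorProduct.tmul_add]⟩
  obtain ⟨w, rfl⟩ := h1
  exact key w

/-- `A` central simple over `K`, `B` simple: then `A ⊗ B` is simple.
Proof. Choose a `K`-basis `β` of `B` (`Module.Free.chooseBasis` or `Basis.ofVectorSpace`); then
`1 ⊗ β j` is a basis of the left `A`-module `A ⊗ B` (`Algebra.TensorProduct.basis` or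
`Basis.baseChange`, `A ⊗[K] B` as a left `A`-module works for non-commutative `A`, see
`TensorProduct.equivFinsuppOfBasisRight`). Let `I` be a nonzero two-sided ideal
(`TwoSidedIdeal`) and `u ∈ I` nonzero with support of minimal cardinality, `j₀` in the support,
with coefficient `a₁ ≠ 0`. `A` is simple, hence `1 = ∑ x_k a₁ y_k`; replace `u` by
`∑ (x_k ⊗ 1) u (y_k ⊗ 1)`: its support is contained in the support of `u` and the coefficient at
`j₀` is `1`. For `a : A` the element `(a ⊗ 1) u - u (a ⊗ 1)` has smaller support, so it is zero: all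
coefficients of `u` are central, hence in `K`, so `u = 1 ⊗ b`, `b ≠ 0`. `B` is simple, hence
`1 ⊗ 1 ∈ I`. -/
theorem tensor_simple (K : Type) [Field K] (A B : Type) [Ring A] [Algebra K A]
    [Algebra.IsCentral K A] [IsSimpleRing A] [Ring B] [Algebra K B] [IsSimpleRing B] :
    IsSimpleRing (A ⊗[K] B) := by
  classical
  have hnA : Nontrivial A := inferInstance
  have hnB : Nontrivial B := inferInstance
  set β := Module.Free.chooseBasis K B with hβ
  set e := TensorProduct.equivFinsuppOfBasisRight (M := A) β with he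
  have hnt : Nontrivial (A ⊗[K] B) := by
    refine ⟨⟨1, 0, fun h => ?_⟩⟩
    have h1 : (1 : A ⊗[K] B) = (1 : A) ⊗ₜ[K] (1 : B) := rfl
    obtain ⟨i, hi⟩ : ∃ i, β.repr 1 i ≠ 0 := by
      by_contra hcon
      push Not at hcon
      have h2 : β.repr (1 : B) = 0 := Finsupp.ext hcon
      exact one_ne_zero (β.repr.map_eq_zero_iff.1 h2)
    have h3 : e 1 i = β.repr 1 i • (1 : A) := by
      rw [h1, he, TensorProduct.equivFinsuppOfBasisRight_apply_tmul_apply]
    rw [h, map_zero, Finsupp.zero_apply] at h3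
    rcases smul_eq_zero.1 h3.symm with h4 | h4
    · exact hi h4
    · exact one_ne_zero h4
  refine ⟨{ exists_pair_ne := Nontrivial.exists_pair_ne, eq_bot_or_eq_top := fun I => ?_ }⟩
  by_cases hI : I = ⊥
  · exact Or.inl hI
  right
  obtain ⟨u₀, hu₀, hu₀0⟩ : ∃ u ∈ I, u ≠ 0 := by
    by_contra hcon
    push Not at hcon
    exact hI (le_bot_iff.1 fun x hx => by
      rw [hcon x hx]
      exact zero_mem _)
  obtain ⟨u, ⟨huI, hu0⟩, hmin⟩ := (measure fun u : A ⊗[K] B => (e u).support.card).wf.has_min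
    {u | u ∈ I ∧ u ≠ 0} ⟨u₀, hu₀, hu₀0⟩
  have hmin' : ∀ v ∈ I, (e v).support.card < (e u).support.card → v = 0 := by
    intro v hv hlt
    by_contra hv0
    exact hmin v ⟨hv, hv0⟩ hlt
  obtain ⟨j₀, hj₀⟩ : ∃ j, e u j ≠ 0 := by
    by_contra hcon
    push Not at hcon
    have h2 : e u = 0 := Finsupp.ext hcon
    exact hu0 (e.map_eq_zero_iff.1 h2)
  have hl : ∀ (a : A) (v : A ⊗[K] B) (i), e ((a ⊗ₜ[K] 1) * v) i = a * e v i :=
    fun a v i => TensorSimple_left K A B β a v i
  have hr : ∀ (a : A) (v : A ⊗[K] B) (i), e (v * (a ⊗ₜ[K] 1)) i = e v i * a :=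
    fun a v i => TensorSimple_right K A B β a v i
  -- the two-sided ideal of the possible coefficients
  let J : TwoSidedIdeal A := TwoSidedIdeal.mk'
    {a | ∃ v ∈ I, (∀ i, e u i = 0 → e v i = 0) ∧ e v j₀ = a}
    ⟨0, zero_mem _, fun i _ => by simp, by simp⟩
    (by
      rintro x y ⟨v, hv, h1, h2⟩ ⟨v', hv', h1', h2'⟩
      refine ⟨v + v', add_mem hv hv', fun i hi => ?_, ?_⟩
      · rw [map_add, Finsupp.add_apply, h1 i hi, h1' i hi, add_zero]
      · rw [map_add, Finsupp.add_apply, h2, h2'])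
    (by
      rintro x ⟨v, hv, h1, h2⟩
      refine ⟨-v, neg_mem hv, fun i hi => ?_, ?_⟩
      · rw [map_neg, Finsupp.neg_apply, h1 i hi, neg_zero]
      · rw [map_neg, Finsupp.neg_apply, h2])
    (by
      rintro x y ⟨v, hv, h1, h2⟩
      refine ⟨(x ⊗ₜ[K] 1) * v, I.mul_mem_left _ _ hv, fun i hi => ?_, ?_⟩
      · rw [hl, h1 i hi, mul_zero]
      · rw [hl, h2])
    (by
      rintro x y ⟨v, hv, h1, h2⟩
      refine ⟨v * (y ⊗ₜ[K] 1), I.mul_mem_right _ _ hv, fun i hi => ?_, ?_⟩
      · rw [hr, h1 i hi, zero_mul]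
      · rw [hr, h2])
  have hJ : ∀ a, a ∈ J ↔ ∃ v ∈ I, (∀ i, e u i = 0 → e v i = 0) ∧ e v j₀ = a :=
    fun a => TwoSidedIdeal.mem_mk' _ _ _ _ _ _ _
  have hJtop : J = ⊤ := by
    rcases eq_bot_or_eq_top J with h | h
    · exfalso
      have h1 : e u j₀ ∈ J := (hJ _).2 ⟨u, huI, fun i hi => hi, rfl⟩
      rw [h] at h1
      exact hj₀ h1
    · exact h
  have h1J : (1 : A) ∈ J := by rw [hJtop]; exact TwoSidedIdeal.mem_top _
  obtain ⟨v, hvI, hsupp, hv1⟩ := (hJ 1).1 h1J
  have hcomm : ∀ a : A, (a ⊗ₜ[K] 1) * v = v * (a ⊗ₜ[K] 1) := by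
    intro a
    rw [← sub_eq_zero]
    refine hmin' _ (sub_mem (I.mul_mem_left _ _ hvI) (I.mul_mem_right _ _ hvI)) ?_
    refine Finset.card_lt_card ?_
    rw [Finset.ssubset_iff_of_subset]
    · refine ⟨j₀, Finsupp.mem_support_iff.2 hj₀, ?_⟩
      rw [Finsupp.notMem_support_iff, map_sub, Finsupp.sub_apply, hl, hr, hv1, mul_one, one_mul,
        sub_self]
    · intro i hi
      rw [Finsupp.mem_support_iff] at hi ⊢
      intro h
      apply hi
      rw [map_sub, Finsupp.sub_apply, hl, hr, hsupp i h, mul_zero, zero_mul, sub_self]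
  obtain ⟨b, rfl⟩ := TensorSimple_comm K A B v hcomm
  have hb0 : b ≠ 0 := by
    rintro rfl
    rw [TensorProduct.tmul_zero, map_zero, Finsupp.zero_apply] at hv1
    exact zero_ne_one hv1
  have hcomap : TwoSidedIdeal.comap
      (Algebra.TensorProduct.includeRight : B →ₐ[K] A ⊗[K] B) I = ⊤ := by
    rcases eq_bot_or_eq_top (TwoSidedIdeal.comap
      (Algebra.TensorProduct.includeRight : B →ₐ[K] A ⊗[K] B) I) with h | h
    · exfalso
      have h1 : b ∈ TwoSidedIdeal.comap
          (Algebra.TensorProduct.includeRight : B →ₐ[K] A ⊗[K] B) I := by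
        rw [TwoSidedIdeal.mem_comap]
        exact hvI
      rw [h] at h1
      exact hb0 h1
    · exact h
  have h1 : (1 : A ⊗[K] B) ∈ I := by
    have h2 : (1 : B) ∈ TwoSidedIdeal.comap
        (Algebra.TensorProduct.includeRight : B →ₐ[K] A ⊗[K] B) I := by
      rw [hcomap]; exact TwoSidedIdeal.mem_top _
    rw [TwoSidedIdeal.mem_comap] at h2
    exact h2
  refine top_le_iff.1 fun x _ => ?_
  have := I.mul_mem_left x 1 h1
  rwa [mul_one] at this

/-- from `tensor_simple` by `Algebra.TensorProduct.comm` and `IsSimpleRing.of_ringEquiv` -/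
theorem base_simple (K K' : Type) [Field K] [Field K'] [Algebra K K'] (A : Type) [Ring A]
    [Algebra K A] [Algebra.IsCentral K A] [IsSimpleRing A] : IsSimpleRing (K' ⊗[K] A) :=
  IsSimpleRing.of_ringEquiv (Algebra.TensorProduct.comm K A K').toRingEquiv
    (tensor_simple K A K')

/-- The base change of a central algebra is central: a central element `u = ∑ β j ⊗ a j` (`β` a
`K`-basis of `K'`) commutes with `1 ⊗ a`, so all `a j` are central in `A`, hence in `K`. (Or use
`Subalgebra.centralizer_coe_range_includeRight_eq_center_tensorProduct` and relatives in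
`Mathlib.Algebra.Algebra.Subalgebra.Centralizer`.) -/
theorem base_central (K K' : Type) [Field K] [Field K'] [Algebra K K'] (A : Type) [Ring A]
    [Algebra K A] [Algebra.IsCentral K A] : Algebra.IsCentral K' (K' ⊗[K] A) := by
  refine ⟨fun u hu => ?_⟩
  rw [Subalgebra.mem_center_iff] at hu
  obtain ⟨b, hb⟩ := TensorSimple_comm K A K' (Algebra.TensorProduct.comm K K' A u) (by
    intro a
    have h := congrArg (Algebra.TensorProduct.comm K K' A) (hu (1 ⊗ₜ[K] a))
    rw [map_mul, map_mul, Algebra.TensorProduct.comm_tmul] at h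
    exact h)
  rw [Algebra.mem_bot]
  refine ⟨b, ?_⟩
  have h := congrArg (Algebra.TensorProduct.comm K K' A).symm hb
  rw [AlgEquiv.symm_apply_apply] at h
  rw [h]
  rfl

theorem BR_baseChange_csa (K : Type) [Field K] (K' : Type) [Field K'] [Algebra K K']
    (A : CSA.{0, 0} K) : Algebra.IsCentral K' (K' ⊗[K] A) ∧ IsSimpleRing (K' ⊗[K] A) ∧
      FiniteDimensional K' (K' ⊗[K] A) :=
  ⟨base_central K K' A, base_simple K K' A, inferInstance⟩

end BB37
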