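import Pool.Agent.Lib.MP_bb37eb_nt.BR.TwistBij
import Pool.Agent.Lib.MP_bb37eb_nt.BR.AzuDescent

/-! The twisted algebra is Azumaya. -/

namespace BB37

open scoped TensorProduct

/-- `IsAzumaya.matrix` (the index type `Γ` is nonempty) and `IsAzumaya.of_AlgEquiv` with the
inverse of `AlgEquiv.ofBijective (twL c) _` give the hypothesis of `azumaya_of_base`. -/
theorem twAlg_azumaya {R S Γ : Type} [CommRing R] [CommRing S] [Algebra R S] [Group Γ] [Fintype Γ]
    [DecidableEq Γ] [MulSemiringAction Γ S] [SMulCommClass Γ R S] {c : Γ → Γ → Sˣ}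
    (h : GalRing R S Γ) (hc : IsCoc c) : IsAzumaya R (twAlg c R) := by
  obtain ⟨π, hπ⟩ := h.exists_retract
  have h1 : Module.Finite R (twAlg c R) := twAlg_finite h hc
  have h2 : Module.Projective R (twAlg c R) := twAlg_projective h hc
  have h3 : FaithfulSMul R (twAlg c R) := twAlg_faithful h
  have hM : IsAzumaya S (Matrix Γ Γ S) := IsAzumaya.matrix S Γ
  have hA : IsAzumaya S (S ⊗[R] twAlg c R) :=
    IsAzumaya.of_AlgEquiv S (Matrix Γ Γ S) (S ⊗[R] twAlg c R)
      (AlgEquiv.ofBijective (twL (R := R) c) (twL_bijective h hc)).symm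
  exact azumaya_of_base π (twAlg c R) hπ hA.bij

end BB37
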