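import Pool.Agent.Lib.MP_bb37eb_nt.BR.TwistDefs

/-! Galois descent for the twisted algebra. -/

namespace BB37

open scoped TensorProduct

section

variable {R S Γ : Type} [CommRing R] [CommRing S] [Algebra R S] [Group Γ] [Fintype Γ]
  [DecidableEq Γ] [MulSemiringAction Γ S] [SMulCommClass Γ R S] (c : Γ → Γ → Sˣ)

/-- the natural map from `S ⊗ A` to the matrices -/
noncomputable def twL : S ⊗[R] twAlg c R →ₐ[S] Matrix Γ Γ S :=
  Algebra.TensorProduct.lift (Algebra.ofId S (Matrix Γ Γ S)) (twAlg c R).val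
    fun x y => Algebra.commutes x (y : Matrix Γ Γ S)

theorem twL_tmul (s : S) (a : twAlg c R) : twL c (s ⊗ₜ[R] a) = s • (a : Matrix Γ Γ S) := by
  have h : twL c (s ⊗ₜ[R] a) =
      Algebra.ofId S (Matrix Γ Γ S) s * (twAlg c R).val a :=
    Algebra.TensorProduct.lift_tmul _ _ _ s a
  rw [h, Algebra.ofId_apply, Subalgebra.coe_val, Algebra.smul_def]

variable {c}

private theorem TwistBij_rsmul (γ : Γ) (r : R) (m : Matrix Γ Γ S) :
    twAct c γ (r • m) = r • twAct c γ m := by
  have e : ∀ m : Matrix Γ Γ S, r • m = algebraMap R S r • m := fun m => by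
    rw [algebraMap_smul]
  rw [e, twAct_smul, smul_algebraMap, ← e]

private theorem TwistBij_zero (γ : Γ) : twAct c γ (0 : Matrix Γ Γ S) = 0 := by
  have h := twAct_smul c γ 0 0
  rwa [smul_zero, smul_zero, zero_smul] at h

/-- the average, as a linear map to the twisted algebra -/
private noncomputable def TwistBij_T (hc : IsCoc c) : Matrix Γ Γ S →ₗ[R] twAlg c R where
  toFun m := ⟨∑ γ, twAct c γ m, fun γ => twAct_sum hc γ m⟩
  map_add' a b := by
    apply Subtype.ext
    change ∑ γ, twAct c γ (a + b) = ∑ γ, twAct c γ a + ∑ γ, twAct c γ b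
    rw [← Finset.sum_add_distrib]
    exact Finset.sum_congr rfl fun γ _ => twAct_add c γ a b
  map_smul' r a := by
    apply Subtype.ext
    change ∑ γ, twAct c γ (r • a) = r • ∑ γ, twAct c γ a
    rw [Finset.smul_sum]
    exact Finset.sum_congr rfl fun γ _ => TwistBij_rsmul γ r a

private theorem TwistBij_T_coe (hc : IsCoc c) (m : Matrix Γ Γ S) :
    ((TwistBij_T (R := R) hc m : twAlg c R) : Matrix Γ Γ S) = ∑ γ, twAct c γ m := rfl

/-- the inverse of `twL` for a choice of coordinates -/
private noncomputable def TwistBij_inv (hc : IsCoc c) {n : ℕ} (x y : Fin n → S) :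
    Matrix Γ Γ S →+ S ⊗[R] twAlg c R where
  toFun m := ∑ i, x i ⊗ₜ[R] TwistBij_T hc (y i • m)
  map_zero' := by
    refine Finset.sum_eq_zero fun i _ => ?_
    rw [smul_zero, map_zero, TensorProduct.tmul_zero]
  map_add' a b := by
    rw [← Finset.sum_add_distrib]
    refine Finset.sum_congr rfl fun i _ => ?_
    rw [smul_add, map_add, TensorProduct.tmul_add]

private theorem TwistBij_inv_apply (hc : IsCoc c) {n : ℕ} (x y : Fin n → S)
    (m : Matrix Γ Γ S) : TwistBij_inv (R := R) hc x y m =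
      ∑ i, x i ⊗ₜ[R] TwistBij_T hc (y i • m) := rfl

private theorem TwistBij_right (hc : IsCoc c) {n : ℕ} (x y : Fin n → S)
    (hxy : ∀ γ : Γ, ∑ i, x i * γ • y i = if γ = 1 then 1 else 0) (m : Matrix Γ Γ S) :
    twL (R := R) c (TwistBij_inv hc x y m) = m := by
  rw [TwistBij_inv_apply, map_sum]
  have e1 : ∀ i, twL (R := R) c (x i ⊗ₜ[R] TwistBij_T hc (y i • m)) =
      ∑ γ : Γ, (x i * γ • y i) • twAct c γ m := by
    intro i
    rw [twL_tmul, TwistBij_T_coe, Finset.smul_sum]
    refine Finset.sum_congr rfl fun γ _ => ?_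
    rw [twAct_smul, smul_smul]
  rw [Finset.sum_congr rfl fun i _ => e1 i, Finset.sum_comm]
  have e2 : ∀ γ : Γ, ∑ i, (x i * γ • y i) • twAct c γ m =
      if γ = 1 then twAct c γ m else 0 := by
    intro γ
    rw [← Finset.sum_smul, hxy γ]
    split_ifs
    · rw [one_smul]
    · rw [zero_smul]
  rw [Finset.sum_congr rfl fun γ _ => e2 γ, Finset.sum_ite_eq' Finset.univ (1 : Γ),
    if_pos (Finset.mem_univ _), twAct_one hc]

private theorem TwistBij_left (h : GalRing R S Γ) (hc : IsCoc c) {n : ℕ} (x y : Fin n → S)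
    (hxy : ∀ γ : Γ, ∑ i, x i * γ • y i = if γ = 1 then 1 else 0) (t : S ⊗[R] twAlg c R) :
    TwistBij_inv hc x y (twL (R := R) c t) = t := by
  obtain ⟨tr, htr⟩ := h.exists_tr
  induction t using TensorProduct.induction_on with
  | zero => rw [map_zero, map_zero]
  | add a b ha hb => rw [map_add, map_add, ha, hb]
  | tmul s a =>
    rw [twL_tmul, TwistBij_inv_apply]
    have e1 : ∀ i, TwistBij_T (R := R) hc (y i • s • (a : Matrix Γ Γ S)) =
        tr (y i * s) • a := by
      intro i
      apply Subtype.ext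
      rw [TwistBij_T_coe, smul_smul]
      have e2 : ((tr (y i * s) • a : twAlg c R) : Matrix Γ Γ S) =
          algebraMap R S (tr (y i * s)) • (a : Matrix Γ Γ S) := by
        rw [algebraMap_smul]
        rfl
      rw [e2, htr, Finset.sum_smul]
      refine Finset.sum_congr rfl fun γ _ => ?_
      rw [twAct_smul, mem_twAlg.1 a.2 γ]
    have e3 : ∀ i, x i ⊗ₜ[R] TwistBij_T (R := R) hc (y i • s • (a : Matrix Γ Γ S)) =
        (x i * ∑ γ : Γ, γ • (y i * s)) ⊗ₜ[R] a := by
      intro i
      rw [e1, TensorProduct.tmul_smul, TensorProduct.smul_tmul', ← htr, mul_comm (x i),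
        ← Algebra.smul_def]
    rw [Finset.sum_congr rfl fun i _ => e3 i, ← TensorProduct.sum_tmul,
      GalRing.expand n x y hxy s]

/-- The inverse is `m ↦ ∑ i, x i ⊗ (∑ γ, twAct γ (y i • m))`. Surjective:
`∑ i, x i • ∑ γ, twAct γ (y i • m) = ∑ γ, (∑ i, x i * γ • y i) • twAct γ m = m`. Injective: for
`t = ∑ s_j ⊗ a_j` one has `∑ i, x i ⊗ (∑ γ, twAct γ (y i • ∑ s_j • a_j))
= ∑ i, ∑ j, x i ⊗ (Tr (y i * s_j) • a_j) = ∑ j, (∑ i, x i * Tr (y i * s_j)) ⊗ a_j = t`
(`GalRing.expand`, `GalRing.exists_tr`). -/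
theorem twL_bijective (h : GalRing R S Γ) (hc : IsCoc c) :
    Function.Bijective (twL (R := R) c) := by
  obtain ⟨n, x, y, hxy⟩ := h.coord
  refine ⟨fun a b hab => ?_, fun m => ⟨_, TwistBij_right hc x y hxy m⟩⟩
  rw [← TwistBij_left h hc x y hxy a, ← TwistBij_left h hc x y hxy b, hab]

/-- the retraction of the matrices onto the twisted algebra -/
private theorem TwistBij_retract (h : GalRing R S Γ) (hc : IsCoc c) :
    ∃ p : Matrix Γ Γ S →ₗ[R] twAlg c R,
      p ∘ₗ (twAlg c R).val.toLinearMap = LinearMap.id := by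
  obtain ⟨π, hπ⟩ := h.exists_retract
  let e : (S ⊗[R] twAlg c R) ≃ₗ[R] Matrix Γ Γ S :=
    LinearEquiv.ofBijective ((twL (R := R) c).toLinearMap.restrictScalars R)
      (twL_bijective h hc)
  refine ⟨(TensorProduct.lid R (twAlg c R)).toLinearMap ∘ₗ (LinearMap.rTensor (twAlg c R) π) ∘ₗ
    e.symm.toLinearMap, ?_⟩
  apply LinearMap.ext
  intro a
  have e1 : e (1 ⊗ₜ[R] a) = (a : Matrix Γ Γ S) := by
    change twL (R := R) c (1 ⊗ₜ[R] a) = _
    rw [twL_tmul, one_smul]
  have e2 : e.symm (a : Matrix Γ Γ S) = 1 ⊗ₜ[R] a := by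
    rw [← e1, LinearEquiv.symm_apply_apply]
  change TensorProduct.lid R (twAlg c R) (LinearMap.rTensor (twAlg c R) π
    (e.symm (a : Matrix Γ Γ S))) = a
  rw [e2, LinearMap.rTensor_tmul, hπ, TensorProduct.lid_tmul, one_smul]

omit [Group Γ] [DecidableEq Γ] in
private theorem TwistBij_proj (M : Type) [AddCommGroup M] [Module R M] [Module.Projective R M] :
    Module.Projective R (Γ → M) :=
  Module.Projective.of_equiv (DFinsupp.linearEquivFunOnFintype (R := R) (ι := Γ)
    (M := fun _ => M))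

/-- `Module.Finite`: the `R`-linear map `m ↦ ∑ γ, twAct γ (y • m)`, `Tr y = 1`, is a retraction of
the matrices onto the twisted algebra, and the matrices are finite over `R` (`GalRing.finite`);
`y` comes from the proof of `GalRing.exists_retract`, or use `azRet`-free argument: `S ⊗ A` is
finite over `S`, hence over `R`, and `A` is a retract of it by `π ⊗ id`
(`GalRing.exists_retract`). -/
theorem twAlg_finite (h : GalRing R S Γ) (hc : IsCoc c) : Module.Finite R (twAlg c R) := by
  obtain ⟨p, hp⟩ := TwistBij_retract h hc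
  have := h.finite
  have h1 : Module.Finite R (Γ → Γ → S) := inferInstance
  have : Module.Finite R (Matrix Γ Γ S) := h1
  refine Module.Finite.of_surjective p fun a => ⟨(a : Matrix Γ Γ S), ?_⟩
  exact LinearMap.congr_fun hp a

/-- as for `twAlg_finite`: a retract of a projective module
(`Module.Projective.of_split`, `GalRing.projective`) -/
theorem twAlg_projective (h : GalRing R S Γ) (hc : IsCoc c) :
    Module.Projective R (twAlg c R) := by
  obtain ⟨p, hp⟩ := TwistBij_retract h hc
  have := h.projective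
  have h1 : Module.Projective R (Γ → S) := TwistBij_proj (Γ := Γ) S
  have h2 : Module.Projective R (Γ → Γ → S) := TwistBij_proj (Γ := Γ) (Γ → S)
  have : Module.Projective R (Matrix Γ Γ S) := h2
  exact Module.Projective.of_split (twAlg c R).val.toLinearMap p hp

/-- `r • 1 = r' • 1` implies `r = r'` by `inj` (`Γ` is nonempty) -/
theorem twAlg_faithful (h : GalRing R S Γ) : FaithfulSMul R (twAlg c R) := by
  refine ⟨fun {r r'} hr => ?_⟩
  have h1 := congrArg (fun a : twAlg c R => (a : Matrix Γ Γ S) 1 1) (hr 1)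
  have e : ∀ r : R, ((r • (1 : twAlg c R) : twAlg c R) : Matrix Γ Γ S) 1 1 = algebraMap R S r := by
    intro r
    change (r • (1 : Matrix Γ Γ S)) 1 1 = _
    rw [Matrix.smul_apply, Matrix.one_apply_eq, Algebra.algebraMap_eq_smul_one]
  simp only [e] at h1
  exact h.inj h1

end

end BB37
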