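import Pool.Agent.Lib.MP_bb37eb_nt.BR.GalRing

/-! The twisted matrix algebra of a 2-cocycle of a Galois extension of rings. -/

namespace BB37

section

variable {S Γ : Type} [CommRing S] [Group Γ] [Fintype Γ] [DecidableEq Γ] [MulSemiringAction Γ S]

/-- entrywise action -/
noncomputable def actM (γ : Γ) : Matrix Γ Γ S →+* Matrix Γ Γ S :=
  (MulSemiringAction.toRingHom Γ S γ).mapMatrix

theorem actM_apply (γ : Γ) (m : Matrix Γ Γ S) (i j : Γ) : actM γ m i j = γ • m i j := rfl

variable (c : Γ → Γ → Sˣ)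

/-- the matrix `∑ δ, c γ δ E (γ δ) δ` -/
def twP (γ : Γ) : Matrix Γ Γ S := Matrix.of fun α δ => if α = γ * δ then (c γ δ : S) else 0

/-- its inverse -/
def twQ (γ : Γ) : Matrix Γ Γ S :=
  Matrix.of fun δ α => if α = γ * δ then ((c γ δ)⁻¹ : Sˣ).1 else 0

theorem twP_mul_twQ (γ : Γ) : twP c γ * twQ c γ = 1 := by
  ext α β
  rw [Matrix.mul_apply, Finset.sum_eq_single (γ⁻¹ * α)]
  · simp only [twP, twQ, Matrix.of_apply, mul_inv_cancel_left, if_true, Matrix.one_apply]
    by_cases h : α = β
    · rw [if_pos h.symm, if_pos h, Units.mul_inv]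
    · rw [if_neg (fun e => h e.symm), if_neg h, mul_zero]
  · intro δ _ hδ
    have : ¬ α = γ * δ := fun e => hδ (by rw [e, inv_mul_cancel_left])
    simp only [twP, Matrix.of_apply, if_neg this, zero_mul]
  · intro h
    exact absurd (Finset.mem_univ _) h

theorem twQ_mul_twP (γ : Γ) : twQ c γ * twP c γ = 1 := by
  ext δ ε
  rw [Matrix.mul_apply, Finset.sum_eq_single (γ * δ)]
  · simp only [twP, twQ, Matrix.of_apply, if_true, Matrix.one_apply, mul_right_inj]
    by_cases h : δ = ε
    · subst h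
      rw [if_pos rfl, if_pos rfl, Units.inv_mul]
    · rw [if_neg h, if_neg h, mul_zero]
  · intro α _ hα
    simp only [twQ, Matrix.of_apply, if_neg hα, zero_mul]
  · intro h
    exact absurd (Finset.mem_univ _) h

/-- the cocycle identity, in the form used throughout -/
def IsCoc (c : Γ → Γ → Sˣ) : Prop :=
  ∀ a b d : Γ, (c (a * b) d : S) * c a b = a • (c b d : S) * c a (b * d)

variable {c}

theorem twP_mul (hc : IsCoc c) (γ δ : Γ) :
    twP c γ * actM γ (twP c δ) = (c γ δ : S) • twP c (γ * δ) := by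
  ext α ε
  rw [Matrix.mul_apply, Finset.sum_eq_single (δ * ε)]
  · simp only [actM_apply, twP, Matrix.of_apply, if_true, Matrix.smul_apply, smul_eq_mul,
      mul_assoc]
    by_cases h : α = γ * (δ * ε)
    · rw [if_pos h, if_pos h]
      have := hc γ δ ε
      rw [mul_comm (c γ δ : S), this, mul_comm]
    · rw [if_neg h, if_neg h, zero_mul, mul_zero]
  · intro β _ hβ
    simp only [actM_apply, twP, Matrix.of_apply, if_neg hβ, smul_zero, mul_zero]
  · intro h
    exact absurd (Finset.mem_univ _) h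

/-- `c 1 1 = c 1 δ` by the cocycle identity with `a = b = 1` -/
theorem twP_one (hc : IsCoc c) : twP c 1 = (c 1 1 : S) • (1 : Matrix Γ Γ S) := by
  ext α δ
  simp only [twP, Matrix.of_apply, one_mul, Matrix.smul_apply, Matrix.one_apply, smul_eq_mul]
  by_cases h : α = δ
  · rw [if_pos h, if_pos h, mul_one]
    have h1 := hc 1 1 δ
    rw [one_mul, one_mul, one_smul] at h1
    exact ((c 1 δ).isUnit.mul_left_cancel h1).symm
  · rw [if_neg h, if_neg h, mul_zero]

variable (c)

/-- the twisted action -/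
noncomputable def twAct (γ : Γ) (m : Matrix Γ Γ S) : Matrix Γ Γ S :=
  twP c γ * actM γ m * twQ c γ

theorem twAct_add (γ : Γ) (m m' : Matrix Γ Γ S) :
    twAct c γ (m + m') = twAct c γ m + twAct c γ m' := by
  simp only [twAct, map_add, mul_add, add_mul]

theorem twAct_mul (γ : Γ) (m m' : Matrix Γ Γ S) :
    twAct c γ (m * m') = twAct c γ m * twAct c γ m' := by
  have h := twQ_mul_twP c γ
  simp only [twAct, map_mul]
  calc twP c γ * (actM γ m * actM γ m') * twQ c γ
      = twP c γ * actM γ m * 1 * actM γ m' * twQ c γ := by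
        rw [mul_one]; simp only [mul_assoc]
    _ = twP c γ * actM γ m * (twQ c γ * twP c γ) * actM γ m' * twQ c γ := by rw [h]
    _ = _ := by simp only [mul_assoc]

theorem twAct_smul (γ : Γ) (s : S) (m : Matrix Γ Γ S) :
    twAct c γ (s • m) = (γ • s) • twAct c γ m := by
  have h : actM γ (s • m) = (γ • s) • actM γ m := by
    ext i j
    rw [actM_apply, Matrix.smul_apply, Matrix.smul_apply, actM_apply, smul_eq_mul, smul_eq_mul,
      smul_mul']
  simp only [twAct, h, Matrix.mul_smul, Matrix.smul_mul]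

theorem twAct_one_mat (γ : Γ) : twAct c γ 1 = 1 := by
  rw [twAct, map_one, mul_one, twP_mul_twQ]

variable {c}

theorem twAct_twAct (hc : IsCoc c) (γ δ : Γ) (m : Matrix Γ Γ S) :
    twAct c γ (twAct c δ m) = twAct c (γ * δ) m := by
  have h1 := twP_mul hc γ δ
  have hact : ∀ x : Matrix Γ Γ S, actM γ (actM δ x) = actM (γ * δ) x := by
    intro x
    ext i j
    rw [actM_apply, actM_apply, actM_apply, mul_smul]
  -- the product of the inverses
  have h2 : (c γ δ : S) • (actM γ (twQ c δ) * twQ c γ) = twQ c (γ * δ) := by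
    have e1 : actM γ (twQ c δ) * twQ c γ * (twP c γ * actM γ (twP c δ)) = 1 := by
      calc actM γ (twQ c δ) * twQ c γ * (twP c γ * actM γ (twP c δ))
          = actM γ (twQ c δ) * (twQ c γ * twP c γ) * actM γ (twP c δ) := by
            simp only [mul_assoc]
        _ = actM γ (twQ c δ * twP c δ) := by rw [twQ_mul_twP, mul_one, ← map_mul]
        _ = 1 := by rw [twQ_mul_twP, map_one]
    rw [h1] at e1
    calc (c γ δ : S) • (actM γ (twQ c δ) * twQ c γ)
        = (c γ δ : S) • (actM γ (twQ c δ) * twQ c γ) * (twP c (γ * δ) * twQ c (γ * δ)) := by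
          rw [twP_mul_twQ, mul_one]
      _ = actM γ (twQ c δ) * twQ c γ * ((c γ δ : S) • twP c (γ * δ)) * twQ c (γ * δ) := by
          simp only [Matrix.smul_mul, Matrix.mul_smul, mul_assoc]
      _ = twQ c (γ * δ) := by rw [e1, one_mul]
  calc twAct c γ (twAct c δ m)
      = twP c γ * actM γ (twP c δ) * actM (γ * δ) m * (actM γ (twQ c δ) * twQ c γ) := by
        simp only [twAct, map_mul, hact, mul_assoc]
    _ = twP c (γ * δ) * actM (γ * δ) m * ((c γ δ : S) • (actM γ (twQ c δ) * twQ c γ)) := by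
        rw [h1]; simp only [Matrix.smul_mul, Matrix.mul_smul, mul_assoc]
    _ = _ := by rw [h2, twAct]

theorem twAct_one (hc : IsCoc c) (m : Matrix Γ Γ S) : twAct c 1 m = m := by
  have h1 : (c 1 1 : S) • twQ c 1 = 1 := by
    have := twP_mul_twQ c 1
    rwa [twP_one hc, Matrix.smul_mul, one_mul] at this
  have h2 : actM (1 : Γ) m = m := by
    ext i j
    rw [actM_apply, one_smul]
  calc twAct c 1 m = m * ((c 1 1 : S) • twQ c 1) := by
        rw [twAct, h2, twP_one hc, Matrix.smul_mul, one_mul, Matrix.smul_mul, Matrix.mul_smul]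
    _ = m := by rw [h1, mul_one]

/-- the averages are fixed -/
theorem twAct_sum (hc : IsCoc c) (γ : Γ) (m : Matrix Γ Γ S) :
    twAct c γ (∑ δ, twAct c δ m) = ∑ δ, twAct c δ m := by
  have h := map_sum (AddMonoidHom.mk' (twAct c γ) (twAct_add c γ)) (fun δ => twAct c δ m)
    Finset.univ
  simp only [AddMonoidHom.mk'_apply] at h
  rw [h]
  simp only [twAct_twAct hc]
  exact Fintype.sum_equiv (Equiv.mulLeft γ) _ _ fun δ => rfl

variable (c) (R : Type) [CommRing R] [Algebra R S] [SMulCommClass Γ R S]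

/-- the twisted algebra: the fixed ring of the twisted action -/
noncomputable def twAlg : Subalgebra R (Matrix Γ Γ S) where
  carrier := {m | ∀ γ, twAct c γ m = m}
  mul_mem' := by
    intro a b ha hb γ
    rw [twAct_mul, ha γ, hb γ]
  add_mem' := by
    intro a b ha hb γ
    rw [twAct_add, ha γ, hb γ]
  algebraMap_mem' := by
    intro r γ
    have e : algebraMap R (Matrix Γ Γ S) r = algebraMap R S r • (1 : Matrix Γ Γ S) := by
      rw [Algebra.algebraMap_eq_smul_one, Algebra.algebraMap_eq_smul_one, smul_assoc, one_smul]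
    rw [e, twAct_smul, twAct_one_mat, smul_algebraMap]

variable {c R}

theorem mem_twAlg {m : Matrix Γ Γ S} : m ∈ twAlg c R ↔ ∀ γ, twAct c γ m = m := Iff.rfl

end

end BB37
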